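import Pool.Agent.KST.Defs

/-!
The product formula for a determinant: the determinant of a square array of values of `s` vectors
is a nonzero element of `K`, so the product of all its absolute values is `1`; the archimedean ones
are at most `s!` times the product of the local norms of the vectors, the nonarchimedean ones at
most that product, and at one place we have an extra factor `θ`.
-/

set_option autoImplicit false

open Polynomial Height Height.AdmissibleAbsValues

namespace Pool.Agent.KST

section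

variable {K : Type} [Field K] [AdmissibleAbsValues K]

/-- For a nonzero vector only finitely many local norms differ from `1`. -/
theorem supp_iSup {κ : Type} [Finite κ] {x : κ → K} (hx : x ≠ 0) :
    (fun v : nonarchAbsVal (K := K) ↦ ⨆ i, v.val (x i)).HasFiniteMulSupport := by
  obtain ⟨i, hi⟩ : ∃ i, x i ≠ 0 := Function.ne_iff.mp hx
  have : Nonempty κ := .intro i
  have h : (⋃ j : {j // x j ≠ 0},
      Function.mulSupport (fun v : nonarchAbsVal (K := K) => v.val (x j))).Finite :=
    Set.finite_iUnion fun j => hasFiniteMulSupport j.2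
  refine h.subset ?_
  intro v hv
  by_contra hc
  simp only [Set.mem_iUnion, Function.mem_mulSupport, not_exists, not_not] at hc
  apply hv
  apply le_antisymm
  · refine ciSup_le fun j => ?_
    by_cases hj : x j = 0
    · simp [hj]
    · exact (hc ⟨j, hj⟩).le
  · exact Finite.le_ciSup_of_le i (hc ⟨i, hi⟩).ge

omit [AdmissibleAbsValues K] in
/-- One term of the Leibniz formula. -/
theorem abs_term {κ : Type} [Finite κ] (s : ℕ) (g : Fin s → κ → K) (τ : Fin s → κ)
    (w : AbsoluteValue K ℝ) (σ : Equiv.Perm (Fin s)) :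
    w ((((Equiv.Perm.sign σ : ℤˣ) : ℤ) : K) * ∏ i, g (σ i) (τ i)) ≤ ∏ j, ⨆ i, w (g j i) := by
  have h1 : w ((((Equiv.Perm.sign σ : ℤˣ) : ℤ) : K)) = 1 := by
    rcases Int.units_eq_one_or (Equiv.Perm.sign σ) with h | h
    · simp [h]
    · simp [h]
  rw [map_mul, h1, one_mul, map_prod]
  rw [← Equiv.prod_comp σ (fun j => ⨆ i, w (g j i))]
  exact Finset.prod_le_prod (fun i _ => w.nonneg _)
    (fun i _ => Finite.le_ciSup_of_le (τ i) le_rfl)

omit [AdmissibleAbsValues K] in
theorem abs_det_arch {κ : Type} [Finite κ] (s : ℕ) (g : Fin s → κ → K) (τ : Fin s → κ)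
    (w : AbsoluteValue K ℝ) :
    w (Matrix.of fun j t => g j (τ t)).det ≤ (s.factorial : ℝ) * ∏ j, ⨆ i, w (g j i) := by
  rw [Matrix.det_apply']
  refine (w.sum_le _ _).trans ?_
  refine (Finset.sum_le_card_nsmul _ _ (∏ j, ⨆ i, w (g j i)) ?_).trans ?_
  · intro σ _
    exact abs_term s g τ w σ
  · rw [Finset.card_univ, Fintype.card_perm, Fintype.card_fin, nsmul_eq_mul]

omit [AdmissibleAbsValues K] in
theorem abs_det_nonarch {κ : Type} [Finite κ] (s : ℕ) (g : Fin s → κ → K) (τ : Fin s → κ)
    (w : AbsoluteValue K ℝ) (hw : IsNonarchimedean w) :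
    w (Matrix.of fun j t => g j (τ t)).det ≤ ∏ j, ⨆ i, w (g j i) := by
  rw [Matrix.det_apply']
  obtain ⟨σ, _, h⟩ := IsNonarchimedean.finset_image_add_of_nonempty hw
    (fun σ : Equiv.Perm (Fin s) => (((Equiv.Perm.sign σ : ℤˣ) : ℤ) : K) *
      ∏ i, (Matrix.of fun j t => g j (τ t)) (σ i) i) (t := Finset.univ) Finset.univ_nonempty
  exact h.trans (abs_term s g τ w σ)

theorem det_bound {κ : Type} [Finite κ] (s : ℕ) (g : Fin s → κ → K) (τ : Fin s → κ)
    (v : AbsoluteValue K ℝ) (hv : v ∈ nonarchAbsVal (K := K)) (θ : ℝ) (hθ : 0 ≤ θ)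
    (hdet : (Matrix.of fun j t => g j (τ t)).det ≠ 0)
    (hb : v (Matrix.of fun j t => g j (τ t)).det ≤ θ * ∏ j, ⨆ i, v (g j i)) :
    1 ≤ (s.factorial : ℝ) ^ totalWeight K * θ * ∏ j, mulHeight (g j) := by
  classical
  -- the vectors are nonzero
  have hg : ∀ j, g j ≠ 0 := by
    intro j hj
    apply hdet
    apply Matrix.det_eq_zero_of_row_eq_zero j
    intro t
    simp [hj]
  have hprod : ∏ j, mulHeight (g j) =
      (∏ j, (archAbsVal.map fun w : AbsoluteValue K ℝ ↦ ⨆ i, w (g j i)).prod) *
      ∏ j, ∏ᶠ w : nonarchAbsVal (K := K), ⨆ i, w.val (g j i) := by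
    rw [← Finset.prod_mul_distrib]
    exact Finset.prod_congr rfl fun j _ => mulHeight_eq (hg j)
  have hnn : ∀ (w : AbsoluteValue K ℝ) (j : Fin s), 0 ≤ ⨆ i, w (g j i) := fun w j =>
    Real.iSup_nonneg_of_nonnegHomClass w _
  have hpf := product_formula hdet
  -- archimedean places
  have harch : (archAbsVal.map fun w : AbsoluteValue K ℝ =>
      w (Matrix.of fun j t => g j (τ t)).det).prod ≤
      (s.factorial : ℝ) ^ totalWeight K *
        ∏ j, (archAbsVal.map fun w : AbsoluteValue K ℝ ↦ ⨆ i, w (g j i)).prod := by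
    refine (Multiset.prod_map_le_prod_map₀ _
      (fun w : AbsoluteValue K ℝ => (s.factorial : ℝ) * ∏ j, ⨆ i, w (g j i))
      (fun w _ => w.nonneg _) (fun w _ => abs_det_arch s g τ w)).trans ?_
    rw [Multiset.prod_map_mul, Multiset.map_const', Multiset.prod_replicate,
      Multiset.prod_map_prod]
    exact le_rfl
  -- nonarchimedean places
  have hsupp : (fun w : nonarchAbsVal (K := K) =>
      ∏ j, ⨆ i, w.val (g j i)).HasFiniteMulSupport :=
    Function.HasFiniteMulSupport.prod (fun j => supp_iSup (hg j)) _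
  have hsuppθ : (fun w : nonarchAbsVal (K := K) =>
      if w = ⟨v, hv⟩ then θ else (1 : ℝ)).HasFiniteMulSupport := by
    refine (Set.finite_singleton (⟨v, hv⟩ : nonarchAbsVal (K := K))).subset ?_
    intro w hw
    by_contra hne
    apply hw
    have : w ≠ ⟨v, hv⟩ := hne
    simp [this]
  have hna : ∏ᶠ w : nonarchAbsVal (K := K), w.val (Matrix.of fun j t => g j (τ t)).det ≤
      θ * ∏ j, ∏ᶠ w : nonarchAbsVal (K := K), ⨆ i, w.val (g j i) := by
    have h1 : ∏ᶠ w : nonarchAbsVal (K := K), w.val (Matrix.of fun j t => g j (τ t)).det ≤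
        ∏ᶠ w : nonarchAbsVal (K := K), (if w = ⟨v, hv⟩ then θ else (1 : ℝ)) *
          ∏ j, ⨆ i, w.val (g j i) := by
      apply finprod_le_finprod (hasFiniteMulSupport hdet) (fun w => w.val.nonneg _)
        (hsuppθ.mul hsupp)
      intro w
      by_cases hw : w = ⟨v, hv⟩
      · subst hw
        simpa using hb
      · simp only [Pi.mul_apply, if_neg hw, one_mul]
        exact abs_det_nonarch s g τ w.val (isNonarchimedean w.val w.2)
    refine h1.trans (le_of_eq ?_)
    rw [finprod_mul_distrib hsuppθ hsupp]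
    congr 1
    · rw [finprod_eq_single _ (⟨v, hv⟩ : nonarchAbsVal (K := K)) (fun w hw => by simp [hw])]
      simp
    · exact finprod_prod_comm _ _ fun j _ => supp_iSup (hg j)
  rw [hprod]
  calc (1 : ℝ) = (archAbsVal.map fun w : AbsoluteValue K ℝ =>
      w (Matrix.of fun j t => g j (τ t)).det).prod *
      ∏ᶠ w : nonarchAbsVal (K := K), w.val (Matrix.of fun j t => g j (τ t)).det := hpf.symm
    _ ≤ ((s.factorial : ℝ) ^ totalWeight K *
        ∏ j, (archAbsVal.map fun w : AbsoluteValue K ℝ ↦ ⨆ i, w (g j i)).prod) *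
        (θ * ∏ j, ∏ᶠ w : nonarchAbsVal (K := K), ⨆ i, w.val (g j i)) := by
        apply mul_le_mul harch hna
        · exact finprod_nonneg fun w => w.val.nonneg _
        · apply mul_nonneg (by positivity)
          exact Finset.prod_nonneg fun j _ => Multiset.prod_map_nonneg fun w _ => hnn w j
    _ = _ := by ring

end

end Pool.Agent.KST
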