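import Pool.Agent.KST.Defs

set_option autoImplicit false

open Polynomial

namespace Pool.Agent.KST

/-- the ring of integers of a nonarchimedean absolute value -/
def padicO {K : Type} [Field K] (v : AbsoluteValue K ℝ) (hv : IsNonarchimedean v) : Subring K where
  carrier := {a | v a ≤ 1}
  mul_mem' := by
    intro a b ha hb
    rw [Set.mem_ofPred_eq] at ha hb ⊢
    rw [map_mul]
    exact mul_le_one₀ ha (v.nonneg b) hb
  one_mem' := by
    rw [Set.mem_ofPred_eq, map_one]
  add_mem' := by
    intro a b ha hb
    exact le_trans (hv a b) (max_le ha hb)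
  zero_mem' := by
    rw [Set.mem_ofPred_eq, map_zero]
    exact zero_le_one
  neg_mem' := by
    intro a ha
    rw [Set.mem_ofPred_eq] at ha ⊢
    rw [v.map_neg]
    exact ha

theorem padic_mem {K : Type} [Field K] (v : AbsoluteValue K ℝ) (hv : IsNonarchimedean v) (a : K) :
    a ∈ padicO v hv ↔ v a ≤ 1 := Iff.rfl

theorem padic_sum_le {K A : Type} [Field K] (v : AbsoluteValue K ℝ) (hv : IsNonarchimedean v)
    (S : Finset A) (f : A → K) (B : ℝ) (hB : 0 ≤ B) (h : ∀ a ∈ S, v (f a) ≤ B) :
    v (∑ a ∈ S, f a) ≤ B := by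
  classical
  induction S using Finset.induction_on with
  | empty => simpa using hB
  | insert a S ha ih =>
    rw [Finset.sum_insert ha]
    refine le_trans (hv _ _) (max_le (h a (Finset.mem_insert_self a S)) (ih ?_))
    intro b hb
    exact h b (Finset.mem_insert_of_mem hb)

/-- shifting an integral polynomial by an integral point -/
theorem padic_shift {K ν : Type} [Field K] [Fintype ν] (v : AbsoluteValue K ℝ)
    (hv : IsNonarchimedean v) (g : MvPolynomial ν K) (hg : ∀ m, v (g.coeff m) ≤ 1)
    (p₀ : ν → K) (hp₀ : ∀ i, v (p₀ i) ≤ 1) :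
    ∃ G : MvPolynomial ν K, (∀ m, v (G.coeff m) ≤ 1) ∧
      ∀ p : ν → K, MvPolynomial.eval p g = MvPolynomial.eval (fun i => p i - p₀ i) G := by
  set O := padicO v hv with hO
  let g' : MvPolynomial ν O := ∑ m ∈ g.support, MvPolynomial.monomial m ⟨g.coeff m, hg m⟩
  have hg' : MvPolynomial.map O.subtype g' = g := by
    simp only [g', map_sum, MvPolynomial.map_monomial]
    exact MvPolynomial.support_sum_monomial_coeff g
  let G' : MvPolynomial ν O :=
    MvPolynomial.eval₂Hom MvPolynomial.C
      (fun i => MvPolynomial.X i + MvPolynomial.C ⟨p₀ i, hp₀ i⟩) g'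
  refine ⟨MvPolynomial.map O.subtype G', ?_, ?_⟩
  · intro m
    rw [MvPolynomial.coeff_map]
    exact (MvPolynomial.coeff m G').2
  · intro p
    have h : (MvPolynomial.eval p).comp (MvPolynomial.map O.subtype) =
        ((MvPolynomial.eval (fun i => p i - p₀ i)).comp (MvPolynomial.map O.subtype)).comp
          (MvPolynomial.eval₂Hom MvPolynomial.C
            (fun i => MvPolynomial.X i + MvPolynomial.C ⟨p₀ i, hp₀ i⟩)) := by
      apply MvPolynomial.ringHom_ext
      · intro f
        simp
      · intro i
        simp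
    have h2 := congrArg (fun φ => φ g') h
    simp only [RingHom.comp_apply] at h2
    rw [hg'] at h2
    exact h2

/-- the number of small exponents in an injective family -/
theorem padic_count {ν : Type} [Fintype ν] (s t : ℕ) (φ : Fin s → (ν →₀ ℕ))
    (hφ : Function.Injective φ) :
    t * (s - t ^ Fintype.card ν) ≤ ∑ j, ∑ i, φ j i := by
  classical
  set S := Finset.univ.filter (fun j : Fin s => ∑ i, φ j i < t) with hS
  have hcard : S.card ≤ t ^ Fintype.card ν := by
    have h1 : S.card ≤ Fintype.card (ν → Fin t) := by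
      rw [← Finset.card_univ]
      by_cases ht : t = 0
      · have : S = ∅ := by
          rw [hS, ht]
          ext j
          simp
        rw [this]
        simp
      · refine Finset.card_le_card_of_injOn
          (fun j => fun i => ⟨φ j i % t, Nat.mod_lt _ (Nat.pos_of_ne_zero ht)⟩)
          (fun _ _ => Finset.mem_univ _) ?_
        intro j hj j' hj' heq
        apply hφ
        ext i
        have hlt : ∀ k ∈ S, φ k i < t := by
          intro k hk
          have h2 := (Finset.mem_filter.mp hk).2
          exact lt_of_le_of_lt (Finset.single_le_sum (f := fun i => φ k i)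
            (fun _ _ => Nat.zero_le _) (Finset.mem_univ i)) h2
        have h3 := congrFun heq i
        have h4 : φ j i % t = φ j' i % t := congrArg Fin.val h3
        rwa [Nat.mod_eq_of_lt (hlt j hj), Nat.mod_eq_of_lt (hlt j' hj')] at h4
    simpa using h1
  have hcompl : s - t ^ Fintype.card ν ≤ (Finset.univ.filter (fun j : Fin s => ¬ ∑ i, φ j i < t)).card := by
    have h1 := Finset.card_filter_add_card_filter_not (s := (Finset.univ : Finset (Fin s)))
      (p := fun j => ∑ i, φ j i < t)
    rw [Finset.card_univ, Fintype.card_fin, ← hS] at h1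
    generalize t ^ Fintype.card ν = T at hcard ⊢
    omega
  calc t * (s - t ^ Fintype.card ν)
      ≤ t * (Finset.univ.filter (fun j : Fin s => ¬ ∑ i, φ j i < t)).card :=
        Nat.mul_le_mul_left t hcompl
    _ = ∑ j ∈ Finset.univ.filter (fun j : Fin s => ¬ ∑ i, φ j i < t), t := by
        rw [Finset.sum_const, smul_eq_mul, mul_comm]
    _ ≤ ∑ j ∈ Finset.univ.filter (fun j : Fin s => ¬ ∑ i, φ j i < t), ∑ i, φ j i := by
        refine Finset.sum_le_sum ?_
        intro j hj
        exact not_lt.mp (Finset.mem_filter.mp hj).2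
    _ ≤ ∑ j, ∑ i, φ j i :=
        Finset.sum_le_sum_of_subset (Finset.filter_subset _ _)

/-- the determinant of polynomials with integral coefficients at congruent points -/
theorem padic_det {K ν : Type} [Field K] [Fintype ν] (v : AbsoluteValue K ℝ)
    (hv : IsNonarchimedean v) (θ : ℝ) (hθ0 : 0 ≤ θ) (hθ1 : θ ≤ 1) (s : ℕ)
    (g : Fin s → MvPolynomial ν K) (hg : ∀ u m, v ((g u).coeff m) ≤ 1)
    (p : Fin s → ν → K) (p₀ : ν → K) (hp₀ : ∀ i, v (p₀ i) ≤ 1)
    (hp : ∀ j i, v (p j i - p₀ i) ≤ θ) (t : ℕ) :
    v (Matrix.of fun j u => MvPolynomial.eval (p j) (g u)).det ≤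
      θ ^ (t * (s - t ^ Fintype.card ν)) := by
  classical
  choose G hG hGe using fun u => padic_shift v hv (g u) (hg u) p₀ hp₀
  set A : Finset (ν →₀ ℕ) := Finset.univ.biUnion (fun u => (G u).support) with hA
  let W : Fin s → (ν →₀ ℕ) → K := fun j α => ∏ i, (p j i - p₀ i) ^ α i
  let c : (ν →₀ ℕ) → Fin s → K := fun α u => (G u).coeff α
  have hmat : (Matrix.of fun j u => MvPolynomial.eval (p j) (g u)) =
      fun j => ∑ α ∈ A, W j α • c α := by
    funext j u
    rw [Matrix.of_apply, hGe u (p j), MvPolynomial.eval_eq', Finset.sum_apply]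
    have hsub : (G u).support ⊆ A := Finset.subset_biUnion_of_mem (fun u => (G u).support)
      (Finset.mem_univ u)
    rw [Finset.sum_subset hsub]
    · refine Finset.sum_congr rfl fun α _ => ?_
      simp only [Pi.smul_apply, smul_eq_mul, W, c]
      ring
    · intro α _ hα
      rw [MvPolynomial.notMem_support_iff.mp hα, zero_mul]
  have hdet : (Matrix.of fun j u => MvPolynomial.eval (p j) (g u)).det =
      ∑ φ ∈ Fintype.piFinset (fun _ : Fin s => A), (∏ j, W j (φ j)) *
        (Matrix.of fun j u => c (φ j) u).det := by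
    rw [hmat]
    have h1 := (Matrix.detRowAlternating (n := Fin s) (R := K)).toMultilinearMap.map_sum_finset
      (fun j α => W j α • c α) (fun _ => A)
    have h2 : (Matrix.det fun j => ∑ α ∈ A, W j α • c α) =
        (Matrix.detRowAlternating (n := Fin s) (R := K)).toMultilinearMap
          (fun j => ∑ α ∈ A, W j α • c α) := rfl
    rw [h2, h1]
    refine Finset.sum_congr rfl fun φ _ => ?_
    rw [MultilinearMap.map_smul_univ]
    rfl
  rw [hdet]
  refine padic_sum_le v hv _ _ _ (pow_nonneg hθ0 _) ?_
  intro φ _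
  by_cases hφ : Function.Injective φ
  · rw [map_mul, map_prod]
    have h1 : v (Matrix.of fun j u => c (φ j) u).det ≤ 1 := by
      let M' : Matrix (Fin s) (Fin s) (padicO v hv) :=
        Matrix.of fun j u => ⟨c (φ j) u, hG u (φ j)⟩
      have h2 : (Matrix.of fun j u => c (φ j) u) = (padicO v hv).subtype.mapMatrix M' := by
        ext j u
        rfl
      rw [h2, ← RingHom.map_det]
      exact (M'.det).2
    have h3 : ∏ j, v (W j (φ j)) ≤ θ ^ (∑ j, ∑ i, φ j i) := by
      rw [← Finset.prod_pow_eq_pow_sum]
      refine Finset.prod_le_prod (fun j _ => v.nonneg _) ?_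
      intro j _
      simp only [W]
      rw [map_prod, ← Finset.prod_pow_eq_pow_sum]
      refine Finset.prod_le_prod (fun i _ => v.nonneg _) ?_
      intro i _
      rw [map_pow]
      exact pow_le_pow_left₀ (v.nonneg _) (hp j i) _
    calc (∏ j, v (W j (φ j))) * v (Matrix.of fun j u => c (φ j) u).det
        ≤ θ ^ (∑ j, ∑ i, φ j i) * 1 :=
          mul_le_mul h3 h1 (v.nonneg _) (pow_nonneg hθ0 _)
      _ = θ ^ (∑ j, ∑ i, φ j i) := mul_one _
      _ ≤ θ ^ (t * (s - t ^ Fintype.card ν)) :=
          pow_le_pow_of_le_one hθ0 hθ1 (padic_count s t φ hφ)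
  · have h0 : (Matrix.of fun j u => c (φ j) u).det = 0 := by
      unfold Function.Injective at hφ
      push Not at hφ
      obtain ⟨j, j', he, hne⟩ := hφ
      refine Matrix.det_zero_of_row_eq hne ?_
      funext u
      simp only [Matrix.of_apply]
      rw [he]
    rw [h0, mul_zero, map_zero]
    exact pow_nonneg hθ0 _

end Pool.Agent.KST
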