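import Pool.Agent.KST.CoverD

/-!
The relation on one class of points of the orbit.
-/

set_option autoImplicit false

open Polynomial Height Height.AdmissibleAbsValues

namespace Pool.Agent.KST

/-- a place lies over only one prime number -/
theorem place_unique {K : Type} [Field K] (v : AbsoluteValue K ℝ) (hna : IsNonarchimedean v)
    (p p' : ℕ) (hp : p.Prime) (hp' : p'.Prime) (h : v (p : K) < 1) (h' : v (p' : K) < 1) :
    p = p' := by
  by_contra hpp
  have hcop : Nat.Coprime p p' := (Nat.coprime_primes hp hp').mpr hpp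
  have hbez := Nat.gcd_eq_gcd_ab p p'
  rw [hcop] at hbez
  have h5 : (1 : K) = (p : K) * ((p.gcdA p' : ℤ) : K) + (p' : K) * ((p.gcdB p' : ℤ) : K) := by
    have := congrArg (fun z : ℤ => (z : K)) hbez
    push_cast at this
    exact this
  have hint : ∀ z : ℤ, v (z : K) ≤ 1 := by
    intro z
    have h6 : (z : K) ∈ intRing v hna := intCast_mem _ z
    exact h6
  have h6 : v (1 : K) < 1 := by
    rw [h5]
    refine lt_of_le_of_lt (hna _ _) (max_lt ?_ ?_)
    · rw [map_mul]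
      exact mul_lt_one_of_nonneg_of_lt_one_left (v.nonneg _) h (hint _)
    · rw [map_mul]
      exact mul_lt_one_of_nonneg_of_lt_one_left (v.nonneg _) h' (hint _)
  rw [map_one] at h6
  exact lt_irrefl _ h6

theorem finite_bad_primes {K : Type} [Field K] [AdmissibleAbsValues K]
    (B : Set (AbsoluteValue K ℝ)) (hB : B.Finite) :
    ∃ Y₀ : ℕ, ∀ p : ℕ, p.Prime → Y₀ < p → ∀ v ∈ nonarchAbsVal (K := K), v (p : K) < 1 →
      v ∉ B := by
  classical
  have h1 : ∀ v : AbsoluteValue K ℝ, ∃ Y₀ : ℕ, ∀ p : ℕ, p.Prime → Y₀ < p →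
      v ∈ nonarchAbsVal (K := K) → v (p : K) < 1 → False := by
    intro v
    by_cases h : ∃ p : ℕ, p.Prime ∧ v ∈ nonarchAbsVal (K := K) ∧ v (p : K) < 1
    · obtain ⟨p, hp, hv, hvp⟩ := h
      refine ⟨p, fun p' hp' hlt _ hvp' => ?_⟩
      exact hlt.ne (place_unique v (isNonarchimedean _ hv) p p' hp hp' hvp hvp')
    · push Not at h
      refine ⟨0, fun p hp _ hv hvp => ?_⟩
      exact (h p hp hv).not_gt hvp
  choose Y hY using h1
  refine ⟨hB.toFinset.sup Y, fun p hp hlt v hv hvp hvB => ?_⟩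
  refine hY v p hp (lt_of_le_of_lt ?_ hlt) hv hvp
  exact Finset.le_sup (f := Y) (hB.mem_toFinset.mpr hvB)

theorem sup_zit {K ι : Type} [Field K] [Fintype ι] (d : ℕ) (P : ι → MvPolynomial ι K[X])
    (v : AbsoluteValue K ℝ) (hna : IsNonarchimedean v) (ρ : K[X])
    (hgood : ∀ x : K, v x ≤ 1 → v (ρ.eval x) = 1 → ∀ y : ι → K,
      (⨆ i, v (y i)) ^ d ≤ ⨆ i, v (evx x y (P i)))
    (x : K) (hx : v x ≤ 1) (y : ι → K) (hy : 1 ≤ ⨆ i, v (y i)) (k : ℕ)
    (hρ : ∀ l < k, v (ρ.eval (x + (l : K))) = 1) :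
    ∀ l ≤ k, 1 ≤ ⨆ i, v (zit P x y l i) := by
  intro l
  induction l with
  | zero => intro _; exact hy
  | succ l ih =>
    intro hl
    have h1 := ih (by omega)
    have hxl : v (x + (l : K)) ≤ 1 := by
      have : x + (l : K) ∈ intRing v hna :=
        (intRing v hna).add_mem hx (natCast_mem (intRing v hna) l)
      exact this
    refine le_trans ?_ (hgood (x + l) hxl (hρ l (by omega)) (zit P x y l))
    exact one_le_pow₀ h1

/-- the relation for one class of points -/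
theorem class_g {K ι : Type} [Field K] [AdmissibleAbsValues K] [Fintype ι]
    (d : ℕ) (P : ι → MvPolynomial ι K[X]) (hP : ∀ i, (P i).IsHomogeneous d) (x₀ : K)
    (y : ℕ → ι → K) (hy : IsOrbit P x₀ y) (c k s t T E : ℕ) (ρ : K[X])
    (v : AbsoluteValue K ℝ) (hv : v ∈ nonarchAbsVal (K := K)) (q : ℕ) (hq1 : 1 ≤ q)
    (hq : ∀ a : K, v a < 1 → v a ≤ 1 / (q : ℝ))
    (hPv : ∀ i m n, v (((P i).coeff m).coeff n) ≤ 1) (hx₀ : v x₀ ≤ 1)
    (hgood : ∀ x : K, v x ≤ 1 → v (ρ.eval x) = 1 → ∀ y : ι → K,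
      (⨆ i, v (y i)) ^ d ≤ ⨆ i, v (evx x y (P i)))
    (S : Set ℕ) (i₀ j : ι) (H : ℝ)
    (hS1 : ∀ n ∈ S, ∀ l < k, v (ρ.eval (x₀ + ((n + l : ℕ) : K))) = 1)
    (hS2 : ∀ n ∈ S, y n i₀ ≠ 0) (hS3 : ∀ n ∈ S, ∀ j, v (y n j / y n i₀) ≤ 1)
    (hS4 : ∀ n ∈ S, ∀ n' ∈ S, v ((x₀ + (n : K)) - (x₀ + (n' : K))) < 1)
    (hS5 : ∀ n ∈ S, ∀ n' ∈ S, ∀ j, v (y n j / y n i₀ - y n' j / y n' i₀) < 1)
    (hH : ∀ n ∈ S, ∀ l ≤ k, mulHeight (y (n + l)) ≤ H)
    (hnum : (s.factorial : ℝ) ^ totalWeight K *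
      (1 / (q : ℝ)) ^ (t * (s - t ^ (Fintype.card ι + 1))) * (H ^ (c * (k + 1))) ^ s < 1)
    (hs0 : 0 < s) (hsT : s ≤ T + 1) (ρ' : K[X]) (hρ' : ρ' ≠ 0)
    (b : Fin (T + 1) → (Fin (k + 1) → Fin c → ι) → K[X])
    (hb : ∀ l : Fin (T + 1), MvPolynomial.C ρ' *
      (MvPolynomial.X i₀ ^ (T - l) * MvPolynomial.X j ^ (l : ℕ)) =
        ∑ φ, MvPolynomial.C (b l φ) * Gfam P c k φ)
    (hE : ∀ l φ, (b l φ).natDegree ≤ E) :
    ∃ g : Polynomial K[X], g ≠ 0 ∧ g.natDegree ≤ T ∧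
      (∀ i, (g.coeff i).natDegree ≤ ρ'.natDegree + T * E) ∧
      ∀ n ∈ S, ((g.map (evalRingHom (x₀ + (n : K)))).eval (y n j / y n i₀)) = 0 := by
  classical
  have hna : IsNonarchimedean v := isNonarchimedean _ hv
  have hq0 : (0 : ℝ) < q := by exact_mod_cast hq1
  have hint : ∀ n : ℕ, v (x₀ + (n : K)) ≤ 1 := by
    intro n
    have : x₀ + (n : K) ∈ intRing v hna :=
      (intRing v hna).add_mem hx₀ (natCast_mem (intRing v hna) n)
    exact this
  have hzH : ∀ n ∈ S, ∀ l ≤ k,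
      mulHeight (zit P (x₀ + (n : K)) (fun i => y n i / y n i₀) l) ≤ H := by
    intro n hn l hl
    set u : ℕ → K := fun n => if y n i₀ = 0 then 1 else (y n i₀)⁻¹ with hu
    have hu0 : ∀ n, u n ≠ 0 := by
      intro n
      simp only [hu]
      split_ifs with h
      · exact one_ne_zero
      · exact inv_ne_zero h
    have h1 := zit_orbit d P hP x₀ _ (orbit_rescale d P hP x₀ y hy u hu0) n l
    obtain ⟨a, ha, h2⟩ := h1
    have h3 : (fun i => y n i / y n i₀) = fun i => u n * y n i := by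
      funext i
      simp only [hu, if_neg (hS2 n hn)]
      rw [div_eq_mul_inv, mul_comm]
    rw [h3, h2]
    have h4 : (a • fun i => u (n + l) * y (n + l) i) = (a * u (n + l)) • y (n + l) := by
      funext i
      simp [mul_assoc]
    rw [h4, mulHeight_smul_eq_mulHeight _ (mul_ne_zero ha (hu0 _))]
    exact hH n hn l hl
  obtain ⟨g, hg0, hgT, hgE, hg⟩ := class_relation (S := S) P c k s T E
    (fun n => x₀ + ((n : ℕ) : K)) (fun n i => y n i / y n i₀) i₀ j
    (fun n => div_self (hS2 n n.2)) (by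
      intro φ n
      by_contra hne
      have h1 := class_det P c k v hv hna (1 / (q : ℝ)) (by positivity)
        (by rw [div_le_one hq0]; exact_mod_cast hq1) hPv s t φ
        (fun j => x₀ + (((n j : S) : ℕ) : K)) (fun j i => y (n j) i / y (n j) i₀)
        (x₀ + (((n ⟨0, hs0⟩ : S) : ℕ) : K)) (fun i => y (n ⟨0, hs0⟩) i / y (n ⟨0, hs0⟩) i₀)
        (hint _) (fun i => hS3 _ (n ⟨0, hs0⟩).2 i)
        (fun j => hq _ (hS4 _ (n j).2 _ (n ⟨0, hs0⟩).2))
        (fun j i => hq _ (hS5 _ (n j).2 _ (n ⟨0, hs0⟩).2 i))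
        (fun j => sup_zit d P v hna ρ hgood _ (hint _) _ (by
            refine le_trans ?_ (le_ciSup (Set.finite_range _).bddAbove i₀)
            rw [div_self (hS2 _ (n j).2), map_one]) k (by
            intro l hl
            have := hS1 _ (n j).2 l hl
            push_cast at this
            rw [add_assoc]
            exact this))
        H (fun j => hzH _ (n j).2) hne
      linarith)
    hsT ρ' hρ' b hb hE
  exact ⟨g, hg0, hgT, hgE, fun n hn => hg ⟨n, hn⟩⟩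

end Pool.Agent.KST
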