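import Pool.Agent.KST.Defs
import Pool.Agent.KST.Padic

set_option autoImplicit false

open Polynomial Height Height.AdmissibleAbsValues

namespace Pool.Agent.KST

theorem finite_bad {K : Type} [Field K] [AdmissibleAbsValues K] (a : K) :
    {v | v ∈ nonarchAbsVal (K := K) ∧ 1 < v a}.Finite := by
  by_cases ha : a = 0
  · subst ha
    refine Set.Finite.subset Set.finite_empty ?_
    intro v hv
    have h := hv.2
    rw [map_zero] at h
    exact absurd h (not_lt.mpr zero_le_one)
  · have h := hasFiniteMulSupport (K := K) ha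
    have h2 : (Function.mulSupport (fun v : nonarchAbsVal (K := K) => v.val a)).Finite := h
    refine Set.Finite.subset (h2.image Subtype.val) ?_
    intro v hv
    refine ⟨⟨v, hv.1⟩, ?_, rfl⟩
    rw [Function.mem_mulSupport]
    exact ne_of_gt hv.2

/-- scaling of a form -/
theorem places_smul {K ι : Type} [Field K] [Fintype ι] (d : ℕ) (F : MvPolynomial ι K[X])
    (hF : F.IsHomogeneous d) (x c : K) (y : ι → K) :
    evx x (fun i => c * y i) F = c ^ d * evx x y F := by
  unfold evx
  rw [MvPolynomial.coe_eval₂Hom, MvPolynomial.coe_eval₂Hom, MvPolynomial.eval₂_eq',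
    MvPolynomial.eval₂_eq', Finset.mul_sum]
  refine Finset.sum_congr rfl fun m hm => ?_
  have hdeg : ∑ i, m i = d := by
    have h := hF (MvPolynomial.mem_support_iff.mp hm)
    rw [← h, Finsupp.weight_apply]
    simp [Finsupp.sum_fintype]
  have : ∏ i, (c * y i) ^ m i = c ^ d * ∏ i, y i ^ m i := by
    simp only [mul_pow]
    rw [Finset.prod_mul_distrib, Finset.prod_pow_eq_pow_sum, hdeg]
  rw [this]
  ring

/-- integral values -/
theorem places_int {K ι : Type} [Field K] [Fintype ι] (v : AbsoluteValue K ℝ)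
    (hv : IsNonarchimedean v) (F : MvPolynomial ι K[X])
    (hF : ∀ m n, v ((F.coeff m).coeff n) ≤ 1) (x : K) (hx : v x ≤ 1) (y : ι → K)
    (hy : ∀ i, v (y i) ≤ 1) : v (evx x y F) ≤ 1 := by
  rw [← padic_mem v hv]
  unfold evx
  rw [MvPolynomial.coe_eval₂Hom, MvPolynomial.eval₂_eq']
  refine Subring.sum_mem _ fun m _ => Subring.mul_mem _ ?_ ?_
  · rw [Polynomial.coe_evalRingHom, Polynomial.eval_eq_sum_range]
    refine Subring.sum_mem _ fun n _ => Subring.mul_mem _ (hF m n) (Subring.pow_mem _ hx n)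
  · refine Subring.prod_mem _ fun i _ => Subring.pow_mem _ (hy i) _

/-- the set of all coefficients is finite -/
theorem places_coeffs {K ι : Type} [Field K] (F : MvPolynomial ι K[X]) :
    ∃ T : Finset K, ∀ m n, (F.coeff m).coeff n ∈ T := by
  classical
  refine ⟨insert 0 (F.support.biUnion fun m =>
    (F.coeff m).support.image (fun n => (F.coeff m).coeff n)), ?_⟩
  intro m n
  by_cases h : (F.coeff m).coeff n = 0
  · rw [h]
    exact Finset.mem_insert_self _ _
  · refine Finset.mem_insert_of_mem ?_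
    rw [Finset.mem_biUnion]
    refine ⟨m, ?_, ?_⟩
    · rw [MvPolynomial.mem_support_iff]
      intro h0
      apply h
      rw [h0, Polynomial.coeff_zero]
    · exact Finset.mem_image.mpr ⟨n, Polynomial.mem_support_iff.mpr h, rfl⟩

theorem places_bad {K : Type} [Field K] [AdmissibleAbsValues K] (T : Finset K) :
    ∃ B : Set (AbsoluteValue K ℝ), B.Finite ∧ ∀ v ∈ nonarchAbsVal (K := K), v ∉ B →
      ∀ a ∈ T, v a ≤ 1 := by
  refine ⟨⋃ a ∈ T, {v | v ∈ nonarchAbsVal (K := K) ∧ 1 < v a},
    T.finite_toSet.biUnion fun a _ => finite_bad a, ?_⟩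
  intro v hv hB a ha
  by_contra hc
  push Not at hc
  exact hB (Set.mem_biUnion (Finset.mem_coe.mpr ha) ⟨hv, hc⟩)

/-- for all but finitely many places the coefficients are integral and the size of the image is
the `d`-th power of the size of the point -/
theorem good_places {K ι : Type} [Field K] [AdmissibleAbsValues K] [Fintype ι] [Nonempty ι]
    (d : ℕ) (hd : 1 ≤ d) (P : ι → MvPolynomial ι K[X]) (hP : IsSkew d P) (M : ℕ) (ρ : K[X])
    (hρ : ρ ≠ 0)
    (hreg : ∀ i, MvPolynomial.C ρ * MvPolynomial.X i ^ M ∈ Ideal.span (Set.range P)) :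
    ∃ B : Set (AbsoluteValue K ℝ), B.Finite ∧ ∀ v ∈ nonarchAbsVal (K := K), v ∉ B →
      (∀ i m n, v (((P i).coeff m).coeff n) ≤ 1) ∧ (∀ n, v (ρ.coeff n) ≤ 1) ∧
      ∀ x : K, v x ≤ 1 → v (ρ.eval x) = 1 → ∀ y : ι → K,
        (⨆ i, v (y i)) ^ d ≤ ⨆ i, v (evx x y (P i)) := by
  classical
  have hreg' : ∀ i, ∃ A : ι → MvPolynomial ι K[X],
      ∑ j, A j * P j = MvPolynomial.C ρ * MvPolynomial.X i ^ M := by
    intro i
    exact Ideal.mem_span_range_iff_exists_fun.mp (hreg i)
  choose A hA using hreg'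
  choose TP hTP using fun i => places_coeffs (P i)
  choose TA hTA using fun (p : ι × ι) => places_coeffs (A p.1 p.2)
  obtain ⟨Tρ, hTρ⟩ := places_coeffs (MvPolynomial.C (σ := ι) ρ)
  obtain ⟨B, hBfin, hB⟩ := places_bad (K := K)
    ((Finset.univ.biUnion TP) ∪ (Finset.univ.biUnion TA) ∪ Tρ)
  refine ⟨B, hBfin, ?_⟩
  intro v hv hvB
  have hna := isNonarchimedean (K := K) v hv
  have hint := hB v hv hvB
  have h1 : ∀ i m n, v (((P i).coeff m).coeff n) ≤ 1 := by
    intro i m n
    refine hint _ ?_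
    refine Finset.mem_union_left _ (Finset.mem_union_left _ ?_)
    exact Finset.mem_biUnion.mpr ⟨i, Finset.mem_univ i, hTP i m n⟩
  have h2 : ∀ i j m n, v (((A i j).coeff m).coeff n) ≤ 1 := by
    intro i j m n
    refine hint _ ?_
    refine Finset.mem_union_left _ (Finset.mem_union_right _ ?_)
    exact Finset.mem_biUnion.mpr ⟨(i, j), Finset.mem_univ _, hTA (i, j) m n⟩
  have h3 : ∀ n, v (ρ.coeff n) ≤ 1 := by
    intro n
    refine hint _ ?_
    refine Finset.mem_union_right _ ?_
    have := hTρ 0 n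
    rwa [MvPolynomial.coeff_zero_C] at this
  refine ⟨h1, h3, ?_⟩
  intro x hx hρx y
  have hbdd : ∀ f : ι → K, BddAbove (Set.range fun i => v (f i)) := fun f => Set.finite_range _ |>.bddAbove
  obtain ⟨i₀, hi₀⟩ := exists_eq_ciSup_of_finite (f := fun i => v (y i))
  have hsup : ∀ i, v (y i) ≤ v (y i₀) := by
    intro i
    rw [hi₀]
    exact le_ciSup (hbdd y) i
  rw [← hi₀]
  by_cases hz : y i₀ = 0
  · rw [hz, map_zero, zero_pow (by omega)]
    exact le_trans (v.nonneg _) (le_ciSup (hbdd fun i => evx x y (P i)) i₀)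
  · set y' : ι → K := fun i => y i / y i₀ with hy'
    have hvpos : 0 < v (y i₀) := v.pos hz
    have hy'int : ∀ i, v (y' i) ≤ 1 := by
      intro i
      rw [hy']
      dsimp only
      rw [map_div₀, div_le_one hvpos]
      exact hsup i
    have hy0 : y' i₀ = 1 := div_self hz
    have hev := congrArg (evx x y') (hA i₀)
    rw [map_mul, map_pow, evx_C, evx_X, hy0, one_pow, mul_one, map_sum] at hev
    -- one of the terms has absolute value at least one
    have hex : ∃ j, 1 ≤ v (evx x y' (P j)) := by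
      by_contra hc
      push Not at hc
      have hlt : v (∑ j, evx x y' (A i₀ j * P j)) < 1 := by
        have hall : ∀ j, v (evx x y' (A i₀ j * P j)) < 1 := by
          intro j
          rw [map_mul, map_mul]
          have ha := places_int v hna (A i₀ j) (h2 i₀ j) x hx y' hy'int
          exact lt_of_le_of_lt (mul_le_of_le_one_left (v.nonneg _) ha) (hc j)
        obtain ⟨j₁, hj₁⟩ := exists_eq_ciSup_of_finite (f := fun j => v (evx x y' (A i₀ j * P j)))
        refine lt_of_le_of_lt (padic_sum_le v hna Finset.univ _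
          (v (evx x y' (A i₀ j₁ * P j₁))) (v.nonneg _) ?_) (hall j₁)
        intro j _
        rw [hj₁]
        exact le_ciSup (hbdd fun j => evx x y' (A i₀ j * P j)) j
      rw [hev, hρx] at hlt
      exact lt_irrefl _ hlt
    obtain ⟨j, hj⟩ := hex
    have hsc : evx x y (P j) = y i₀ ^ d * evx x y' (P j) := by
      rw [← places_smul d (P j) (hP.hom j) x (y i₀) y']
      congr 1
      congr 1
      funext i
      rw [hy']
      dsimp only
      field_simp
    calc v (y i₀) ^ d = v (y i₀) ^ d * 1 := (mul_one _).symm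
      _ ≤ v (y i₀) ^ d * v (evx x y' (P j)) :=
          mul_le_mul_of_nonneg_left hj (pow_nonneg (v.nonneg _) _)
      _ = v (evx x y (P j)) := by rw [hsc, map_mul, map_pow]
      _ ≤ ⨆ i, v (evx x y (P i)) := le_ciSup (hbdd fun i => evx x y (P i)) j

end Pool.Agent.KST
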