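import Pool.Agent.KST.Defs

/-!
Kawaguchi-Silverman for skew products: a finite place of a number field over a prime number with
its residue classes, and primes from Bertrand's postulate.
-/

set_option autoImplicit false

open Polynomial Height Height.AdmissibleAbsValues

namespace Pool.Agent.KST

/-- primes between `Y` and `2 ^ m Y` -/
theorem exists_primes (Y m : ℕ) (hY : 1 ≤ Y) : ∃ s : Finset ℕ, s.card = m ∧
    ∀ p ∈ s, p.Prime ∧ Y < p ∧ p ≤ 2 ^ m * Y := by
  induction m with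
  | zero => exact ⟨∅, rfl, by simp⟩
  | succ m ih =>
    obtain ⟨s, hs, hs'⟩ := ih
    have hpos : 1 ≤ 2 ^ m := Nat.one_le_two_pow
    have h0 : 2 ^ m * Y ≠ 0 := by positivity
    obtain ⟨p, hp, h1, h2⟩ := Nat.exists_prime_lt_and_le_two_mul (2 ^ m * Y) h0
    have hps : p ∉ s := fun h => absurd (hs' p h).2.2 (by omega)
    refine ⟨insert p s, by rw [Finset.card_insert_of_notMem hps, hs], ?_⟩
    intro r hr
    rw [Finset.mem_insert] at hr
    rcases hr with rfl | hr
    · refine ⟨hp, ?_, ?_⟩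
      · nlinarith
      · rw [pow_succ]
        nlinarith
    · obtain ⟨k1, k2, k3⟩ := hs' r hr
      refine ⟨k1, k2, k3.trans ?_⟩
      rw [pow_succ]
      nlinarith

open NumberField IsDedekindDomain in
theorem exists_prime_ideal (K : Type) [Field K] [NumberField K] (p : ℕ) (hp : p.Prime) :
    ∃ P : HeightOneSpectrum (𝓞 K), (p : 𝓞 K) ∈ P.asIdeal ∧ p ≤ Ideal.absNorm P.asIdeal ∧
      Ideal.absNorm P.asIdeal ≤ p ^ Module.finrank ℚ K := by
  have hnorm : Ideal.absNorm (Ideal.span {(p : 𝓞 K)}) = p ^ Module.finrank ℚ K := by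
    rw [Ideal.absNorm_span_singleton]
    have h1 : (p : 𝓞 K) = algebraMap ℤ (𝓞 K) (p : ℤ) := by simp
    rw [h1, Algebra.norm_algebraMap, RingOfIntegers.rank, Int.natAbs_pow, Int.natAbs_natCast]
  have hfr : Module.finrank ℚ K ≠ 0 := Module.finrank_pos.ne'
  have hne : Ideal.span {(p : 𝓞 K)} ≠ ⊤ := by
    intro h
    rw [h, Ideal.absNorm_top] at hnorm
    have := Nat.one_lt_pow hfr hp.one_lt
    omega
  obtain ⟨M, hM, hle⟩ := Ideal.exists_le_maximal _ hne
  have hmem : (p : 𝓞 K) ∈ M := hle (Ideal.mem_span_singleton_self _)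
  have hbot : M ≠ ⊥ := by
    intro h
    rw [h, Ideal.mem_bot] at hmem
    exact hp.ne_zero (by exact_mod_cast hmem)
  have hdvd : Ideal.absNorm M ∣ p ^ Module.finrank ℚ K := by
    rw [← hnorm]
    exact Ideal.absNorm_dvd_absNorm_of_le hle
  refine ⟨⟨M, hM.isPrime, hbot⟩, hmem, ?_, Nat.le_of_dvd (pow_pos hp.pos _) hdvd⟩
  obtain ⟨f, -, hf⟩ := (Nat.dvd_prime_pow hp).1 hdvd
  have hf0 : f ≠ 0 := by
    rintro rfl
    rw [pow_zero, Ideal.absNorm_eq_one_iff] at hf
    exact hM.ne_top hf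
  change p ≤ Ideal.absNorm M
  rw [hf]
  exact Nat.le_self_pow hf0 p

open NumberField IsDedekindDomain in
/-- a place over the prime number `p` -/
theorem exists_place (K : Type) [Field K] [NumberField K] (p : ℕ) (hp : p.Prime) :
    ∃ v ∈ nonarchAbsVal (K := K), v (p : K) < 1 ∧ ∃ q : ℕ, p ≤ q ∧
      q ≤ p ^ Module.finrank ℚ K ∧ (∀ a : K, v a < 1 → v a ≤ 1 / (q : ℝ)) ∧
      ∃ cls : K → Fin q, ∀ a b, v a ≤ 1 → v b ≤ 1 → cls a = cls b → v (a - b) < 1 := by
  obtain ⟨P, hmem, hq1, hq2⟩ := exists_prime_ideal K p hp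
  set w : FinitePlace K := FinitePlace.mk P with hw
  have hval : ∀ a : K, w.val a =
      (WithZeroMulInt.toNNReal (HeightOneSpectrum.absNorm_ne_zero P) (P.valuation K a) : ℝ) := by
    intro a
    have : w.val a = ‖FinitePlace.embedding P a‖ := rfl
    rw [this, FinitePlace.norm_embedding']
  have hlt : ∀ a : K, w.val a < 1 ↔ P.valuation K a < 1 := by
    intro a
    rw [hval]
    exact_mod_cast WithZeroMulInt.toNNReal_lt_one_iff (HeightOneSpectrum.one_lt_absNorm_nnreal P)
  have hle : ∀ a : K, w.val a ≤ 1 ↔ P.valuation K a ≤ 1 := by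
    intro a
    rw [hval]
    exact_mod_cast WithZeroMulInt.toNNReal_le_one_iff (HeightOneSpectrum.one_lt_absNorm_nnreal P)
  have hna : ∀ a b : K, w.val (a + b) ≤ max (w.val a) (w.val b) := fun a b =>
    FinitePlace.add_le w a b
  refine ⟨w.val, ?_, ?_, Ideal.absNorm P.asIdeal, hq1, hq2, ?_, ?_⟩
  · exact FinitePlace.isFinitePlace w
  · rw [hlt]
    have h1 : (p : K) = algebraMap (𝓞 K) K (p : 𝓞 K) := by simp
    rw [h1]
    exact (P.valuation_lt_one_iff_mem _).2 hmem
  · intro a ha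
    rw [hlt] at ha
    rw [hval]
    have h2 : P.valuation K a ≤ WithZero.exp (-1 : ℤ) := by
      by_cases h0 : P.valuation K a = 0
      · rw [h0]
        exact zero_le
      · rw [← WithZero.exp_log h0, WithZero.exp_le_exp]
        rw [← WithZero.exp_log h0, ← WithZero.exp_zero, WithZero.exp_lt_exp] at ha
        omega
    have h3 := (WithZeroMulInt.toNNReal_strictMono
      (HeightOneSpectrum.one_lt_absNorm_nnreal P)).monotone h2
    have h4 : WithZeroMulInt.toNNReal (HeightOneSpectrum.absNorm_ne_zero P)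
        (WithZero.exp (-1 : ℤ)) = ((Ideal.absNorm P.asIdeal : NNReal))⁻¹ := by
      rw [WithZeroMulInt.toNNReal_neg_apply _ (WithZero.exp_ne_zero)]
      have h5 : (WithZero.unzero (WithZero.exp_ne_zero (a := (-1 : ℤ)))).toAdd = (-1 : ℤ) := rfl
      rw [h5, zpow_neg_one]
    rw [h4] at h3
    rw [one_div]
    exact_mod_cast h3
  · classical
    have : Finite (𝓞 K ⧸ P.asIdeal) := P.asIdeal.finiteQuotientOfFreeOfNeBot P.ne_bot
    have hcard : Ideal.absNorm P.asIdeal = Nat.card (𝓞 K ⧸ P.asIdeal) := by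
      rw [Ideal.absNorm_apply, Submodule.cardQuot_apply]
    obtain ⟨e⟩ : Nonempty ((𝓞 K ⧸ P.asIdeal) ≃ Fin (Ideal.absNorm P.asIdeal)) := by
      rw [hcard]
      exact ⟨Finite.equivFin _⟩
    have happ : ∀ a : K, ∃ b : 𝓞 K, w.val a ≤ 1 → w.val (a - algebraMap (𝓞 K) K b) < 1 := by
      intro a
      by_cases h : w.val a ≤ 1
      · obtain ⟨b, hb⟩ := P.exists_valuation_sub_lt_of_integer ((hle a).1 h) (γ := 1)
        refine ⟨b, fun _ => (hlt _).2 ?_⟩
        rw [Valuation.map_sub_swap]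
        exact hb
      · exact ⟨0, fun h' => absurd h' h⟩
    choose β hβ using happ
    refine ⟨fun a => e (Ideal.Quotient.mk _ (β a)), ?_⟩
    intro a b ha hb hab
    have h1 := e.injective hab
    rw [Ideal.Quotient.eq] at h1
    have h2 : w.val (algebraMap (𝓞 K) K (β a - β b)) < 1 := by
      rw [hlt]
      exact (P.valuation_lt_one_iff_mem _).2 h1
    have h3 : a - b = (a - algebraMap (𝓞 K) K (β a)) +
        (algebraMap (𝓞 K) K (β a - β b) + (algebraMap (𝓞 K) K (β b) - b)) := by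
      rw [map_sub]
      ring
    rw [h3]
    refine lt_of_le_of_lt (hna _ _) (max_lt (hβ a ha) (lt_of_le_of_lt (hna _ _) (max_lt h2 ?_)))
    rw [AbsoluteValue.map_sub]
    exact hβ b hb

end Pool.Agent.KST
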