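import Pool.Agent.KST.Defs

/-!
Linear algebra for the covering by curves: determinants of linearly independent functions, and
relations of bounded degree.
-/

set_option autoImplicit false

open Polynomial

namespace Pool.Agent.KST

/-- linearly independent functions have a nonzero determinant at suitable points -/
theorem exists_det_ne_zero {K S : Type} [Field K] (s : ℕ) (f : Fin s → S → K)
    (hf : LinearIndependent K f) :
    ∃ n : Fin s → S, (Matrix.of fun j u => f u (n j)).det ≠ 0 := by
  classical
  set r : S → (Fin s → K) := fun x u => f u x with hr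
  have hspan : Submodule.span K (Set.range r) = ⊤ := by
    by_contra hne
    obtain ⟨φ, hφ, h⟩ := Submodule.exists_le_ker_of_lt_top _ (lt_top_iff_ne_top.mpr hne)
    apply hφ
    have hc : ∀ x, ∑ u, φ (Pi.single u 1) * f u x = 0 := by
      intro x
      have h1 : φ (r x) = 0 := h (Submodule.subset_span ⟨x, rfl⟩)
      rw [LinearMap.pi_apply_eq_sum_univ φ (r x)] at h1
      rw [← h1]
      refine Finset.sum_congr rfl fun u _ => ?_
      rw [smul_eq_mul, mul_comm]
      congr 2
      ext i
      simp [Pi.single_apply, eq_comm]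
    have h2 : ∑ u, φ (Pi.single u 1) • f u = 0 := by
      ext x
      simpa [Finset.sum_apply] using hc x
    have h3 := Fintype.linearIndependent_iff.mp hf _ h2
    refine LinearMap.pi_ext' fun i => LinearMap.ext_ring ?_
    simpa using h3 i
  obtain ⟨κ', a, ha, hsp, hli⟩ := exists_linearIndependent' K r
  rw [hspan] at hsp
  let b := Module.Basis.mk hli hsp.ge
  have e : κ' ≃ Fin s := b.indexEquiv (Pi.basisFun K (Fin s))
  refine ⟨fun j => a (e.symm j), ?_⟩
  have h4 : LinearIndependent K (fun j => (r ∘ a) (e.symm j)) := hli.comp _ e.symm.injective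
  have h5 : IsUnit (Matrix.of fun j u => f u (a (e.symm j))) := by
    rw [← Matrix.linearIndependent_rows_iff_isUnit]
    exact h4
  exact ((Matrix.isUnit_iff_isUnit_det _).mp h5).ne_zero

/-- the polynomial with the coefficients `c e`, `e ≤ D` -/
noncomputable def polyOf {K : Type} [Field K] (D : ℕ) (c : Fin (D + 1) → K) : K[X] :=
  ∑ e : Fin (D + 1), C (c e) * X ^ (e : ℕ)

theorem natDegree_polyOf {K : Type} [Field K] (D : ℕ) (c : Fin (D + 1) → K) :
    (polyOf D c).natDegree ≤ D := by
  refine natDegree_sum_le_of_forall_le _ _ fun e _ => ?_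
  exact (natDegree_C_mul_X_pow_le _ _).trans (Nat.lt_succ_iff.mp e.2)

theorem coeff_polyOf {K : Type} [Field K] (D : ℕ) (c : Fin (D + 1) → K) (e : Fin (D + 1)) :
    (polyOf D c).coeff e = c e := by
  unfold polyOf
  rw [finsetSum_coeff, Finset.sum_eq_single e]
  · simp
  · intro b _ hb
    rw [coeff_C_mul_X_pow, if_neg]
    intro h
    exact hb (Fin.ext h).symm
  · simp

/-- a homogeneous linear system over `K[X]` with more unknowns than equations has a solution of
bounded degree -/
theorem exists_bounded_kernel {K τ : Type} [Field K] [Fintype τ] (T E : ℕ)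
    (hτ : Fintype.card τ ≤ T) (B : Fin (T + 1) → τ → K[X]) (hB : ∀ l u, (B l u).natDegree ≤ E) :
    ∃ c : Fin (T + 1) → K[X], c ≠ 0 ∧ (∀ l, (c l).natDegree ≤ T * E) ∧
      ∀ u, ∑ l, c l * B l u = 0 := by
  classical
  let D := T * E
  let f : (Fin (T + 1) → Fin (D + 1) → K) →ₗ[K] (τ → Fin (D + E + 1) → K) :=
    { toFun := fun c u e => (∑ l, polyOf D (c l) * B l u).coeff e
      map_add' := by
        intro c c'
        ext u e
        simp only [polyOf, Pi.add_apply, map_add, add_mul, Finset.sum_add_distrib, coeff_add]
      map_smul' := by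
        intro a c
        ext u e
        simp only [polyOf, Pi.smul_apply, smul_eq_mul, map_mul, RingHom.id_apply, mul_assoc,
          ← Finset.mul_sum, coeff_C_mul] }
  have hker : LinearMap.ker f ≠ ⊥ := by
    apply LinearMap.ker_ne_bot_of_finrank_lt
    simp only [Module.finrank_pi_fintype, Module.finrank_self, Fintype.card_fin, Finset.sum_const,
      Finset.card_univ, smul_eq_mul, mul_one]
    calc Fintype.card τ * (D + E + 1) ≤ T * (D + E + 1) := Nat.mul_le_mul_right _ hτ
      _ < (T + 1) * (D + 1) := by
        simp only [D]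
        nlinarith
  obtain ⟨c, hc, hc0⟩ := (Submodule.ne_bot_iff _).mp hker
  refine ⟨fun l => polyOf D (c l), ?_, fun l => natDegree_polyOf _ _, ?_⟩
  · intro h
    apply hc0
    ext l e
    have h1 := congrFun h l
    rw [← coeff_polyOf D (c l) e, h1]
    simp
  · intro u
    ext e
    rw [coeff_zero]
    by_cases he : e < D + E + 1
    · have h1 := congrFun (congrFun (LinearMap.mem_ker.mp hc) u) ⟨e, he⟩
      exact h1
    · apply coeff_eq_zero_of_natDegree_lt
      refine lt_of_le_of_lt (natDegree_sum_le_of_forall_le _ _ fun l _ => ?_)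
        (lt_of_lt_of_le (Nat.lt_succ_self (D + E)) (not_lt.mp he))
      exact natDegree_mul_le.trans (add_le_add (natDegree_polyOf _ _) (hB l u))

end Pool.Agent.KST
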