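import Pool.Agent.KST.Defs

/-!
Project KST (MP_e3c919_ag), row KST-9 (helper36): relations of bounded degree for polynomial
expressions in algebraic functions of bounded degree, by specialisation of a universal integral
relation.
-/

set_option autoImplicit false

open Polynomial

namespace Pool.Agent.KST

/-- values of a fixed polynomial at polynomials of bounded degree have bounded degree -/
theorem k9_deg {K κ : Type} [Field K] (q : MvPolynomial κ K[X]) (E : ℕ) :
    ∃ B : ℕ, ∀ c : κ → K[X], (∀ i, (c i).natDegree ≤ E) →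
      (MvPolynomial.eval c q).natDegree ≤ B := by
  induction q using MvPolynomial.induction_on with
  | C a => exact ⟨a.natDegree, fun c _ => by rw [MvPolynomial.eval_C]⟩
  | add p q hp hq =>
    obtain ⟨B₁, h₁⟩ := hp
    obtain ⟨B₂, h₂⟩ := hq
    refine ⟨max B₁ B₂, fun c hc => ?_⟩
    rw [map_add]
    exact (Polynomial.natDegree_add_le _ _).trans (max_le_max (h₁ c hc) (h₂ c hc))
  | mul_X p i hp =>
    obtain ⟨B₁, h₁⟩ := hp
    refine ⟨B₁ + E, fun c hc => ?_⟩
    rw [map_mul, MvPolynomial.eval_X]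
    exact Polynomial.natDegree_mul_le.trans (add_le_add (h₁ c hc) (hc i))

theorem k9_coeffs {K κ : Type} [Field K] (H : Polynomial (MvPolynomial κ K[X])) (E : ℕ) :
    ∃ B : ℕ, ∀ c : κ → K[X], (∀ i, (c i).natDegree ≤ E) →
      ∀ n, ((H.map (MvPolynomial.eval c)).coeff n).natDegree ≤ B := by
  choose b hb using fun n => k9_deg (H.coeff n) E
  refine ⟨∑ n ∈ Finset.range (H.natDegree + 1), b n, fun c hc n => ?_⟩
  rw [Polynomial.coeff_map]
  by_cases hn : n ≤ H.natDegree
  · exact (hb n c hc).trans (Finset.single_le_sum (f := b) (fun _ _ => Nat.zero_le _)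
      (Finset.mem_range.2 (Nat.lt_succ_of_le hn)))
  · rw [Polynomial.coeff_eq_zero_of_natDegree_lt (not_le.1 hn), map_zero,
      Polynomial.natDegree_zero]
    exact Nat.zero_le _

section univ
variable {A A₀ ν : Type} [CommRing A] [CommRing A₀] {T : ℕ} (a : ν → Fin T → A)

/-- the universal equation of the `i`-th variable -/
noncomputable def k9_G (i : ν) : MvPolynomial ν A :=
  MvPolynomial.X i ^ T + ∑ t : Fin T, MvPolynomial.C (a i t) * MvPolynomial.X i ^ (t : ℕ)

/-- the ideal of the universal equations -/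
noncomputable def k9_I : Ideal (MvPolynomial ν A) := Ideal.span (Set.range (k9_G a))

theorem k9_th_integral (i : ν) :
    IsIntegral A (Ideal.Quotient.mk (k9_I a) (MvPolynomial.X i)) := by
  refine ⟨X ^ T + ∑ t : Fin T, C (a i t) * X ^ (t : ℕ),
    Polynomial.monic_X_pow_add (Polynomial.degree_sum_fin_lt _), ?_⟩
  have h : Ideal.Quotient.mk (k9_I a) (k9_G a i) = 0 :=
    Ideal.Quotient.eq_zero_iff_mem.2 (Ideal.subset_span ⟨i, rfl⟩)
  rw [← h, k9_G]
  simp only [Polynomial.eval₂_add, Polynomial.eval₂_pow, Polynomial.eval₂_X,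
    Polynomial.eval₂_finsetSum, Polynomial.eval₂_mul, Polynomial.eval₂_C, map_add, map_pow,
    map_sum, map_mul]
  rfl

theorem k9_F_integral (ι₀ : A₀ →+* A) (F : MvPolynomial ν A₀) :
    IsIntegral A (MvPolynomial.eval₂ ((algebraMap A (MvPolynomial ν A ⧸ k9_I a)).comp ι₀)
      (fun i => Ideal.Quotient.mk (k9_I a) (MvPolynomial.X i)) F) := by
  induction F using MvPolynomial.induction_on with
  | C b =>
    rw [MvPolynomial.eval₂_C]
    exact isIntegral_algebraMap
  | add p q hp hq =>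
    rw [MvPolynomial.eval₂_add]
    exact hp.add hq
  | mul_X p i hp =>
    rw [MvPolynomial.eval₂_mul, MvPolynomial.eval₂_X]
    exact hp.mul (k9_th_integral a i)

/-- the universal relation -/
theorem k9_univ (ι₀ : A₀ →+* A) (F : MvPolynomial ν A₀) :
    ∃ Hu : Polynomial A, Hu.Monic ∧ ∀ (R : Type) [CommRing R] (f : A →+* R) (θ : ν → R),
      (∀ i, θ i ^ T + ∑ t : Fin T, f (a i t) * θ i ^ (t : ℕ) = 0) →
        Hu.eval₂ f (MvPolynomial.eval₂ (f.comp ι₀) θ F) = 0 := by
  obtain ⟨Hu, hmon, hz⟩ := k9_F_integral a ι₀ F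
  refine ⟨Hu, hmon, fun R _ f θ hθ => ?_⟩
  have hΨ₀ : ∀ b ∈ k9_I a, MvPolynomial.eval₂Hom f θ b = 0 := by
    intro b hb
    have hle : k9_I a ≤ RingHom.ker (MvPolynomial.eval₂Hom f θ) := by
      rw [k9_I, Ideal.span_le]
      rintro _ ⟨i, rfl⟩
      rw [SetLike.mem_coe, RingHom.mem_ker, k9_G]
      simp only [map_add, map_pow, map_sum, map_mul, MvPolynomial.eval₂Hom_X',
        MvPolynomial.eval₂Hom_C]
      exact hθ i
    exact hle hb
  let Ψ : (MvPolynomial ν A ⧸ k9_I a) →+* R := Ideal.Quotient.lift _ _ hΨ₀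
  have hΨa : Ψ.comp (algebraMap A (MvPolynomial ν A ⧸ k9_I a)) = f := by
    apply RingHom.ext
    intro b
    show MvPolynomial.eval₂Hom f θ (MvPolynomial.C b) = f b
    simp
  have hΨF : Ψ (MvPolynomial.eval₂ ((algebraMap A (MvPolynomial ν A ⧸ k9_I a)).comp ι₀)
      (fun i => Ideal.Quotient.mk (k9_I a) (MvPolynomial.X i)) F) =
      MvPolynomial.eval₂ (f.comp ι₀) θ F := by
    rw [MvPolynomial.eval₂_comp_left, ← RingHom.comp_assoc, hΨa]
    congr 1
    funext i
    show MvPolynomial.eval₂Hom f θ (MvPolynomial.X i) = θ i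
    simp
  rw [← hΨF, ← hΨa, ← Polynomial.hom_eval₂, hz, map_zero]

end univ

theorem bounded_relation {K R ν : Type} [Field K] [CommRing R] [IsDomain R] [Fintype ν]
    (j : K[X] →+* R) (hj : Function.Injective j) (F : MvPolynomial ν K[X]) (T E : ℕ) :
    ∃ B : ℕ, ∀ θ : ν → R, (∀ i, BInt j T E (θ i)) →
      ∃ H : Polynomial K[X], H ≠ 0 ∧ H.natDegree ≤ B ∧ (∀ i, (H.coeff i).natDegree ≤ B) ∧
        H.eval₂ j (MvPolynomial.eval₂ j θ F) = 0 := by
  obtain ⟨Hu, hmon, hz⟩ := k9_univ (fun (i : ν) (t : Fin T) =>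
    (MvPolynomial.X (i, t) : MvPolynomial (ν × Fin T) K[X]))
    (MvPolynomial.C : K[X] →+* MvPolynomial (ν × Fin T) K[X]) F
  obtain ⟨B, hB⟩ := k9_coeffs Hu E
  refine ⟨max B Hu.natDegree, fun θ hθ => ?_⟩
  choose g hg1 hg2 hg3 hg4 using hθ
  -- equations of degree exactly `T`
  let c : ν × Fin T → K[X] := fun p => (g p.1 * X ^ (T - (g p.1).natDegree)).coeff (p.2 : ℕ)
  have hc : ∀ p, (c p).natDegree ≤ E := by
    intro p
    simp only [c]
    rw [Polynomial.coeff_mul_X_pow']
    split_ifs with h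
    · exact hg3 _ _
    · simp
  have hsum : ∀ i, θ i ^ T + ∑ t : Fin T, j (c (i, t)) * θ i ^ (t : ℕ) = 0 := by
    intro i
    set G := g i * X ^ (T - (g i).natDegree) with hG
    have hGm : G.Monic := (hg1 i).mul (Polynomial.monic_X_pow _)
    have hGd : G.natDegree = T := by
      rw [hG, (hg1 i).natDegree_mul (Polynomial.monic_X_pow _), Polynomial.natDegree_X_pow]
      have := hg2 i
      omega
    have h0 : G.eval₂ j (θ i) = 0 := by
      rw [hG, Polynomial.eval₂_mul, hg4 i, zero_mul]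
    rw [Polynomial.eval₂_eq_sum_range, hGd, Finset.sum_range_succ] at h0
    have h1 : G.coeff T = 1 := by
      have := hGm.coeff_natDegree
      rwa [hGd] at this
    rw [h1, map_one, one_mul, add_comm, Finset.sum_range] at h0
    exact h0
  have hcomp : (j.comp (MvPolynomial.eval c)).comp
      (MvPolynomial.C : K[X] →+* MvPolynomial (ν × Fin T) K[X]) = j := by
    apply RingHom.ext
    intro a
    simp
  refine ⟨Hu.map (MvPolynomial.eval c), (hmon.map _).ne_zero, ?_, ?_, ?_⟩
  · exact (Polynomial.natDegree_map_le).trans (le_max_right _ _)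
  · intro i
    exact (hB c hc i).trans (le_max_left _ _)
  · have h1 := hz R (j.comp (MvPolynomial.eval c)) θ (by
      intro i
      rw [← hsum i]
      simp)
    rw [hcomp] at h1
    rw [Polynomial.eval₂_map]
    exact h1

theorem k9_strip {K R : Type} [Field K] [CommRing R] [IsDomain R] (j : K[X] →+* R) (δ : R)
    (hδ : δ ≠ 0) (B : ℕ) (n : ℕ) : ∀ H : Polynomial K[X], H.natDegree ≤ n → H ≠ 0 →
      (∀ i, (H.coeff i).natDegree ≤ B) → H.eval₂ j δ = 0 →
      ∃ H' : Polynomial K[X], H'.coeff 0 ≠ 0 ∧ (H'.coeff 0).natDegree ≤ B ∧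
        H'.eval₂ j δ = 0 := by
  induction n with
  | zero =>
    intro H hn h0 hB hz
    refine ⟨H, ?_, hB 0, hz⟩
    intro hc
    apply h0
    rw [Polynomial.eq_C_of_natDegree_le_zero hn, hc, Polynomial.C_0]
  | succ n ih =>
    intro H hn h0 hB hz
    by_cases hc : H.coeff 0 = 0
    · have hH : H.divX * X = H := by
        have := Polynomial.divX_mul_X_add H
        rwa [hc, Polynomial.C_0, add_zero] at this
      refine ih H.divX ?_ ?_ ?_ ?_
      · rw [Polynomial.natDegree_divX_eq_natDegree_tsub_one]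
        omega
      · intro h
        apply h0
        rw [← hH, h, zero_mul]
      · intro i
        rw [Polynomial.coeff_divX]
        exact hB _
      · rw [← hH, Polynomial.eval₂_mul, Polynomial.eval₂_X] at hz
        exact (mul_eq_zero.1 hz).resolve_right hδ
    · exact ⟨H, hc, hB 0, hz⟩

theorem bounded_zero {K R ν : Type} [Field K] [CommRing R] [IsDomain R] [Fintype ν]
    (j : K[X] →+* R) (hj : Function.Injective j) (F : MvPolynomial ν K[X]) (T E : ℕ) :
    ∃ B : ℕ, ∀ θ : ν → R, (∀ i, BInt j T E (θ i)) → MvPolynomial.eval₂ j θ F ≠ 0 →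
      ∃ c : K[X], c ≠ 0 ∧ c.natDegree ≤ B ∧ ∀ (L : Type) [Field L] (e : K →+* L) (x : K)
        (φ : R →+* L), (∀ f, φ (j f) = e (f.eval x)) →
          φ (MvPolynomial.eval₂ j θ F) = 0 → c.eval x = 0 := by
  obtain ⟨B, hB⟩ := bounded_relation j hj F T E
  refine ⟨B, fun θ hθ hne => ?_⟩
  obtain ⟨H, h0, -, h2, h3⟩ := hB θ hθ
  obtain ⟨H', h4, h5, h6⟩ := k9_strip j _ hne B H.natDegree H le_rfl h0 h2 h3
  refine ⟨H'.coeff 0, h4, h5, fun L _ e x φ hφ hz => ?_⟩
  have h7 := congrArg φ h6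
  rw [map_zero, Polynomial.hom_eval₂, hz, Polynomial.eval₂_at_zero, RingHom.comp_apply,
    hφ] at h7
  exact (map_eq_zero e).1 h7

end Pool.Agent.KST
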