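import Pool.Agent.KST.Defs

/-!
Kawaguchi-Silverman for skew products: the products of iterates of the forms span all forms of
their degree, up to a polynomial factor in `x`.
-/

set_option autoImplicit false

open Polynomial

namespace Pool.Agent.KST

theorem pull_hom {K ι : Type} [Field K] (d : ℕ) (P : ι → MvPolynomial ι K[X])
    (hP : ∀ i, (P i).IsHomogeneous d) (n : ℕ) (F : MvPolynomial ι K[X])
    (hF : F.IsHomogeneous n) : (pull P F).IsHomogeneous (d * n) :=
  hF.eval₂ _ _ (fun _ => MvPolynomial.isHomogeneous_C _ _) hP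

theorem span_pull_iter {K ι : Type} [Field K] (d : ℕ) (P : ι → MvPolynomial ι K[X])
    (hP : ∀ i, (P i).IsHomogeneous d) (n : ℕ) (F : MvPolynomial ι K[X])
    (hF : F.IsHomogeneous n) (l : ℕ) : ((pull P)^[l] F).IsHomogeneous (n * d ^ l) := by
  induction l with
  | zero => simpa using hF
  | succ l ih =>
    rw [Function.iterate_succ_apply']
    have := pull_hom d P hP _ _ ih
    rwa [show n * d ^ (l + 1) = d * (n * d ^ l) by ring]

theorem gfam_hom {K ι : Type} [Field K] (d : ℕ) (P : ι → MvPolynomial ι K[X])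
    (hP : ∀ i, (P i).IsHomogeneous d) (c k : ℕ) (φ : Fin (k + 1) → Fin c → ι) :
    (Gfam P c k φ).IsHomogeneous (Tdeg c d k) := by
  have h0 : Tdeg c d k = ∑ l : Fin (k + 1), c * d ^ (l : ℕ) := by
    rw [Tdeg, Finset.mul_sum, Finset.sum_range]
  rw [h0, Gfam]
  refine MvPolynomial.IsHomogeneous.prod _ _ _ fun l _ => ?_
  refine span_pull_iter d P hP c _ ?_ l
  have h1 := MvPolynomial.IsHomogeneous.prod (R := K[X]) Finset.univ
    (fun t : Fin c => (MvPolynomial.X (φ l t) : MvPolynomial ι K[X])) (fun _ => 1)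
    fun t _ => MvPolynomial.isHomogeneous_X _ _
  simpa using h1

theorem span_range_pow {R A ι : Type} [CommRing R] [CommRing A] [Algebra R A] (f : ι → A)
    (n : ℕ) : Submodule.span R (Set.range f) ^ n =
      Submodule.span R (Set.range fun ψ : Fin n → ι => ∏ t, f (ψ t)) := by
  rw [Submodule.span_pow]
  congr 1
  ext a
  rw [Set.mem_pow]
  constructor
  · rintro ⟨g, rfl⟩
    have h1 : ∀ t, ∃ i, f i = (g t : A) := fun t => (g t).2
    choose ψ hψ using h1
    refine ⟨ψ, ?_⟩
    simp only [hψ, List.prod_ofFn]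
  · rintro ⟨ψ, rfl⟩
    refine ⟨fun t => ⟨f (ψ t), ψ t, rfl⟩, ?_⟩
    simp only [List.prod_ofFn]

/-- homogeneous component of a product with a homogeneous factor -/
theorem span_comp_mul {R σ : Type} [CommRing R] (A P : MvPolynomial σ R) (m d : ℕ)
    (hP : P.IsHomogeneous d) : MvPolynomial.homogeneousComponent (m + d) (A * P) =
      MvPolynomial.homogeneousComponent m A * P := by
  classical
  conv_lhs => rw [← MvPolynomial.sum_homogeneousComponent A, Finset.sum_mul, map_sum]
  have h1 : ∀ i, MvPolynomial.homogeneousComponent (m + d)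
      (MvPolynomial.homogeneousComponent i A * P) =
      if i = m then MvPolynomial.homogeneousComponent m A * P else 0 := by
    intro i
    have h2 := (MvPolynomial.homogeneousComponent_isHomogeneous i A).mul hP
    rw [MvPolynomial.homogeneousComponent_of_mem h2]
    by_cases h : i = m
    · subst h
      simp
    · rw [if_neg (by omega), if_neg h]
  simp only [h1]
  rw [Finset.sum_ite_eq']
  split_ifs with h
  · rfl
  · rw [MvPolynomial.homogeneousComponent_eq_zero m A (by
      rw [Finset.mem_range] at h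
      omega), zero_mul]

/-- division of a form of large degree -/
theorem span_div {K ι : Type} [Field K] [Fintype ι] (d : ℕ) (P : ι → MvPolynomial ι K[X])
    (hP : ∀ i, (P i).IsHomogeneous d) (M : ℕ) (ρ : K[X])
    (hreg : ∀ i, MvPolynomial.C ρ * MvPolynomial.X i ^ (M + 1) ∈ Ideal.span (Set.range P))
    (m : ℕ) (hm : Fintype.card ι * (M + 1) ≤ m + d) (hι : 0 < Fintype.card ι)
    (F : MvPolynomial ι K[X])
    (hF : F.IsHomogeneous (m + d)) : ∃ B : ι → MvPolynomial ι K[X],
      (∀ i, (B i).IsHomogeneous m) ∧ MvPolynomial.C ρ * F = ∑ i, B i * P i := by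
  classical
  have h1 : MvPolynomial.C ρ * F ∈ Ideal.span (Set.range P) := by
    rw [F.as_sum, Finset.mul_sum]
    refine Ideal.sum_mem _ fun s hs => ?_
    have hdeg : s.degree = m + d := by
      rw [MvPolynomial.mem_support_iff] at hs
      by_contra hne
      exact hs (hF.coeff_eq_zero hne)
    have hex : ∃ i, M + 1 ≤ s i := by
      by_contra hcon
      push Not at hcon
      have h2 : s.degree ≤ Fintype.card ι * M := by
        rw [Finsupp.degree_eq_sum]
        calc ∑ i, s i ≤ ∑ _i : ι, M := Finset.sum_le_sum fun i _ => by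
              have := hcon i
              omega
          _ = Fintype.card ι * M := by simp
      rw [hdeg] at h2
      nlinarith
    obtain ⟨i, hi⟩ := hex
    have h3 : MvPolynomial.monomial s (F.coeff s) =
        MvPolynomial.X i ^ (M + 1) *
          MvPolynomial.monomial (s - Finsupp.single i (M + 1)) (F.coeff s) := by
      rw [MvPolynomial.X_pow_eq_monomial, MvPolynomial.monomial_mul, one_mul,
        add_tsub_cancel_of_le (Finsupp.single_le_iff.2 hi)]
    rw [h3, ← mul_assoc]
    exact Ideal.mul_mem_right _ _ (hreg i)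
  obtain ⟨A, hA⟩ := (Ideal.mem_span_range_iff_exists_fun).1 h1
  refine ⟨fun i => MvPolynomial.homogeneousComponent m (A i),
    fun i => MvPolynomial.homogeneousComponent_isHomogeneous _ _, ?_⟩
  have h4 : (MvPolynomial.C ρ * F).IsHomogeneous (m + d) := hF.C_mul ρ
  have h5 := MvPolynomial.homogeneousComponent_eq_self h4
  rw [← h5, ← hA, map_sum]
  exact Finset.sum_congr rfl fun i _ => span_comp_mul _ _ _ _ (hP i)

/-- iterated division -/
theorem span_div_iter {K ι : Type} [Field K] [Fintype ι] (d : ℕ) (P : ι → MvPolynomial ι K[X])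
    (hP : ∀ i, (P i).IsHomogeneous d) (M : ℕ) (ρ : K[X])
    (hreg : ∀ i, MvPolynomial.C ρ * MvPolynomial.X i ^ (M + 1) ∈ Ideal.span (Set.range P))
    (hι : 0 < Fintype.card ι) (j : ℕ) : ∀ F : MvPolynomial ι K[X],
      F.IsHomogeneous (Fintype.card ι * (M + 1) + d * j) →
      MvPolynomial.C (ρ ^ j) * F ∈
        MvPolynomial.homogeneousSubmodule ι K[X] (Fintype.card ι * (M + 1)) *
          Submodule.span K[X] (Set.range P) ^ j := by
  induction j with
  | zero =>
    intro F hF
    rw [pow_zero, pow_zero, map_one, one_mul, mul_one]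
    simpa using hF
  | succ j ih =>
    intro F hF
    obtain ⟨B, hB, hs⟩ := span_div d P hP M ρ hreg (Fintype.card ι * (M + 1) + d * j)
      (by omega) hι F (by rwa [show Fintype.card ι * (M + 1) + d * j + d =
        Fintype.card ι * (M + 1) + d * (j + 1) by ring])
    rw [pow_succ ρ, map_mul, mul_assoc, hs, Finset.mul_sum,
      pow_succ (Submodule.span K[X] (Set.range P)), ← mul_assoc]
    refine Submodule.sum_mem _ fun i _ => ?_
    rw [← mul_assoc]
    exact Submodule.mul_mem_mul (ih _ (hB i)) (Submodule.subset_span ⟨i, rfl⟩)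

theorem gfam_cons {R ι : Type} [CommRing R] (P : ι → MvPolynomial ι R[X]) (c k : ℕ)
    (ψ : Fin c → ι) (φ : Fin (k + 1) → Fin c → ι) :
    Gfam P c (k + 1) (Fin.cons ψ φ) =
      (∏ t : Fin c, MvPolynomial.X (ψ t)) * pull P (Gfam P c k φ) := by
  rw [Gfam, Fin.prod_univ_succ, Gfam, map_prod]
  simp only [Fin.val_zero, Function.iterate_zero, id, Fin.cons_zero, Fin.val_succ, Fin.cons_succ,
    Function.iterate_succ_apply']

theorem span_key {K ι : Type} [Field K] [Fintype ι] (d : ℕ) (P : ι → MvPolynomial ι K[X])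
    (hP : ∀ i, (P i).IsHomogeneous d) (M : ℕ) (ρ : K[X]) (hρ : ρ ≠ 0)
    (hreg : ∀ i, MvPolynomial.C ρ * MvPolynomial.X i ^ (M + 1) ∈ Ideal.span (Set.range P))
    (hι : 0 < Fintype.card ι) (k : ℕ) : ∃ σ : K[X], σ ≠ 0 ∧ ∀ F : MvPolynomial ι K[X],
      F.IsHomogeneous (Tdeg (Fintype.card ι * (M + 1)) d k) → MvPolynomial.C σ * F ∈
        Submodule.span K[X] (Set.range (Gfam P (Fintype.card ι * (M + 1)) k)) := by
  set c := Fintype.card ι * (M + 1) with hc
  have hH : ∀ n, MvPolynomial.homogeneousSubmodule ι K[X] n =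
      Submodule.span K[X] (Set.range fun ψ : Fin n → ι => ∏ t, MvPolynomial.X (ψ t)) := by
    intro n
    rw [← MvPolynomial.homogeneousSubmodule_one_pow, MvPolynomial.homogeneousSubmodule_one_eq_span_X,
      span_range_pow]
  induction k with
  | zero =>
    refine ⟨1, one_ne_zero, fun F hF => ?_⟩
    have h0 : Tdeg c d 0 = c := by simp [Tdeg]
    rw [h0] at hF
    have h1 : F ∈ MvPolynomial.homogeneousSubmodule ι K[X] c := hF
    rw [hH] at h1
    rw [map_one, one_mul]
    refine Submodule.span_mono ?_ h1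
    rintro _ ⟨ψ, rfl⟩
    exact ⟨fun _ => ψ, by simp [Gfam]⟩
  | succ k ih =>
    obtain ⟨σ, hσ, hs⟩ := ih
    have hT : Tdeg c d (k + 1) = c + d * Tdeg c d k := by
      rw [Tdeg, Finset.sum_range_succ', Tdeg]
      simp only [pow_succ, pow_zero, ← Finset.sum_mul]
      ring
    set T := Tdeg c d k with hTdef
    set σ' : K[X] := σ.comp (X + 1) with hσ'
    have hσ'0 : σ' ≠ 0 := by
      intro h
      rw [hσ', Polynomial.comp_eq_zero_iff] at h
      rcases h with h | ⟨-, h⟩
      · exact hσ h
      · have h1 := congrArg Polynomial.natDegree h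
        rw [Polynomial.natDegree_C] at h1
        have h2 : (X + 1 : K[X]).natDegree = 1 := by
          simpa using Polynomial.natDegree_X_add_C (1 : K)
        omega
    have hpC : ∀ f : K[X], pull P (MvPolynomial.C f) = MvPolynomial.C (f.comp (X + 1)) := by
      intro f
      simp [pull]
    have hpX : ∀ i, pull P (MvPolynomial.X i) = P i := by
      intro i
      simp [pull]
    set S' := Submodule.span K[X] (Set.range fun φ => pull P (Gfam P c k φ)) with hS'
    have hB : ∀ B ∈ Submodule.span K[X] (Set.range P) ^ T, MvPolynomial.C σ' * B ∈ S' := by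
      intro B hB
      rw [span_range_pow] at hB
      induction hB using Submodule.span_induction with
      | mem x hx =>
        obtain ⟨α, rfl⟩ := hx
        have h1 : (∏ t : Fin T, MvPolynomial.X (α t) : MvPolynomial ι K[X]).IsHomogeneous T := by
          have h2 : (∏ t : Fin T, MvPolynomial.X (α t) : MvPolynomial ι K[X]) ∈
              MvPolynomial.homogeneousSubmodule ι K[X] T := by
            rw [hH]
            exact Submodule.subset_span ⟨α, rfl⟩
          exact h2
        obtain ⟨b, hb⟩ := (Submodule.mem_span_range_iff_exists_fun _).1 (hs _ h1)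
        have h3 := congrArg (pull P) hb
        rw [map_mul, map_prod, hpC, map_sum] at h3
        simp only [hpX] at h3
        rw [← h3]
        refine Submodule.sum_mem _ fun φ _ => ?_
        rw [MvPolynomial.smul_eq_C_mul, map_mul, hpC, ← MvPolynomial.smul_eq_C_mul]
        exact Submodule.smul_mem _ _ (Submodule.subset_span ⟨φ, rfl⟩)
      | zero =>
        rw [mul_zero]
        exact Submodule.zero_mem _
      | add x y _ _ hx hy =>
        rw [mul_add]
        exact Submodule.add_mem _ hx hy
      | smul a x _ hx =>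
        rw [mul_smul_comm]
        exact Submodule.smul_mem _ _ hx
    refine ⟨ρ ^ T * σ', mul_ne_zero (pow_ne_zero _ hρ) hσ'0, fun F hF => ?_⟩
    have h1 := span_div_iter d P hP M ρ hreg hι T F (by rwa [hT] at hF)
    have h2 : ∀ G ∈ MvPolynomial.homogeneousSubmodule ι K[X] c *
        Submodule.span K[X] (Set.range P) ^ T, MvPolynomial.C σ' * G ∈
        Submodule.span K[X] (Set.range (Gfam P c (k + 1))) := by
      intro G hG
      induction hG using Submodule.mul_induction_on' with
      | mem_mul_mem A hA B hB' =>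
        have h3 : MvPolynomial.C σ' * (A * B) ∈
            MvPolynomial.homogeneousSubmodule ι K[X] c * S' := by
          rw [mul_left_comm]
          exact Submodule.mul_mem_mul hA (hB B hB')
        rw [hH, hS', Submodule.span_mul_span] at h3
        refine Submodule.span_mono ?_ h3
        rintro _ ⟨_, ⟨ψ, rfl⟩, _, ⟨φ, rfl⟩, rfl⟩
        exact ⟨Fin.cons ψ φ, gfam_cons P c k ψ φ⟩
      | add x _ y _ hx hy =>
        rw [mul_add]
        exact Submodule.add_mem _ hx hy
    rw [map_mul, mul_comm (MvPolynomial.C (ρ ^ T)), mul_assoc]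
    exact h2 _ h1

set_option linter.unusedVariables false in
/-- the products of iterates span all forms of their degree, generically -/
theorem gfam_span {K ι : Type} [Field K] [Fintype ι] [DecidableEq ι] [Nonempty ι] (d : ℕ)
    (hd : 1 ≤ d) (P : ι → MvPolynomial ι K[X]) (hP : IsSkew d P) :
    ∃ c : ℕ, 1 ≤ c ∧ ∀ k : ℕ, ∃ ρ : K[X], ρ ≠ 0 ∧ ∀ F : MvPolynomial ι K[X],
      F.IsHomogeneous (Tdeg c d k) → ∃ b : (Fin (k + 1) → Fin c → ι) → K[X],
        MvPolynomial.C ρ * F = ∑ φ, MvPolynomial.C (b φ) * Gfam P c k φ := by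
  obtain ⟨M, ρ, hρ, hreg⟩ := hP.reg
  have hι : 0 < Fintype.card ι := Fintype.card_pos
  refine ⟨Fintype.card ι * (M + 1), Nat.mul_pos hι M.succ_pos, fun k => ?_⟩
  obtain ⟨σ, hσ, h⟩ := span_key d P hP.hom M ρ hρ (fun i => by
    rw [pow_succ, ← mul_assoc]
    exact Ideal.mul_mem_right _ _ (hreg i)) hι k
  refine ⟨σ, hσ, fun F hF => ?_⟩
  obtain ⟨b, hb⟩ := (Submodule.mem_span_range_iff_exists_fun _).1 (h F hF)
  refine ⟨b, ?_⟩
  rw [← hb]
  exact Finset.sum_congr rfl fun φ _ => MvPolynomial.smul_eq_C_mul _ _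

end Pool.Agent.KST
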