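import Pool.Agent.KST.CoverE
import Pool.Agent.KST.Span

/-!
The points `(x₀ + n; y n)` with `N ≤ n < 2 N` of an orbit of polynomially growing height lie on few
curves of bounded degree (the determinant method for products of iterates).
-/

set_option autoImplicit false

open Polynomial Height Height.AdmissibleAbsValues

namespace Pool.Agent.KST

/-- The points with `N ≤ n < 2 N` lie on few curves of bounded degree. -/
def Covered {K ι : Type} [Field K] (x₀ : K) (y : ℕ → ι → K) : Prop :=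
  ∃ T E C N₀ : ℕ, ∀ N, N₀ ≤ N → ∃ (L : ℕ) (S : Fin L → Set ℕ) (i₀ : Fin L → ι)
    (g : Fin L → ι → Polynomial K[X]), L ^ 4 ≤ C * N ∧
    (∀ n, N ≤ n → n < 2 * N → ∃ κ, n ∈ S κ) ∧ (∀ κ, ∀ n ∈ S κ, y n (i₀ κ) ≠ 0) ∧
    (∀ κ j, g κ j ≠ 0 ∧ (g κ j).natDegree ≤ T ∧ ∀ i, ((g κ j).coeff i).natDegree ≤ E) ∧
    ∀ κ j, ∀ n ∈ S κ, ((g κ j).map (evalRingHom (x₀ + n))).eval (y n j / y n (i₀ κ)) = 0

theorem exists_no_root {K : Type} [Field K] [CharZero K] (x₀ : K) (ρ : K[X]) (hρ : ρ ≠ 0) :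
    ∃ N₁ : ℕ, ∀ n : ℕ, N₁ ≤ n → ρ.eval (x₀ + (n : K)) ≠ 0 := by
  classical
  have hfin : {n : ℕ | ρ.eval (x₀ + (n : K)) = 0}.Finite := by
    have h1 : Set.InjOn (fun n : ℕ => x₀ + (n : K)) {n : ℕ | ρ.eval (x₀ + (n : K)) = 0} := by
      intro n _ n' _ h
      exact Nat.cast_injective (R := K) (add_left_cancel h)
    refine Set.Finite.of_finite_image (s := {n : ℕ | ρ.eval (x₀ + (n : K)) = 0}) ?_ h1
    refine (ρ.roots.toFinset.finite_toSet).subset ?_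
    rintro _ ⟨n, hn, rfl⟩
    simpa [hρ] using hn
  obtain ⟨N₁, hN₁⟩ := hfin.bddAbove
  refine ⟨N₁ + 1, fun n hn h0 => ?_⟩
  have := hN₁ (a := n) h0
  omega

theorem covered {K ι : Type} [Field K] [NumberField K] [Fintype ι] [Nonempty ι] (d : ℕ)
    (hd : 2 ≤ d) (P : ι → MvPolynomial ι K[X]) (hP : IsSkew d P) (x₀ : K) (y : ℕ → ι → K)
    (hy : IsOrbit P x₀ y) (A : ℕ) (hA : ∀ n, mulHeight (y n) ≤ ((n : ℝ) + 2) ^ A) :
    Covered x₀ y := by
  classical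
  obtain ⟨M, ρ, hρ, hreg⟩ := hP.reg
  obtain ⟨B, hB, hgood⟩ := good_places d (by omega) P hP M ρ hρ hreg
  obtain ⟨c, hc, hspan⟩ := gfam_span d (by omega) P hP
  set m := Module.finrank ℚ K with hm
  have hm1 : 1 ≤ m := Module.finrank_pos
  set w := totalWeight K with hw
  set r := Fintype.card ι + 1 with hr
  set a := 4 * m * r with ha
  have ha1 : 1 ≤ a := by
    have : 0 < 4 * m * r := by positivity
    omega
  obtain ⟨k, hk⟩ := exists_exp (2 * (a * (A * c)) + 2) r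
  set t := 2 * (a * (A * (c * (k + 1)))) + 2 with ht
  set s := 2 * t ^ r with hs
  set T := Tdeg c d k with hT
  have hsT : s ≤ T + 1 := by
    have h1 : t ≤ (2 * (a * (A * c)) + 2) * (k + 1) := by
      rw [ht]
      nlinarith
    have h2 : s ≤ 2 ^ k := (Nat.mul_le_mul_left 2 (Nat.pow_le_pow_left h1 r)).trans hk
    have h3 : 2 ^ k ≤ d ^ k := Nat.pow_le_pow_left hd k
    have h4 : d ^ k ≤ ∑ l ∈ Finset.range (k + 1), d ^ l :=
      Finset.single_le_sum (f := fun l => d ^ l) (fun _ _ => Nat.zero_le _)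
        (Finset.self_mem_range_succ k)
    have h5 : ∑ l ∈ Finset.range (k + 1), d ^ l ≤ T := by
      rw [hT]
      exact Nat.le_mul_of_pos_left _ hc
    omega
  have hs0 : 0 < s := by
    rw [hs]
    have : 0 < t ^ r := Nat.pow_pos (by omega)
    omega
  obtain ⟨ρ', hρ', hF⟩ := hspan k
  have hb : ∀ (i₀ j : ι) (l : Fin (T + 1)), ∃ b : (Fin (k + 1) → Fin c → ι) → K[X],
      MvPolynomial.C ρ' * (MvPolynomial.X i₀ ^ (T - l) * MvPolynomial.X j ^ (l : ℕ)) =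
        ∑ φ, MvPolynomial.C (b φ) * Gfam P c k φ := by
    intro i₀ j l
    apply hF
    have h1 := ((MvPolynomial.isHomogeneous_X K[X] i₀).pow (T - l)).mul
      ((MvPolynomial.isHomogeneous_X K[X] j).pow (l : ℕ))
    have h2 : 1 * (T - (l : ℕ)) + 1 * (l : ℕ) = T := by
      have := l.2
      omega
    rwa [h2] at h1
  choose b hb using hb
  obtain ⟨E, hE⟩ : ∃ E : ℕ, ∀ i₀ j l φ, (b i₀ j l φ).natDegree ≤ E := by
    refine ⟨Finset.univ.sup fun z : ι × ι × Fin (T + 1) × (Fin (k + 1) → Fin c → ι) =>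
      (b z.1 z.2.1 z.2.2.1 z.2.2.2).natDegree, fun i₀ j l φ => ?_⟩
    exact Finset.le_sup (f := fun z : ι × ι × Fin (T + 1) × (Fin (k + 1) → Fin c → ι) =>
      (b z.1 z.2.1 z.2.2.1 z.2.2.2).natDegree) (Finset.mem_univ (i₀, j, l, φ))
  obtain ⟨W, Y₂, hprime⟩ := exists_good_prime (K := K) x₀ ρ k a
  obtain ⟨Y₀, hY₀⟩ := finite_bad_primes (K := K)
    (B ∪ {v | v ∈ nonarchAbsVal (K := K) ∧ 1 < v x₀}) (hB.union (finite_bad x₀))
  obtain ⟨N₁, hN₁⟩ := exists_no_root x₀ ρ hρ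
  set C₅ : ℕ := ⌈((s.factorial : ℝ) ^ w * (4 * 2 ^ a) ^ (A * (c * (k + 1)) * s))⌉₊ with hC₅
  set M₀ := W + 1 with hM₀
  set Y₁ := Y₀ + Y₂ + C₅ + 1 with hY₁
  have hpl : ∀ p : ℕ, ∃ (v : AbsoluteValue K ℝ) (q : ℕ) (cls : K → ℕ), p.Prime →
      v ∈ nonarchAbsVal (K := K) ∧ v (p : K) < 1 ∧ p ≤ q ∧ q ≤ p ^ m ∧
      (∀ a : K, v a < 1 → v a ≤ 1 / (q : ℝ)) ∧ (∀ a, cls a < q) ∧
      ∀ a b, v a ≤ 1 → v b ≤ 1 → cls a = cls b → v (a - b) < 1 := by
    intro p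
    by_cases hp : p.Prime
    · obtain ⟨v, hv, hvp, q, hq1, hq2, hq3, cls, hcls⟩ := exists_place K p hp
      refine ⟨v, q, fun a => cls a, fun _ => ⟨hv, hvp, hq1, hq2, hq3, fun a => (cls a).2, ?_⟩⟩
      intro a b ha hb hab
      exact hcls a b ha hb (Fin.ext hab)
    · exact ⟨AbsoluteValue.trivial, 0, fun _ => 0, fun h => absurd h hp⟩
  choose v q cls hv using hpl
  refine ⟨T, ρ'.natDegree + T * E, (M₀ * Fintype.card ι) ^ 4 * 2 ^ (M₀ * a),
    Y₁ ^ a + N₁ + k + 1, fun N hN => ?_⟩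
  obtain ⟨Y, hY1, hYN, hNY⟩ := exists_root a Y₁ N ha1 (by omega) (by omega)
  obtain ⟨sp, hspc, hsp⟩ := exists_primes Y M₀ (by omega)
  set Q := (2 ^ M₀ * Y) ^ m with hQ
  have hbad : ∀ p ∈ sp, v p ∉ B ∧ v p x₀ ≤ 1 := by
    intro p hp
    obtain ⟨hpp, hYp, -⟩ := hsp p hp
    obtain ⟨hv1, hv2, -⟩ := hv p hpp
    have h1 := hY₀ p hpp (by omega) (v p) hv1 hv2
    simp only [Set.mem_union, not_or] at h1
    refine ⟨h1.1, ?_⟩
    by_contra hlt
    exact h1.2 ⟨hv1, not_le.mp hlt⟩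
  have hQle : ∀ p ∈ sp, q p ≤ Q := by
    intro p hp
    obtain ⟨hpp, hYp, hpY⟩ := hsp p hp
    obtain ⟨-, -, -, hq2, -⟩ := hv p hpp
    exact hq2.trans (Nat.pow_le_pow_left hpY m)
  let I := {p // p ∈ sp} × Fin Q × ι × (ι → Fin Q)
  let SS : I → Set ℕ := fun κ => {n | N ≤ n ∧ n < 2 * N ∧
    (∀ l < k, v κ.1 (ρ.eval (x₀ + ((n + l : ℕ) : K))) = 1) ∧
    cls κ.1 (x₀ + (n : K)) = κ.2.1 ∧ y n κ.2.2.1 ≠ 0 ∧
    (∀ j, v κ.1 (y n j / y n κ.2.2.1) ≤ 1) ∧
    ∀ j, cls κ.1 (y n j / y n κ.2.2.1) = κ.2.2.2 j}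
  have hclass : ∀ (κ : I) (j : ι), ∃ g : Polynomial K[X], g ≠ 0 ∧ g.natDegree ≤ T ∧
      (∀ i, (g.coeff i).natDegree ≤ ρ'.natDegree + T * E) ∧
      ∀ n ∈ SS κ, ((g.map (evalRingHom (x₀ + (n : K)))).eval
        (y n j / y n κ.2.2.1)) = 0 := by
    rintro ⟨⟨p, hp⟩, ξ, i₀, η⟩ j
    obtain ⟨hpp, hYp, hpY⟩ := hsp p hp
    obtain ⟨hv1, hv2, hq1, hq2, hq3, hcl, hcls⟩ := hv p hpp
    obtain ⟨hg1, hg2, hg3⟩ := hgood (v p) hv1 (hbad p hp).1
    have hna : IsNonarchimedean (v p) := isNonarchimedean _ hv1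
    have hint : ∀ n : ℕ, v p (x₀ + (n : K)) ≤ 1 := by
      intro n
      have : x₀ + (n : K) ∈ intRing (v p) hna :=
        (intRing (v p) hna).add_mem (hbad p hp).2 (natCast_mem (intRing (v p) hna) n)
      exact this
    refine class_g d P hP.hom x₀ y hy c k s t T E ρ (v p) hv1 (q p) (by omega) hq3 hg1
      (hbad p hp).2 hg3 (SS ⟨⟨p, hp⟩, ξ, i₀, η⟩) i₀ j ((4 * (2 * (Y : ℝ)) ^ a) ^ A)
      ?_ ?_ ?_ ?_ ?_ ?_ ?_ hs0 hsT ρ' hρ' (b i₀ j) (hb i₀ j) (hE i₀ j)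
    · intro n hn
      exact hn.2.2.1
    · intro n hn
      exact hn.2.2.2.2.1
    · intro n hn
      exact hn.2.2.2.2.2.1
    · intro n hn n' hn'
      exact hcls _ _ (hint n) (hint n') (hn.2.2.2.1.trans hn'.2.2.2.1.symm)
    · intro n hn n' hn' i
      exact hcls _ _ (hn.2.2.2.2.2.1 i) (hn'.2.2.2.2.2.1 i)
        ((hn.2.2.2.2.2.2 i).trans (hn'.2.2.2.2.2.2 i).symm)
    · intro n hn l hl
      refine (hA (n + l)).trans ?_
      apply pow_le_pow_left₀ (by positivity)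
      have h1 : n + l + 2 ≤ 4 * (2 * Y) ^ a := by
        have := hn.2.1
        omega
      exact_mod_cast h1
    · refine det_numeric w s t r a A c k Y (q p) hs ht (by omega) ?_ (by omega)
      have h1 : (C₅ : ℝ) < Y := by
        have : C₅ < Y := by omega
        exact_mod_cast this
      exact (Nat.le_ceil _).trans_lt h1
  choose g hg using hclass
  set e := Fintype.equivFin I with he
  refine ⟨Fintype.card I, fun κ => SS (e.symm κ), fun κ => (e.symm κ).2.2.1,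
    fun κ => g (e.symm κ), ?_, ?_, ?_, ?_, ?_⟩
  · have hcardI : Fintype.card I = M₀ * Fintype.card ι * Q ^ r := by
      simp only [I, Fintype.card_prod, Fintype.card_fin, Fintype.card_pi, Finset.prod_const,
        Finset.card_univ, Fintype.card_coe, hspc]
      rw [hr, pow_succ]
      ring
    rw [hcardI]
    calc (M₀ * Fintype.card ι * Q ^ r) ^ 4
        = (M₀ * Fintype.card ι) ^ 4 * (2 ^ (M₀ * a) * Y ^ a) := by
          have h1 : (Q ^ r) ^ 4 = 2 ^ (M₀ * a) * Y ^ a := by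
            have : m * (r * 4) = a := by rw [ha]; ring
            rw [hQ, ← pow_mul, ← pow_mul, this, mul_pow, ← pow_mul]
          rw [mul_pow (M₀ * Fintype.card ι), h1]
      _ ≤ (M₀ * Fintype.card ι) ^ 4 * (2 ^ (M₀ * a) * N) :=
          Nat.mul_le_mul_left _ (Nat.mul_le_mul_left _ hYN)
      _ = (M₀ * Fintype.card ι) ^ 4 * 2 ^ (M₀ * a) * N := by ring
  · intro n hn1 hn2
    obtain ⟨p, hp, hpn⟩ := hprime Y N (by omega) (by omega) hNY n hn1 hn2
      (fun l _ => hN₁ (n + l) (by omega)) sp v (by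
        intro p hp
        obtain ⟨hpp, hYp, hpY⟩ := hsp p hp
        obtain ⟨hv1, hv2, hq1, hq2, hq3, hcl, hcls⟩ := hv p hpp
        obtain ⟨hg1, hg2, hg3⟩ := hgood (v p) hv1 (hbad p hp).1
        have hna : IsNonarchimedean (v p) := isNonarchimedean _ hv1
        refine ⟨hpp, hYp, hv1, hv2, ?_, ?_⟩
        · intro b hb
          refine (hq3 b hb).trans ?_
          have hp0 : (0 : ℝ) < p := by exact_mod_cast hpp.pos
          exact one_div_le_one_div_of_le hp0 (by exact_mod_cast hq1)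
        · intro l _
          have h1 : x₀ + ((n + l : ℕ) : K) ∈ intRing (v p) hna :=
            (intRing (v p) hna).add_mem (hbad p hp).2 (natCast_mem (intRing (v p) hna) _)
          have h2 : ρ.eval (x₀ + ((n + l : ℕ) : K)) ∈ intRing (v p) hna := by
            rw [eval_eq_sum_range]
            exact sum_mem fun i _ => mul_mem (hg2 i) (pow_mem h1 i)
          exact h2)
      (by omega)
    obtain ⟨hpp, hYp, hpY⟩ := hsp p hp
    obtain ⟨hv1, hv2, hq1, hq2, hq3, hcl, hcls⟩ := hv p hpp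
    obtain ⟨i₀, hi₀⟩ := Finite.exists_max (fun i => v p (y n i))
    have hyi : y n i₀ ≠ 0 := by
      intro h0
      apply hy.ne n
      funext i
      have h1 := hi₀ i
      rw [h0, map_zero] at h1
      simpa using le_antisymm h1 ((v p).nonneg _)
    have hvi : 0 < v p (y n i₀) := (v p).pos hyi
    refine ⟨e ⟨⟨p, hp⟩, ⟨cls p (x₀ + (n : K)), (hcl _).trans_le (hQle p hp)⟩, i₀,
      fun j => ⟨cls p (y n j / y n i₀), (hcl _).trans_le (hQle p hp)⟩⟩, ?_⟩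
    simp only [Equiv.symm_apply_apply, SS]
    refine ⟨hn1, hn2, hpn, rfl, hyi, ?_, fun _ => rfl⟩
    intro j
    rw [map_div₀, div_le_one hvi]
    exact hi₀ j
  · intro κ n hn
    exact hn.2.2.2.2.1
  · intro κ j
    exact ⟨(hg (e.symm κ) j).1, (hg (e.symm κ) j).2.1, (hg (e.symm κ) j).2.2.1⟩
  · intro κ j n hn
    exact (hg (e.symm κ) j).2.2.2 n hn

end Pool.Agent.KST
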