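import Pool.Agent.KST.Eval


/-!
Integral coefficients of the products of iterates; forms with polynomial coefficients as
polynomials in one more variable.
-/

set_option autoImplicit false

open Polynomial

namespace Pool.Agent.KST

/-- polynomial coefficients become one more variable -/
noncomputable def toOpt {R ι : Type} [CommRing R] :
    MvPolynomial ι R[X] →+* MvPolynomial (Option ι) R :=
  MvPolynomial.eval₂Hom (Polynomial.eval₂RingHom MvPolynomial.C (MvPolynomial.X none))
    (fun i => MvPolynomial.X (some i))

theorem eval_toOpt {R ι : Type} [CommRing R] (x : R) (y : ι → R) (F : MvPolynomial ι R[X]) :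
    MvPolynomial.eval (fun o => Option.elim o x y) (toOpt F) = evx x y F := by
  have h : (MvPolynomial.eval (fun o => Option.elim o x y)).comp (toOpt (R := R) (ι := ι)) =
      evx x y := by
    apply MvPolynomial.ringHom_ext
    · intro f
      simp only [toOpt, evx, RingHom.comp_apply, MvPolynomial.coe_eval₂Hom,
        MvPolynomial.eval₂_C, coe_eval₂RingHom, coe_evalRingHom]
      rw [Polynomial.hom_eval₂]
      simp only [MvPolynomial.eval_X, Option.elim_none]
      have : (MvPolynomial.eval (fun o : Option ι => Option.elim o x y)).comp
          (MvPolynomial.C (R := R) (σ := Option ι)) = RingHom.id R := by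
        ext a; simp
      rw [this]
      rfl
    · intro i
      simp [toOpt, evx]
  exact congrArg (fun φ => φ F) h

theorem map_toOpt {R S ι : Type} [CommRing R] [CommRing S] (f : R →+* S)
    (F : MvPolynomial ι R[X]) :
    MvPolynomial.map f (toOpt F) = toOpt (MvPolynomial.map (Polynomial.mapRingHom f) F) := by
  have h : (MvPolynomial.map f).comp (toOpt (R := R) (ι := ι)) =
      (toOpt (R := S) (ι := ι)).comp (MvPolynomial.map (Polynomial.mapRingHom f)) := by
    apply MvPolynomial.ringHom_ext
    · intro g
      simp only [toOpt, RingHom.comp_apply, MvPolynomial.coe_eval₂Hom,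
        MvPolynomial.eval₂_C, coe_eval₂RingHom, MvPolynomial.map_C, coe_mapRingHom]
      rw [Polynomial.hom_eval₂, Polynomial.eval₂_map]
      simp only [MvPolynomial.map_X]
      congr 1
      ext a; simp
    · intro i
      simp [toOpt]
  exact congrArg (fun φ => φ F) h

/-- the coefficients of the products of iterates lie in the ring of the coefficients of `P` -/
theorem coeff_toOpt_gfam {K ι : Type} [Field K] (A : Subring K) (P : ι → MvPolynomial ι K[X])
    (hP : ∀ i m n, ((P i).coeff m).coeff n ∈ A) (c k : ℕ) (φ : Fin (k + 1) → Fin c → ι)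
    (m : Option ι →₀ ℕ) : (toOpt (Gfam P c k φ)).coeff m ∈ A := by
  classical
  have h1 : ∀ i, ∃ Q : MvPolynomial ι A[X],
      MvPolynomial.map (Polynomial.mapRingHom A.subtype) Q = P i := by
    intro i
    have h2 : ∀ m, ∃ q : A[X], q.map A.subtype = (P i).coeff m := by
      intro m
      have h3 : (P i).coeff m ∈ Polynomial.lifts A.subtype := by
        rw [Polynomial.lifts_iff_coeff_lifts]
        intro n
        exact ⟨⟨_, hP i m n⟩, rfl⟩
      exact (Polynomial.mem_lifts _).mp h3
    choose q hq using h2
    refine ⟨∑ m ∈ (P i).support, MvPolynomial.monomial m (q m), ?_⟩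
    rw [map_sum]
    conv_rhs => rw [(P i).as_sum]
    refine Finset.sum_congr rfl fun m _ => ?_
    rw [MvPolynomial.map_monomial, Polynomial.coe_mapRingHom, hq]
  choose Q hQ using h1
  have h2 : P = fun i => MvPolynomial.map (Polynomial.mapRingHom A.subtype) (Q i) := by
    funext i; exact (hQ i).symm
  rw [h2, ← gfam_map, ← map_toOpt, MvPolynomial.coeff_map]
  exact Subtype.mem _

/-- the subring of the integral elements for a nonarchimedean absolute value -/
def intRing {K : Type} [Field K] (v : AbsoluteValue K ℝ) (hv : IsNonarchimedean v) :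
    Subring K where
  carrier := {a | v a ≤ 1}
  mul_mem' := by
    intro a b ha hb
    simp only [Set.mem_ofPred_eq, map_mul] at *
    exact mul_le_one₀ ha (v.nonneg b) hb
  one_mem' := by simp
  add_mem' := by
    intro a b ha hb
    exact (hv a b).trans (max_le ha hb)
  zero_mem' := by simp
  neg_mem' := by
    intro a ha
    simpa using ha

theorem mem_intRing {K : Type} [Field K] (v : AbsoluteValue K ℝ) (hv : IsNonarchimedean v)
    (a : K) : a ∈ intRing v hv ↔ v a ≤ 1 := Iff.rfl

end Pool.Agent.KST
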