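import Pool.Agent.KST.CoverA
import Pool.Agent.KST.CoverB
import Pool.Agent.KST.Padic
import Pool.Agent.KST.Det

/-!
The determinant method on one residue class.
-/

set_option autoImplicit false

open Polynomial Height Height.AdmissibleAbsValues

namespace Pool.Agent.KST

theorem one_le_prod_real {α : Type} (s : Finset α) (f : α → ℝ) (h : ∀ i ∈ s, 1 ≤ f i) :
    1 ≤ ∏ i ∈ s, f i :=
  calc (1 : ℝ) = ∏ _i ∈ s, (1 : ℝ) := by simp
    _ ≤ ∏ i ∈ s, f i := Finset.prod_le_prod (fun _ _ => zero_le_one) h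

/-- a determinant of products of iterates at congruent points vanishes or is large -/
theorem class_det {K ι : Type} [Field K] [AdmissibleAbsValues K] [Fintype ι]
    (P : ι → MvPolynomial ι K[X]) (c k : ℕ) (v : AbsoluteValue K ℝ)
    (hv : v ∈ nonarchAbsVal (K := K)) (hna : IsNonarchimedean v) (θ : ℝ) (hθ0 : 0 ≤ θ)
    (hθ1 : θ ≤ 1) (hPv : ∀ i m n, v (((P i).coeff m).coeff n) ≤ 1) (s t : ℕ)
    (φ : Fin s → Fin (k + 1) → Fin c → ι) (x : Fin s → K) (y : Fin s → ι → K)
    (x' : K) (y' : ι → K) (hx' : v x' ≤ 1) (hy' : ∀ i, v (y' i) ≤ 1)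
    (hx : ∀ j, v (x j - x') ≤ θ) (hy : ∀ j i, v (y j i - y' i) ≤ θ)
    (hz : ∀ j, ∀ l ≤ k, 1 ≤ ⨆ i, v (zit P (x j) (y j) l i))
    (H : ℝ) (hH : ∀ j, ∀ l ≤ k, mulHeight (zit P (x j) (y j) l) ≤ H)
    (hdet : (Matrix.of fun j u => evx (x j) (y j) (Gfam P c k (φ u))).det ≠ 0) :
    1 ≤ (s.factorial : ℝ) ^ totalWeight K * θ ^ (t * (s - t ^ (Fintype.card ι + 1))) *
      (H ^ (c * (k + 1))) ^ s := by
  classical
  have hz0 : ∀ j, ∀ l ≤ k, zit P (x j) (y j) l ≠ 0 := by
    intro j l hl h0
    have h1 := hz j l hl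
    rw [h0] at h1
    simp only [Pi.zero_apply, map_zero] at h1
    rcases isEmpty_or_nonempty ι with h | h
    · rw [Real.iSup_of_isEmpty] at h1
      linarith
    · rw [ciSup_const] at h1
      linarith
  have hp : v (Matrix.of fun j u => evx (x j) (y j) (Gfam P c k (φ u))).det ≤
      θ ^ (t * (s - t ^ (Fintype.card ι + 1))) := by
    have h1 := padic_det v hna θ hθ0 hθ1 s (fun u => toOpt (Gfam P c k (φ u)))
      (fun u m => (mem_intRing v hna _).mp
        (coeff_toOpt_gfam (intRing v hna) P (fun i m n => hPv i m n) c k (φ u) m))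
      (fun j o => Option.elim o (x j) (y j)) (fun o => Option.elim o x' y')
      (by rintro (_ | i); exacts [hx', hy' i])
      (by rintro j (_ | i); exacts [hx j, hy j i]) t
    simp only [eval_toOpt, Fintype.card_option] at h1
    exact h1
  have hsup : ∀ j, 1 ≤ ⨆ ψ : Fin (k + 1) → Fin c → ι, v (evx (x j) (y j) (Gfam P c k ψ)) := by
    intro j
    rw [gfam_sup]
    exact one_le_prod_real _ _ fun l hl =>
      one_le_pow₀ (hz j l (Nat.lt_succ_iff.mp (Finset.mem_range.mp hl)))
  have hb : v (Matrix.of fun j u => evx (x j) (y j) (Gfam P c k (φ u))).det ≤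
      θ ^ (t * (s - t ^ (Fintype.card ι + 1))) *
        ∏ j, ⨆ ψ : Fin (k + 1) → Fin c → ι, v (evx (x j) (y j) (Gfam P c k ψ)) := by
    refine hp.trans (le_mul_of_one_le_right (by positivity) ?_)
    exact one_le_prod_real _ _ fun j _ => hsup j
  have h2 := det_bound s (fun j ψ => evx (x j) (y j) (Gfam P c k ψ)) φ v hv
    (θ ^ (t * (s - t ^ (Fintype.card ι + 1)))) (by positivity) hdet hb
  refine h2.trans ?_
  refine mul_le_mul_of_nonneg_left ?_ (by positivity)
  calc ∏ j, mulHeight (fun ψ : Fin (k + 1) → Fin c → ι => evx (x j) (y j) (Gfam P c k ψ))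
      ≤ ∏ _j : Fin s, H ^ (c * (k + 1)) := by
        refine Finset.prod_le_prod (fun j _ => (mulHeight_pos _).le) fun j _ => ?_
        rw [gfam_height P c k (x j) (y j) (hz0 j)]
        calc ∏ l ∈ Finset.range (k + 1), mulHeight (zit P (x j) (y j) l) ^ c
            ≤ ∏ _l ∈ Finset.range (k + 1), H ^ c := by
              refine Finset.prod_le_prod (fun l _ => by positivity) fun l hl => ?_
              exact pow_le_pow_left₀ (mulHeight_pos _).le
                (hH j l (Nat.lt_succ_iff.mp (Finset.mem_range.mp hl))) _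
          _ = H ^ (c * (k + 1)) := by
              rw [Finset.prod_const, Finset.card_range, ← pow_mul]
    _ = (H ^ (c * (k + 1))) ^ s := by
        rw [Finset.prod_const, Finset.card_univ, Fintype.card_fin]

/-- if all determinants vanish, all forms of the degree of the products satisfy relations of
bounded degree on the class -/
theorem class_relation {K ι S : Type} [Field K] [Fintype ι] (P : ι → MvPolynomial ι K[X])
    (c k s T E : ℕ) (x : S → K) (y : S → ι → K) (i₀ j : ι) (hy1 : ∀ n, y n i₀ = 1)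
    (hdet : ∀ (φ : Fin s → Fin (k + 1) → Fin c → ι) (n : Fin s → S),
      (Matrix.of fun j u => evx (x (n j)) (y (n j)) (Gfam P c k (φ u))).det = 0)
    (hs : s ≤ T + 1) (ρ : K[X]) (hρ : ρ ≠ 0)
    (b : Fin (T + 1) → (Fin (k + 1) → Fin c → ι) → K[X])
    (hb : ∀ l : Fin (T + 1), MvPolynomial.C ρ *
      (MvPolynomial.X i₀ ^ (T - l) * MvPolynomial.X j ^ (l : ℕ)) =
        ∑ φ, MvPolynomial.C (b l φ) * Gfam P c k φ)
    (hE : ∀ l φ, (b l φ).natDegree ≤ E) :
    ∃ g : Polynomial K[X], g ≠ 0 ∧ g.natDegree ≤ T ∧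
      (∀ i, (g.coeff i).natDegree ≤ ρ.natDegree + T * E) ∧
      ∀ n, (g.map (evalRingHom (x n))).eval (y n j) = 0 := by
  classical
  obtain ⟨κ, a, ha, hsp, hli⟩ := exists_linearIndependent' K
    (fun φ : Fin (k + 1) → Fin c → ι => fun n : S => evx (x n) (y n) (Gfam P c k φ))
  have hfin : Finite κ := Finite.of_injective a ha
  have : Fintype κ := Fintype.ofFinite κ
  have hcard : Fintype.card κ < s := by
    by_contra hge
    rw [not_lt] at hge
    obtain ⟨e⟩ : Nonempty (Fin s ↪ κ) := by
      rw [Function.Embedding.nonempty_iff_card_le]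
      simpa using hge
    obtain ⟨n, hn⟩ := exists_det_ne_zero s _ (hli.comp e e.injective)
    exact hn (hdet (fun u => a (e u)) n)
  have hcoef : ∀ φ : Fin (k + 1) → Fin c → ι, ∃ lam : κ → K, ∀ n : S,
      evx (x n) (y n) (Gfam P c k φ) = ∑ u, lam u * evx (x n) (y n) (Gfam P c k (a u)) := by
    intro φ
    have h1 : (fun n : S => evx (x n) (y n) (Gfam P c k φ)) ∈ Submodule.span K (Set.range
        ((fun φ : Fin (k + 1) → Fin c → ι => fun n : S => evx (x n) (y n) (Gfam P c k φ)) ∘
          a)) := by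
      rw [hsp]
      exact Submodule.subset_span ⟨φ, rfl⟩
    obtain ⟨lam, hlam⟩ := (Submodule.mem_span_range_iff_exists_fun K).mp h1
    refine ⟨lam, fun n => ?_⟩
    rw [← congrFun hlam n]
    simp [Finset.sum_apply]
  choose lam hlam using hcoef
  obtain ⟨co, hco, hcd, hck⟩ := exists_bounded_kernel T E (by omega)
    (fun l (u : κ) => ∑ φ, b l φ * C (lam φ u)) (by
      intro l u
      refine natDegree_sum_le_of_forall_le _ _ fun φ _ => ?_
      exact (natDegree_mul_C_le _ _).trans (hE l φ))
  refine ⟨∑ l : Fin (T + 1), C (ρ * co l) * X ^ (l : ℕ), ?_, ?_, ?_, ?_⟩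
  · intro h0
    apply hco
    funext l
    have h1 := congrArg (fun g => Polynomial.coeff g (l : ℕ)) h0
    simp only [finsetSum_coeff, coeff_C_mul_X_pow, coeff_zero] at h1
    rw [Finset.sum_eq_single l] at h1
    · simp only [if_true] at h1
      exact (mul_eq_zero.mp h1).resolve_left hρ
    · intro b _ hb
      rw [if_neg]
      intro h
      exact hb (Fin.ext h).symm
    · simp
  · refine natDegree_sum_le_of_forall_le _ _ fun l _ => ?_
    exact (natDegree_C_mul_X_pow_le _ _).trans (Nat.lt_succ_iff.mp l.2)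
  · intro i
    rw [finsetSum_coeff]
    refine natDegree_sum_le_of_forall_le _ _ fun l _ => ?_
    rw [coeff_C_mul_X_pow]
    split_ifs
    · exact natDegree_mul_le.trans (Nat.add_le_add_left (hcd l) _)
    · simp
  · intro n
    have h1 : ∀ l : Fin (T + 1), ρ.eval (x n) * y n j ^ (l : ℕ) =
        ∑ u, (∑ φ, b l φ * C (lam φ u)).eval (x n) * evx (x n) (y n) (Gfam P c k (a u)) := by
      intro l
      have h2 := congrArg (evx (x n) (y n)) (hb l)
      simp only [map_mul, map_pow, map_sum, evx_C, evx_X, hy1, one_pow, one_mul] at h2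
      rw [h2]
      simp only [eval_finsetSum, eval_mul, eval_C, Finset.sum_mul]
      rw [Finset.sum_comm]
      refine Finset.sum_congr rfl fun φ _ => ?_
      rw [hlam φ n, Finset.mul_sum]
      refine Finset.sum_congr rfl fun u _ => ?_
      ring
    simp only [Polynomial.map_sum, Polynomial.map_mul, Polynomial.map_pow, map_C, map_X,
      eval_finsetSum, eval_mul, eval_pow, eval_C, eval_X, coe_evalRingHom]
    calc ∑ l : Fin (T + 1), ρ.eval (x n) * (co l).eval (x n) * y n j ^ (l : ℕ)
        = ∑ l : Fin (T + 1), ∑ u, (co l).eval (x n) *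
          ((∑ φ, b l φ * C (lam φ u)).eval (x n) * evx (x n) (y n) (Gfam P c k (a u))) := by
          refine Finset.sum_congr rfl fun l _ => ?_
          rw [← Finset.mul_sum, ← h1 l]
          ring
      _ = ∑ u, (∑ l : Fin (T + 1), co l * ∑ φ, b l φ * C (lam φ u)).eval (x n) *
          evx (x n) (y n) (Gfam P c k (a u)) := by
          rw [Finset.sum_comm]
          refine Finset.sum_congr rfl fun u _ => ?_
          rw [eval_finsetSum, Finset.sum_mul]
          refine Finset.sum_congr rfl fun l _ => ?_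
          rw [eval_mul]
          ring
      _ = 0 := by
          refine Finset.sum_eq_zero fun u _ => ?_
          rw [hck u, eval_zero, zero_mul]

end Pool.Agent.KST
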