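import Pool.Agent.KST.Defs

/-!
Heights of values: `height_nat`, `height_eval`, `small_values`.
-/

set_option autoImplicit false

open Polynomial Height Height.AdmissibleAbsValues

namespace Pool.Agent.KST

section

variable {K : Type} [Field K] [AdmissibleAbsValues K]

theorem heightVal_natCast (n : ℕ) : mulHeight₁ (n : K) ≤ ((n : ℝ) + 1) ^ totalWeight K := by
  rcases Nat.eq_zero_or_pos n with rfl | hn
  · simp
  · have h := mulHeight₁_sum_le (K := K) (s := Finset.range n)
      (Finset.nonempty_range_iff.2 hn.ne') (fun _ => (1 : K))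
    simp only [Finset.sum_const, Finset.card_range, nsmul_eq_mul, mul_one, mulHeight₁_one,
      Finset.prod_const_one] at h
    refine h.trans ?_
    gcongr
    linarith

theorem height_nat (x₀ : K) : ∃ C : ℝ, 1 ≤ C ∧ ∀ n : ℕ,
    mulHeight₁ (x₀ + n) ≤ C * ((n : ℝ) + 1) ^ totalWeight K := by
  refine ⟨2 ^ totalWeight K * mulHeight₁ x₀, ?_, fun n => ?_⟩
  · exact one_le_mul_of_one_le_of_one_le (one_le_pow₀ (by norm_num)) (one_le_mulHeight₁ _)
  · refine (mulHeight₁_add_le x₀ n).trans ?_
    gcongr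
    exact heightVal_natCast n

theorem height_eval (ρ : K[X]) : ∃ C : ℝ, 1 ≤ C ∧ ∀ x : K,
    mulHeight₁ (ρ.eval x) ≤ C * mulHeight₁ x ^ ρ.natDegree := by
  set D := ρ.natDegree with hD
  set p : Fin 2 → MvPolynomial (Fin 2) K := ![∑ a ∈ Finset.range (D + 1),
    MvPolynomial.C (ρ.coeff a) * (MvPolynomial.X 0 ^ a * MvPolynomial.X 1 ^ (D - a)),
    MvPolynomial.X 1 ^ D] with hp
  have hom : ∀ i, (p i).IsHomogeneous D := by
    intro i
    fin_cases i
    · simp only [hp, Fin.zero_eta, Matrix.cons_val_zero]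
      refine MvPolynomial.IsHomogeneous.sum _ _ _ fun a ha => ?_
      have h1 := (MvPolynomial.isHomogeneous_X_pow (R := K) (0 : Fin 2) a).mul
        (MvPolynomial.isHomogeneous_X_pow (R := K) (1 : Fin 2) (D - a))
      have h2 := (MvPolynomial.isHomogeneous_C (Fin 2) (ρ.coeff a)).mul h1
      have h3 : 0 + (a + (D - a)) = D := by
        have := Finset.mem_range.1 ha
        omega
      rwa [h3] at h2
    · simp only [hp, Fin.mk_one, Matrix.cons_val_one, Matrix.cons_val_fin_one]
      exact MvPolynomial.isHomogeneous_X_pow (R := K) (1 : Fin 2) D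
  obtain ⟨C, hC, h⟩ := mulHeight_eval_le' hom
  refine ⟨max C 1, le_max_right _ _, fun x => ?_⟩
  have h1 := h ![x, 1]
  have h2 : (fun j => (p j).eval ![x, 1]) = ![ρ.eval x, 1] := by
    funext j
    fin_cases j
    · simp [hp, Polynomial.eval_eq_sum_range, hD]
    · simp [hp]
  rw [h2, ← mulHeight₁_eq_mulHeight, ← mulHeight₁_eq_mulHeight] at h1
  refine h1.trans ?_
  gcongr
  exact le_max_left _ _

/-- A finite product of factors at least one is bounded by the whole product. -/
theorem heightVal_prod_le {α : Type*} (f : α → ℝ) (hf : ∀ a, 1 ≤ f a)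
    (hfin : f.HasFiniteMulSupport) (s : Finset α) : ∏ a ∈ s, f a ≤ ∏ᶠ a, f a := by
  classical
  have hS : (Function.mulSupport f).Finite := hfin
  rw [finprod_eq_prod_of_mulSupport_subset f (s := hS.toFinset ∪ s) (by simp)]
  have h1 : ∏ a ∈ hS.toFinset ∪ s, f a = (∏ a ∈ (hS.toFinset ∪ s) \ s, f a) * ∏ a ∈ s, f a :=
    (Finset.prod_sdiff Finset.subset_union_right).symm
  rw [h1]
  refine le_mul_of_one_le_left (Finset.prod_nonneg fun a _ => zero_le_one.trans (hf a)) ?_
  exact Finset.one_le_prod fun a _ => hf a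

/-- only few places give a small value -/
theorem small_values (a : K) (ha : a ≠ 0) (V : Finset (AbsoluteValue K ℝ))
    (hV : ∀ v ∈ V, v ∈ nonarchAbsVal (K := K)) (Y : ℝ) (hY : 1 ≤ Y)
    (h : ∀ v ∈ V, v a * Y ≤ 1) : Y ^ V.card ≤ mulHeight₁ a := by
  classical
  rw [← mulHeight₁_inv, mulHeight₁_eq]
  have hfin : (fun v : nonarchAbsVal (K := K) => max (v.val a⁻¹) 1).HasFiniteMulSupport := by
    have h0 := hasFiniteMulSupport (K := K) (inv_ne_zero ha)
    refine h0.subset ?_
    intro v hv hv'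
    apply hv
    simp [hv']
  have h1 := heightVal_prod_le (fun v : nonarchAbsVal (K := K) => max (v.val a⁻¹) 1)
    (fun v => le_max_right _ _) hfin (V.subtype (· ∈ nonarchAbsVal (K := K)))
  have h2 : ∏ v ∈ V.subtype (· ∈ nonarchAbsVal (K := K)), max (v.val a⁻¹) 1 =
      ∏ v ∈ V, max (v a⁻¹) 1 := Finset.prod_subtype_of_mem (fun v => max (v a⁻¹) 1) hV
  have h3 : Y ^ V.card ≤ ∏ v ∈ V, max (v a⁻¹) 1 := by
    rw [← Finset.prod_const]
    refine Finset.prod_le_prod (fun v _ => zero_le_one.trans hY) fun v hv => ?_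
    refine le_max_of_le_left ?_
    rw [map_inv₀]
    have hva : 0 < v a := v.pos ha
    rw [le_inv_comm₀ (zero_lt_one.trans_le hY) hva]
    rw [← one_div, le_div_iff₀ (zero_lt_one.trans_le hY)]
    exact h v hv
  rw [h2] at h1
  refine h3.trans (h1.trans ?_)
  refine le_mul_of_one_le_left ?_ ?_
  · exact zero_le_one.trans (one_le_finprod fun v => le_max_right _ _)
  · exact Multiset.one_le_prod_map fun _ _ => le_max_right _ _

end

end Pool.Agent.KST
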