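import Pool.Agent.KST.CoverC
import Pool.Agent.KST.HeightVal
import Pool.Agent.KST.Places
import Pool.Agent.KST.Primes

/-!
Good places for the points of the orbit, and the elementary estimates.
-/

set_option autoImplicit false

open Polynomial Height Height.AdmissibleAbsValues

namespace Pool.Agent.KST

theorem exists_root (a Y₁ N : ℕ) (ha : 1 ≤ a) (hY : 1 ≤ Y₁) (hN : Y₁ ^ a ≤ N) :
    ∃ Y, Y₁ ≤ Y ∧ Y ^ a ≤ N ∧ N < (2 * Y) ^ a := by
  have h1 : Y₁ ≤ N := (Nat.le_self_pow (by omega) Y₁).trans hN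
  have h2 : (Nat.findGreatest (fun Y => Y ^ a ≤ N) N) ^ a ≤ N :=
    Nat.findGreatest_spec (P := fun Y => Y ^ a ≤ N) h1 hN
  have h3 : Y₁ ≤ Nat.findGreatest (fun Y => Y ^ a ≤ N) N := Nat.le_findGreatest h1 hN
  refine ⟨_, h3, h2, ?_⟩
  set Y := Nat.findGreatest (fun Y => Y ^ a ≤ N) N with hYdef
  have h4 : N < (Y + 1) ^ a := by
    by_contra hle
    rw [not_lt] at hle
    have h5 : Y + 1 ≤ N := (Nat.le_self_pow (by omega) (Y + 1)).trans hle
    exact Nat.findGreatest_is_greatest (P := fun Y => Y ^ a ≤ N) (Nat.lt_succ_self Y) h5 hle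
  exact h4.trans_le (Nat.pow_le_pow_left (by omega) a)

theorem exists_exp (B v : ℕ) : ∃ k : ℕ, 2 * (B * (k + 1)) ^ v ≤ 2 ^ k := by
  have h1 : Filter.Tendsto (fun n : ℕ => ((n : ℝ) ^ v / (2 : ℝ) ^ n)) Filter.atTop (nhds 0) :=
    tendsto_pow_const_div_const_pow_of_one_lt v (by norm_num)
  have hpos : (0 : ℝ) < 1 / (4 * (B : ℝ) ^ v + 1) := by positivity
  obtain ⟨n, hn, hn1⟩ := ((h1.eventually (gt_mem_nhds hpos)).and
    (Filter.eventually_ge_atTop 1)).exists
  refine ⟨n - 1, ?_⟩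
  have h2 : n - 1 + 1 = n := by omega
  rw [h2]
  have h3 : ((n : ℝ) ^ v) * (4 * (B : ℝ) ^ v + 1) < 2 ^ n := by
    rw [div_lt_div_iff₀ (by positivity) (by positivity)] at hn
    linarith
  have h4 : (4 * (B * n) ^ v : ℕ) ≤ 2 ^ n := by
    have : ((4 * (B * n) ^ v : ℕ) : ℝ) ≤ ((2 ^ n : ℕ) : ℝ) := by
      push_cast
      rw [mul_pow]
      have : (0 : ℝ) ≤ (n : ℝ) ^ v := by positivity
      nlinarith
    exact_mod_cast this
  have h5 : 2 ^ n = 2 * 2 ^ (n - 1) := by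
    rw [← pow_succ', h2]
  omega

theorem orbit_rescale {K ι : Type} [Field K] (d : ℕ) (P : ι → MvPolynomial ι K[X])
    (hP : ∀ i, (P i).IsHomogeneous d) (x₀ : K) (y : ℕ → ι → K) (hy : IsOrbit P x₀ y)
    (u : ℕ → K) (hu : ∀ n, u n ≠ 0) : IsOrbit P x₀ (fun n i => u n * y n i) := by
  constructor
  · intro n h0
    apply hy.ne n
    funext i
    have := congrFun h0 i
    exact (mul_eq_zero.mp this).resolve_left (hu n)
  · intro n
    obtain ⟨c, hc, h⟩ := hy.step n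
    refine ⟨u n ^ d * c * (u (n + 1))⁻¹,
      mul_ne_zero (mul_ne_zero (pow_ne_zero _ (hu n)) hc) (inv_ne_zero (hu _)), fun i => ?_⟩
    rw [evx_smul d (P i) (hP i), h i]
    field_simp [hu (n + 1)]

/-- enough places: at one of them the values of `ρ` are units -/
theorem exists_good_prime {K : Type} [Field K] [NumberField K] (x₀ : K) (ρ : K[X])
    (k a : ℕ) : ∃ W Y₁ : ℕ, ∀ (Y N : ℕ), Y₁ ≤ Y → k ≤ N → N < (2 * Y) ^ a →
      ∀ n, N ≤ n → n < 2 * N → (∀ l < k, ρ.eval (x₀ + ((n + l : ℕ) : K)) ≠ 0) →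
      ∀ (s : Finset ℕ) (v : ℕ → AbsoluteValue K ℝ),
        (∀ p ∈ s, p.Prime ∧ Y < p ∧ v p ∈ nonarchAbsVal (K := K) ∧ v p (p : K) < 1 ∧
          (∀ b : K, v p b < 1 → v p b ≤ 1 / (p : ℝ)) ∧
          ∀ l < k, v p (ρ.eval (x₀ + ((n + l : ℕ) : K))) ≤ 1) → W < s.card →
        ∃ p ∈ s, ∀ l < k, v p (ρ.eval (x₀ + ((n + l : ℕ) : K))) = 1 := by
  classical
  obtain ⟨C₁, hC₁, h1⟩ := height_eval (K := K) ρ
  obtain ⟨C₂, hC₂, h2⟩ := height_nat (K := K) x₀
  set w := totalWeight K with hw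
  set D := ρ.natDegree with hD
  set C₄ : ℝ := C₁ * C₂ ^ D * (4 * 2 ^ a) ^ (w * D) with hC₄
  have hC₄1 : 1 ≤ C₄ := by
    have h3 : (1 : ℝ) ≤ C₂ ^ D := one_le_pow₀ hC₂
    have h4 : (1 : ℝ) ≤ (4 * 2 ^ a) ^ (w * D) := by
      apply one_le_pow₀
      have : (1 : ℝ) ≤ 2 ^ a := one_le_pow₀ (by norm_num)
      linarith
    have h5 : (1 : ℝ) ≤ C₁ * C₂ ^ D := by nlinarith
    rw [hC₄]
    nlinarith
  refine ⟨k * (a * (w * D)), ⌈C₄⌉₊ + 1, ?_⟩
  intro Y N hY hkN hNY n hn1 hn2 hne s v hs hcard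
  have hYR : C₄ < Y := by
    have h3 : (⌈C₄⌉₊ : ℝ) + 1 ≤ Y := by exact_mod_cast hY
    have := Nat.le_ceil C₄
    linarith
  have hY1 : (1 : ℝ) ≤ Y := by linarith
  by_contra hcon
  push Not at hcon
  have h3 : s ⊆ (Finset.range k).biUnion fun l =>
      s.filter fun p => v p (ρ.eval (x₀ + ((n + l : ℕ) : K))) < 1 := by
    intro p hp
    obtain ⟨l, hl, hne1⟩ := hcon p hp
    rw [Finset.mem_biUnion]
    refine ⟨l, Finset.mem_range.mpr hl, Finset.mem_filter.mpr ⟨hp, ?_⟩⟩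
    exact lt_of_le_of_ne ((hs p hp).2.2.2.2.2 l hl) hne1
  have h4 : ∀ l ∈ Finset.range k,
      (s.filter fun p => v p (ρ.eval (x₀ + ((n + l : ℕ) : K))) < 1).card ≤ a * (w * D) := by
    intro l hl
    rw [Finset.mem_range] at hl
    set F := s.filter fun p => v p (ρ.eval (x₀ + ((n + l : ℕ) : K))) < 1 with hF
    have hinj : Set.InjOn v F := by
      intro p hp p' hp' hvv
      by_contra hpp
      have hps := (Finset.mem_filter.mp hp).1
      have hps' := (Finset.mem_filter.mp hp').1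
      have hcop : Nat.Coprime p p' := (Nat.coprime_primes (hs p hps).1 (hs p' hps').1).mpr hpp
      have hna : IsNonarchimedean (v p) := isNonarchimedean _ (hs p hps).2.2.1
      have hbez := Nat.gcd_eq_gcd_ab p p'
      rw [hcop] at hbez
      have h5 : (1 : K) = (p : K) * ((p.gcdA p' : ℤ) : K) + (p' : K) * ((p.gcdB p' : ℤ) : K) := by
        have := congrArg (fun z : ℤ => (z : K)) hbez
        push_cast at this
        exact this
      have hint : ∀ z : ℤ, v p (z : K) ≤ 1 := by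
        intro z
        have h6 : (z : K) ∈ intRing (v p) hna := intCast_mem _ z
        exact h6
      have h6 : v p (1 : K) < 1 := by
        rw [h5]
        refine lt_of_le_of_lt (hna _ _) (max_lt ?_ ?_)
        · rw [map_mul]
          exact mul_lt_one_of_nonneg_of_lt_one_left ((v p).nonneg _) (hs p hps).2.2.2.1 (hint _)
        · rw [map_mul]
          refine mul_lt_one_of_nonneg_of_lt_one_left ((v p).nonneg _) ?_ (hint _)
          rw [hvv]
          exact (hs p' hps').2.2.2.1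
      rw [map_one] at h6
      exact lt_irrefl _ h6
    have h5 := small_values (ρ.eval (x₀ + ((n + l : ℕ) : K))) (hne l hl) (F.image v)
      (by
        intro u hu
        obtain ⟨p, hp, rfl⟩ := Finset.mem_image.mp hu
        exact (hs p (Finset.mem_filter.mp hp).1).2.2.1) Y hY1
      (by
        intro u hu
        obtain ⟨p, hp, rfl⟩ := Finset.mem_image.mp hu
        obtain ⟨hps, hlt⟩ := Finset.mem_filter.mp hp
        have h6 := (hs p hps).2.2.2.2.1 _ hlt
        have hp0 : (0 : ℝ) < p := by exact_mod_cast (hs p hps).1.pos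
        have h7 : (Y : ℝ) ≤ p := by exact_mod_cast (hs p hps).2.1.le
        calc v p (ρ.eval (x₀ + ((n + l : ℕ) : K))) * Y ≤ 1 / p * p :=
              mul_le_mul h6 h7 (by positivity) (by positivity)
          _ = 1 := by field_simp)
    rw [Finset.card_image_of_injOn hinj] at h5
    have h6 : mulHeight₁ (ρ.eval (x₀ + ((n + l : ℕ) : K))) ≤ C₄ * (Y : ℝ) ^ (a * (w * D)) := by
      refine (h1 _).trans ?_
      have h7 := h2 (n + l)
      have h8 : (((n + l : ℕ) : ℝ) + 1) ≤ 4 * (2 * Y) ^ a := by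
        have h9 : n + l + 1 ≤ 4 * (2 * Y) ^ a := by
          have := hNY
          omega
        exact_mod_cast h9
      calc C₁ * mulHeight₁ (x₀ + ((n + l : ℕ) : K)) ^ D
          ≤ C₁ * (C₂ * (4 * (2 * Y) ^ a) ^ w) ^ D := by
            refine mul_le_mul_of_nonneg_left (pow_le_pow_left₀ (mulHeight₁_pos _).le ?_ _)
              (by linarith)
            refine h7.trans (mul_le_mul_of_nonneg_left ?_ (by linarith))
            exact pow_le_pow_left₀ (by positivity) h8 _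
        _ = C₄ * (Y : ℝ) ^ (a * (w * D)) := by
            rw [hC₄, mul_pow, ← pow_mul, mul_pow 2 (Y : ℝ) a, ← mul_assoc 4, mul_pow (4 * 2 ^ a),
              ← pow_mul (Y : ℝ) a]
            ring
    by_contra hlt
    rw [not_le] at hlt
    have h7 : (Y : ℝ) ^ (a * (w * D) + 1) ≤ (Y : ℝ) ^ F.card := pow_le_pow_right₀ hY1 hlt
    have h8 : (Y : ℝ) ^ (a * (w * D)) * Y ≤ C₄ * (Y : ℝ) ^ (a * (w * D)) := by
      rw [← pow_succ]
      exact h7.trans (h5.trans h6)
    have h9 : (0 : ℝ) < (Y : ℝ) ^ (a * (w * D)) := by positivity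
    nlinarith
  have h5 := (Finset.card_le_card h3).trans (Finset.card_biUnion_le_card_mul _ _ _ h4)
  rw [Finset.card_range] at h5
  omega

/-- the numerical contradiction in the determinant method -/
theorem det_numeric (w s t r a A c k Y q : ℕ) (hs : s = 2 * t ^ r)
    (ht : t = 2 * (a * (A * (c * (k + 1)))) + 2) (hY : 1 ≤ Y)
    (hYC : ((s.factorial : ℝ) ^ w * (4 * 2 ^ a) ^ (A * (c * (k + 1)) * s)) < Y) (hq : Y ≤ q) :
    (s.factorial : ℝ) ^ w * (1 / (q : ℝ)) ^ (t * (s - t ^ r)) *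
      (((4 * (2 * (Y : ℝ)) ^ a) ^ A) ^ (c * (k + 1))) ^ s < 1 := by
  have hY1 : (1 : ℝ) ≤ Y := by exact_mod_cast hY
  have hY0 : (0 : ℝ) < Y := by linarith
  have hqR : (Y : ℝ) ≤ q := by exact_mod_cast hq
  have hsub : s - t ^ r = t ^ r := by omega
  rw [hsub]
  set R := A * (c * (k + 1)) * s with hR
  have hexp : t * t ^ r = a * R + s := by
    have : a * R = (a * (A * (c * (k + 1)))) * s := by rw [hR]; ring
    rw [this, hs]
    have h2 : a * (A * (c * (k + 1))) * 2 = t - 2 := by omega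
    have h3 : a * (A * (c * (k + 1))) * (2 * t ^ r) = (t - 2) * t ^ r := by
      rw [← mul_assoc, h2]
    rw [h3]
    have h4 : 2 ≤ t := by omega
    obtain ⟨t', rfl⟩ := Nat.exists_eq_add_of_le h4
    simp only [Nat.add_sub_cancel_left]
    ring
  have h1 : (1 / (q : ℝ)) ^ (t * t ^ r) ≤ (1 / (Y : ℝ)) ^ (a * R + s) := by
    rw [hexp]
    exact pow_le_pow_left₀ (by positivity) (one_div_le_one_div_of_le hY0 hqR) _
  have h2 : (((4 * (2 * (Y : ℝ)) ^ a) ^ A) ^ (c * (k + 1))) ^ s =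
      (4 * 2 ^ a) ^ R * (Y : ℝ) ^ (a * R) := by
    rw [← pow_mul, ← pow_mul, hR, mul_pow 2 (Y : ℝ) a, ← mul_assoc 4, mul_pow (4 * 2 ^ a),
      ← pow_mul (Y : ℝ) a, mul_assoc A (c * (k + 1)) s]
  have hs1 : 1 ≤ s := by
    rw [hs]
    have : 0 < t ^ r := by
      apply Nat.pow_pos
      omega
    omega
  have h3 : (1 / (Y : ℝ)) ^ (a * R + s) * (Y : ℝ) ^ (a * R) ≤ 1 / Y := by
    rw [pow_add, mul_right_comm, ← mul_pow]
    have : (1 / (Y : ℝ)) * Y = 1 := by field_simp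
    rw [this, one_pow, one_mul]
    calc (1 / (Y : ℝ)) ^ s ≤ (1 / (Y : ℝ)) ^ 1 := by
          apply pow_le_pow_of_le_one (by positivity) _ hs1
          rw [div_le_one hY0]
          exact hY1
      _ = 1 / Y := pow_one _
  rw [h2]
  calc (s.factorial : ℝ) ^ w * (1 / (q : ℝ)) ^ (t * t ^ r) *
        ((4 * 2 ^ a) ^ R * (Y : ℝ) ^ (a * R))
      ≤ (s.factorial : ℝ) ^ w * (1 / (Y : ℝ)) ^ (a * R + s) *
        ((4 * 2 ^ a) ^ R * (Y : ℝ) ^ (a * R)) := by
        refine mul_le_mul_of_nonneg_right (mul_le_mul_of_nonneg_left h1 (by positivity))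
          (by positivity)
    _ = ((s.factorial : ℝ) ^ w * (4 * 2 ^ a) ^ R) *
        ((1 / (Y : ℝ)) ^ (a * R + s) * (Y : ℝ) ^ (a * R)) := by ring
    _ ≤ ((s.factorial : ℝ) ^ w * (4 * 2 ^ a) ^ R) * (1 / Y) :=
        mul_le_mul_of_nonneg_left h3 (by positivity)
    _ < Y * (1 / Y) := mul_lt_mul_of_pos_right hYC (by positivity)
    _ = 1 := by field_simp

end Pool.Agent.KST
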