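import Mathlib

/-!
The Kawaguchi-Silverman conjecture for skew products over a translation: definitions.

A point of `A^1 x P^r` is a pair `(x, y)` with `y` a nonzero vector; the map is
`(x, y) ↦ (x + 1, P(x; y))` with forms `P i` in the coordinates of `y` whose coefficients are
polynomials in `x`.
-/

set_option autoImplicit false

open Polynomial

namespace Pool.Agent.KST

/-- The value at `(x; y)` of a polynomial in `y` whose coefficients are polynomials in `x`. -/
noncomputable def evx {R ι : Type} [CommRing R] (x : R) (y : ι → R) :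
    MvPolynomial ι R[X] →+* R :=
  MvPolynomial.eval₂Hom (Polynomial.evalRingHom x) y

theorem evx_C {R ι : Type} [CommRing R] (x : R) (y : ι → R) (f : R[X]) :
    evx x y (MvPolynomial.C f) = f.eval x := by
  simp [evx]

theorem evx_X {R ι : Type} [CommRing R] (x : R) (y : ι → R) (i : ι) :
    evx x y (MvPolynomial.X i) = y i := by
  simp [evx]

/-- Forms `P i` of degree `d` in the coordinates of `y` which, for generic `x`, have no common
zero (Nullstellensatz form): the generic fibre map is a morphism. -/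
structure IsSkew {K ι : Type} [Field K] (d : ℕ) (P : ι → MvPolynomial ι K[X]) : Prop where
  hom : ∀ i, (P i).IsHomogeneous d
  reg : ∃ (M : ℕ) (ρ : K[X]), ρ ≠ 0 ∧
    ∀ i, MvPolynomial.C ρ * MvPolynomial.X i ^ M ∈ Ideal.span (Set.range P)

/-- The points `(x₀ + n; y n)` are a forward orbit of `(x, y) ↦ (x + 1, P(x; y))`. -/
structure IsOrbit {K ι : Type} [Field K] (P : ι → MvPolynomial ι K[X]) (x₀ : K)
    (y : ℕ → ι → K) : Prop where
  ne : ∀ n, y n ≠ 0
  step : ∀ n : ℕ, ∃ c : K, c ≠ 0 ∧ ∀ i, evx (x₀ + n) (y n) (P i) = c * y (n + 1) i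

/-- `G(X + 1; P(X; Y))`. -/
noncomputable def pull {R ι : Type} [CommRing R] (P : ι → MvPolynomial ι R[X]) :
    MvPolynomial ι R[X] →+* MvPolynomial ι R[X] :=
  MvPolynomial.eval₂Hom (MvPolynomial.C.comp (Polynomial.compRingHom (X + 1))) P

theorem evx_pull {R ι : Type} [CommRing R] (P : ι → MvPolynomial ι R[X]) (x : R) (y : ι → R)
    (G : MvPolynomial ι R[X]) :
    evx x y (pull P G) = evx (x + 1) (fun i => evx x y (P i)) G := by
  have h : (evx x y).comp (pull P) = evx (x + 1) (fun i => evx x y (P i)) := by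
    apply MvPolynomial.ringHom_ext
    · intro f
      simp [evx, pull]
    · intro i
      simp [evx, pull]
  exact congrArg (fun φ => φ G) h

/-- The representatives `z 0 = y`, `z (l + 1) = P(x + l; z l)` of the orbit of `(x; y)`. -/
noncomputable def zit {R ι : Type} [CommRing R] (P : ι → MvPolynomial ι R[X]) (x : R)
    (y : ι → R) : ℕ → ι → R
  | 0 => y
  | l + 1 => fun i => evx (x + l) (zit P x y l) (P i)

/-- The product of the monomials with indices `φ l` in the `l`-th iterates, `l ≤ k`. -/
noncomputable def Gfam {R ι : Type} [CommRing R] (P : ι → MvPolynomial ι R[X]) (c k : ℕ)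
    (φ : Fin (k + 1) → Fin c → ι) : MvPolynomial ι R[X] :=
  ∏ l : Fin (k + 1), (pull P)^[l] (∏ t : Fin c, MvPolynomial.X (φ l t))

/-- The degree of the forms `Gfam`. -/
def Tdeg (c d k : ℕ) : ℕ := c * ∑ l ∈ Finset.range (k + 1), d ^ l

/-- The element `a` is a root of a monic polynomial of degree at most `T` with coefficients of
degree at most `E`. -/
def BInt {K R : Type} [Field K] [CommRing R] (j : K[X] →+* R) (T E : ℕ) (a : R) : Prop :=
  ∃ g : Polynomial K[X], g.Monic ∧ g.natDegree ≤ T ∧ (∀ i, (g.coeff i).natDegree ≤ E) ∧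
    g.eval₂ j a = 0

/-- Integral algebraic functions of `x` with the shift `σ` and the specialisations
`φ n : x ↦ x₀ + n`. -/
structure Pkg (K : Type) [Field K] (x₀ : K) where
  R : Type
  [ring : CommRing R]
  [dom : IsDomain R]
  L : Type
  [fld : Field L]
  j : K[X] →+* R
  j_inj : Function.Injective j
  σ : R →+* R
  σ_inj : Function.Injective σ
  σ_j : ∀ f, σ (j f) = j (f.comp (X + 1))
  roots : ∀ g : Polynomial K[X], g.Monic → ∃ s : Multiset R,
    g.map j = (s.map fun a => X - C a).prod
  integral : ∀ a : R, ∃ g : Polynomial K[X], g.Monic ∧ g.eval₂ j a = 0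
  e : K →+* L
  φ : ℕ → R →+* L
  φ_j : ∀ n f, φ n (j f) = e (f.eval (x₀ + n))
  φ_succ : ∀ n, φ (n + 1) = (φ n).comp σ

attribute [instance] Pkg.ring Pkg.dom Pkg.fld

end Pool.Agent.KST
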