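import Pool.Agent.KST.Defs

/-!
From the curves containing the points of the orbit to vectors of integral algebraic functions.
-/

set_option autoImplicit false

open Polynomial

namespace Pool.Agent.KST

variable {K : Type} [Field K]

/-- every root of a specialised monic polynomial is the specialisation of a root -/
theorem exists_root_spec {x₀ : K} (pk : Pkg K x₀) (T E : ℕ) (H : Polynomial K[X])
    (hH : H.Monic) (hT : H.natDegree ≤ T) (hE : ∀ i, (H.coeff i).natDegree ≤ E) :
    ∃ s : Finset pk.R, s.card ≤ T ∧ (∀ a ∈ s, BInt pk.j T E a) ∧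
      ∀ (n : ℕ) (ζ : K), H.eval₂ (evalRingHom (x₀ + (n : K))) ζ = 0 →
        ∃ θ ∈ s, pk.φ n θ = pk.e ζ := by
  classical
  obtain ⟨s, hs⟩ := pk.roots H hH
  refine ⟨s.toFinset, ?_, ?_, ?_⟩
  · refine (Multiset.toFinset_card_le s).trans ?_
    have h1 : (H.map pk.j).natDegree = H.natDegree :=
      natDegree_map_eq_of_injective pk.j_inj H
    rw [hs, natDegree_multiset_prod_X_sub_C_eq_card] at h1
    omega
  · intro a ha
    refine ⟨H, hH, hT, hE, ?_⟩
    rw [← eval_map, hs, eval_multiset_prod]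
    apply Multiset.prod_eq_zero
    rw [Multiset.mem_map]
    exact ⟨X - C a, Multiset.mem_map_of_mem _ (Multiset.mem_toFinset.mp ha), by simp⟩
  · intro n ζ hζ
    have h1 : (pk.φ n).comp pk.j = pk.e.comp (evalRingHom (x₀ + (n : K))) := by
      ext f
      · simp [pk.φ_j]
      · simp [pk.φ_j]
    have h2 : ((H.map pk.j).map (pk.φ n)).eval (pk.e ζ) = 0 := by
      rw [Polynomial.map_map, h1, eval_map, ← Polynomial.hom_eval₂, hζ, map_zero]
    rw [hs, Polynomial.map_multiset_prod, eval_multiset_prod, Multiset.prod_eq_zero_iff] at h2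
    rw [Multiset.mem_map] at h2
    obtain ⟨q, hq, hq0⟩ := h2
    rw [Multiset.map_map, Multiset.mem_map] at hq
    obtain ⟨θ, hθ, rfl⟩ := hq
    refine ⟨θ, Multiset.mem_toFinset.mpr hθ, ?_⟩
    simp only [Function.comp_apply, Polynomial.map_sub, map_X, map_C, eval_sub, eval_X, eval_C]
      at hq0
    exact (sub_eq_zero.mp hq0).symm

/-- the vectors for one class -/
theorem exists_vectors {ι : Type} [Fintype ι] {x₀ : K} (pk : Pkg K x₀) (T E : ℕ)
    (g : ι → Polynomial K[X]) (hg0 : ∀ i, g i ≠ 0) (hgT : ∀ i, (g i).natDegree ≤ T)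
    (hgE : ∀ i l, ((g i).coeff l).natDegree ≤ E) :
    ∃ (lam : K[X]) (Z : Finset (ι → pk.R)), lam ≠ 0 ∧ lam.natDegree ≤ Fintype.card ι * E ∧
      Z.card ≤ T ^ Fintype.card ι ∧
      (∀ Υ ∈ Z, ∀ i, BInt pk.j T (E + T * E + T * (Fintype.card ι * E)) (Υ i)) ∧
      ∀ (n : ℕ) (ζ : ι → K), (∀ i, ((g i).map (evalRingHom (x₀ + (n : K)))).eval (ζ i) = 0) →
        lam.eval (x₀ + (n : K)) ≠ 0 →
        ∃ Υ ∈ Z, ∀ i, pk.φ n (Υ i) = pk.e (lam.eval (x₀ + (n : K)) * ζ i) := by
  classical
  set lam : K[X] := ∏ i, (g i).leadingCoeff with hlam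
  set μ : ι → K[X] := fun i => ∏ l ∈ Finset.univ.erase i, (g l).leadingCoeff with hμ
  have hlμ : ∀ i, lam = μ i * (g i).leadingCoeff := by
    intro i
    rw [hlam, hμ]
    exact (Finset.prod_erase_mul _ _ (Finset.mem_univ i)).symm
  have hμd : ∀ i, (μ i).natDegree ≤ Fintype.card ι * E := by
    intro i
    refine (natDegree_prod_le _ _).trans ?_
    calc ∑ l ∈ Finset.univ.erase i, ((g l).leadingCoeff).natDegree
        ≤ ∑ l ∈ Finset.univ.erase i, E := Finset.sum_le_sum fun l _ => hgE l _
      _ ≤ Fintype.card ι * E := by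
        rw [Finset.sum_const, smul_eq_mul]
        exact Nat.mul_le_mul_right _ ((Finset.card_erase_le).trans (by simp))
  have hH : ∀ i, ∃ s : Finset pk.R, s.card ≤ T ∧
      (∀ a ∈ s, BInt pk.j T (E + T * E + T * (Fintype.card ι * E)) a) ∧
      ∀ (n : ℕ) (ζ : K), ((g i).integralNormalization.scaleRoots (μ i)).eval₂
        (evalRingHom (x₀ + (n : K))) ζ = 0 → ∃ θ ∈ s, pk.φ n θ = pk.e ζ := by
    intro i
    apply exists_root_spec pk T (E + T * E + T * (Fintype.card ι * E))
    · rw [monic_scaleRoots_iff]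
      exact monic_integralNormalization (hg0 i)
    · rw [natDegree_scaleRoots, natDegree_integralNormalization]
      exact hgT i
    · intro l
      rw [coeff_scaleRoots, natDegree_integralNormalization]
      refine natDegree_mul_le.trans (add_le_add ?_ ?_)
      · rw [integralNormalization_coeff]
        split_ifs
        · simp
        · refine natDegree_mul_le.trans (add_le_add (hgE i l) ?_)
          refine natDegree_pow_le.trans ?_
          exact Nat.mul_le_mul (by have := hgT i; omega) (hgE i _)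
      · refine natDegree_pow_le.trans ?_
        exact Nat.mul_le_mul (by have := hgT i; omega) (hμd i)
  choose s hs1 hs2 hs3 using hH
  refine ⟨lam, Fintype.piFinset s, ?_, ?_, ?_, ?_, ?_⟩
  · rw [hlam, Finset.prod_ne_zero_iff]
    exact fun i _ => leadingCoeff_ne_zero.mpr (hg0 i)
  · refine (natDegree_prod_le _ _).trans ?_
    calc ∑ l, ((g l).leadingCoeff).natDegree ≤ ∑ _l : ι, E :=
          Finset.sum_le_sum fun l _ => hgE l _
      _ = Fintype.card ι * E := by simp
  · rw [Fintype.card_piFinset]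
    calc ∏ i, (s i).card ≤ ∏ _i : ι, T := Finset.prod_le_prod' fun i _ => hs1 i
      _ = T ^ Fintype.card ι := by simp
  · intro Υ hΥ i
    exact hs2 i _ (Fintype.mem_piFinset.mp hΥ i)
  · intro n ζ hζ hne
    have h1 : ∀ i, ∃ θ ∈ s i, pk.φ n θ = pk.e (lam.eval (x₀ + (n : K)) * ζ i) := by
      intro i
      apply hs3 i n
      have hlc : (g i).leadingCoeff.eval (x₀ + (n : K)) ≠ 0 := by
        intro h0
        apply hne
        rw [hlμ i, eval_mul, h0, mul_zero]
      have h2 : (g i).eval₂ (evalRingHom (x₀ + (n : K))) (ζ i) = 0 := by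
        rw [← eval_map]
        exact hζ i
      have hD : 1 ≤ (g i).natDegree := by
        by_contra hlt
        have h3 : (g i).natDegree = 0 := by omega
        rw [eq_C_of_natDegree_eq_zero h3, eval₂_C] at h2
        apply hlc
        rw [leadingCoeff, h3]
        exact h2
      have h3 := integralNormalization_eval₂_leadingCoeff_mul hD
        (evalRingHom (x₀ + (n : K))) (ζ i)
      rw [h2, mul_zero] at h3
      have h4 := scaleRoots_eval₂_eq_zero (s := μ i) (evalRingHom (x₀ + (n : K))) h3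
      rw [hlμ i, eval_mul, mul_assoc]
      exact h4
    choose θ hθ1 hθ2 using h1
    exact ⟨θ, Fintype.mem_piFinset.mpr hθ1, hθ2⟩

end Pool.Agent.KST
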