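import Pool.Agent.KST.Defs

/-!
Points lying on a vector of integral functions: the propagation along the orbit; relations
between two integral functions; counting lemmas.
-/

set_option autoImplicit false

open Polynomial

namespace Pool.Agent.KST

theorem eval₂_smul_hom {R S ι : Type} [CommRing R] [CommRing S] (n : ℕ) (F : MvPolynomial ι R)
    (hF : F.IsHomogeneous n) (f : R →+* S) (y : ι → S) (a : S) :
    MvPolynomial.eval₂ f (fun i => a * y i) F = a ^ n * MvPolynomial.eval₂ f y F := by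
  rw [MvPolynomial.eval₂_eq, MvPolynomial.eval₂_eq, Finset.mul_sum]
  refine Finset.sum_congr rfl fun m hm => ?_
  have hdeg : ∑ i ∈ m.support, m i = n := by
    have h1 := hF (MvPolynomial.mem_support_iff.1 hm)
    rw [← h1, Finsupp.weight_apply, Finsupp.sum]
    simp
  simp only [mul_pow, Finset.prod_mul_distrib]
  rw [Finset.prod_pow_eq_pow_sum, hdeg]
  ring

variable {K : Type} [Field K] {ι : Type}

/-- every form vanishing at `Υ` vanishes, specialised at `m`, at the `m`-th point -/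
def OnPt {x₀ : K} (pk : Pkg K x₀) (y : ℕ → ι → K) (m : ℕ) (Υ : ι → pk.R) : Prop :=
  ∀ (b : ℕ) (H : MvPolynomial ι pk.R), H.IsHomogeneous b → MvPolynomial.eval Υ H = 0 →
    MvPolynomial.eval₂ (pk.φ m) (fun i => pk.e (y m i)) H = 0

theorem onPt_of_spec {x₀ : K} (pk : Pkg K x₀) (y : ℕ → ι → K) (m : ℕ) (Υ : ι → pk.R) (u : K)
    (hu : u ≠ 0) (h : ∀ i, pk.φ m (Υ i) = pk.e (u * y m i)) : OnPt pk y m Υ := by
  intro b H hH h0
  have h1 : MvPolynomial.eval₂ (pk.φ m) (fun i => pk.φ m (Υ i)) H = 0 := by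
    have h2 := MvPolynomial.hom_eval₂ H (RingHom.id _) (pk.φ m) Υ
    rw [RingHom.comp_id] at h2
    rw [← h2]
    have h3 : MvPolynomial.eval₂ (RingHom.id _) Υ H = 0 := h0
    rw [h3, map_zero]
  have h2 : (fun i => pk.φ m (Υ i)) = fun i => pk.e u * pk.e (y m i) := by
    funext i
    rw [h i, map_mul]
  rw [h2, eval₂_smul_hom b H hH] at h1
  refine (mul_eq_zero.mp h1).resolve_left (pow_ne_zero _ ?_)
  exact (map_ne_zero pk.e).mpr hu

/-- the propagation -/
theorem onPt_succ {x₀ : K} (pk : Pkg K x₀) (d : ℕ) (P : ι → MvPolynomial ι K[X])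
    (hP : ∀ i, (P i).IsHomogeneous d) (y : ℕ → ι → K) (hy : IsOrbit P x₀ y) (m : ℕ)
    (Υ Υ' : ι → pk.R) (hne : Υ' ≠ 0)
    (hδ : ∀ i j, MvPolynomial.eval₂ pk.j Υ (P i) * pk.σ (Υ' j) =
      MvPolynomial.eval₂ pk.j Υ (P j) * pk.σ (Υ' i))
    (hon : OnPt pk y m Υ) : OnPt pk y (m + 1) Υ' := by
  intro b H hH h0
  obtain ⟨i₁, hi₁⟩ : ∃ i, Υ' i ≠ 0 := by
    by_contra hcon
    push Not at hcon
    exact hne (funext hcon)
  have hσ : pk.σ (Υ' i₁) ≠ 0 := by
    rw [Ne, map_eq_zero_iff pk.σ pk.σ_inj]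
    exact hi₁
  set Comp : MvPolynomial ι pk.R :=
    MvPolynomial.eval₂ (MvPolynomial.C.comp pk.σ) (fun i => MvPolynomial.map pk.j (P i)) H
    with hComp
  have hhom : Comp.IsHomogeneous (d * b) := by
    apply hH.eval₂
    · intro r
      exact MvPolynomial.isHomogeneous_C _ _
    · intro i
      exact (hP i).map _
  have h1 : MvPolynomial.eval₂ pk.σ (fun i => pk.σ (Υ' i)) H = 0 := by
    have h2 := MvPolynomial.hom_eval₂ H (RingHom.id _) pk.σ Υ'
    rw [RingHom.comp_id] at h2
    rw [← h2]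
    have h3 : MvPolynomial.eval₂ (RingHom.id _) Υ' H = 0 := h0
    rw [h3, map_zero]
  have h2 : MvPolynomial.eval₂ pk.σ (fun i => MvPolynomial.eval₂ pk.j Υ (P i)) H = 0 := by
    have h3 : pk.σ (Υ' i₁) ^ b *
        MvPolynomial.eval₂ pk.σ (fun i => MvPolynomial.eval₂ pk.j Υ (P i)) H = 0 := by
      rw [← eval₂_smul_hom b H hH]
      have h4 : (fun i => pk.σ (Υ' i₁) * MvPolynomial.eval₂ pk.j Υ (P i)) =
          fun i => MvPolynomial.eval₂ pk.j Υ (P i₁) * pk.σ (Υ' i) := by
        funext i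
        rw [mul_comm]
        exact hδ i i₁
      rw [h4, eval₂_smul_hom b H hH, h1, mul_zero]
    exact (mul_eq_zero.mp h3).resolve_left (pow_ne_zero _ hσ)
  have h3 : MvPolynomial.eval Υ Comp = 0 := by
    rw [← h2, hComp]
    rw [MvPolynomial.hom_eval₂]
    congr 1
    · ext r
      simp
    · funext i
      rw [MvPolynomial.eval_map]
  have h4 := hon (d * b) Comp hhom h3
  rw [hComp] at h4
  have h5 : MvPolynomial.eval₂ (pk.φ m) (fun i => pk.e (y m i))
      (MvPolynomial.eval₂ (MvPolynomial.C.comp pk.σ) (fun i => MvPolynomial.map pk.j (P i)) H) =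
      MvPolynomial.eval₂ (pk.φ (m + 1))
        (fun i => pk.e (evx (x₀ + (m : K)) (y m) (P i))) H := by
    have h6 := MvPolynomial.hom_eval₂ H (MvPolynomial.C.comp pk.σ)
      (MvPolynomial.eval₂Hom (pk.φ m) (fun i => pk.e (y m i)))
      (fun i => MvPolynomial.map pk.j (P i))
    rw [MvPolynomial.coe_eval₂Hom] at h6
    rw [h6]
    congr 1
    · rw [pk.φ_succ]
      ext r
      simp
    · funext i
      rw [MvPolynomial.eval₂_map, evx, MvPolynomial.coe_eval₂Hom, MvPolynomial.hom_eval₂]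
      congr 1
      ext f
      · simp [pk.φ_j]
      · simp [pk.φ_j]
  rw [h5] at h4
  obtain ⟨c, hc, hstep⟩ := hy.step m
  have h6 : (fun i => pk.e (evx (x₀ + (m : K)) (y m) (P i))) =
      fun i => pk.e c * pk.e (y (m + 1) i) := by
    funext i
    rw [hstep i, map_mul]
  rw [h6, eval₂_smul_hom b H hH] at h4
  exact (mul_eq_zero.mp h4).resolve_left (pow_ne_zero _ ((map_ne_zero pk.e).mpr hc))

/-- an integral function divides a nonzero polynomial -/
theorem exists_cofactor {x₀ : K} (pk : Pkg K x₀) (a : pk.R) (ha : a ≠ 0) :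
    ∃ (a' : pk.R) (c : K[X]), c ≠ 0 ∧ a * a' = pk.j c := by
  obtain ⟨g, hg, h0⟩ := pk.integral a
  obtain ⟨q, hq, hnd⟩ := exists_eq_pow_rootMultiplicity_mul_and_not_dvd g hg.ne_zero 0
  rw [map_zero, sub_zero] at hq hnd
  rw [hq, eval₂_mul, eval₂_X_pow] at h0
  have hq0 : q.eval₂ pk.j a = 0 := (mul_eq_zero.mp h0).resolve_left (pow_ne_zero _ ha)
  have hc : q.coeff 0 ≠ 0 := fun h => hnd (X_dvd_iff.mpr h)
  refine ⟨-(q.divX.eval₂ pk.j a), q.coeff 0, hc, ?_⟩
  have h1 : q.eval₂ pk.j a = q.divX.eval₂ pk.j a * a + pk.j (q.coeff 0) := by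
    conv_lhs => rw [← divX_mul_X_add q]
    rw [eval₂_add, eval₂_mul, eval₂_X, eval₂_C]
  rw [h1] at hq0
  linear_combination -hq0

/-- two integral functions satisfy a homogeneous relation over `K[X]` -/
theorem exists_relation {x₀ : K} (pk : Pkg K x₀) (a b : pk.R) :
    ∃ (e : ℕ) (G : MvPolynomial (Fin 2) K[X]), G ≠ 0 ∧ G.IsHomogeneous e ∧
      MvPolynomial.eval₂ pk.j ![a, b] G = 0 := by
  by_cases ha : a = 0
  · refine ⟨1, MvPolynomial.X 0, MvPolynomial.X_ne_zero 0, MvPolynomial.isHomogeneous_X _ _, ?_⟩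
    simp [ha]
  · obtain ⟨a', c, hc, hac⟩ := exists_cofactor pk a ha
    obtain ⟨q, hq, h0⟩ := pk.integral (a' * b)
    set D := q.natDegree with hD
    refine ⟨D, ∑ i ∈ Finset.range (D + 1), MvPolynomial.C (q.coeff i * c ^ i) *
      (MvPolynomial.X 1 ^ i * MvPolynomial.X 0 ^ (D - i)), ?_, ?_, ?_⟩
    · intro hz
      have h1 := congrArg (MvPolynomial.eval₂ (RingHom.id K[X]) ![0, 1]) hz
      rw [MvPolynomial.eval₂_zero, MvPolynomial.eval₂_sum] at h1
      rw [Finset.sum_eq_single D] at h1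
      · simp only [MvPolynomial.eval₂_mul, MvPolynomial.eval₂_C, MvPolynomial.eval₂_pow,
          MvPolynomial.eval₂_X, Matrix.cons_val_one, Matrix.cons_val_zero, one_pow,
          Nat.sub_self, pow_zero, mul_one, RingHom.id_apply] at h1
        have h2 : q.coeff D = 1 := hq
        rw [h2, one_mul] at h1
        exact pow_ne_zero _ hc h1
      · intro i hi hne
        have hlt : i < D := by
          have := Finset.mem_range.mp hi
          omega
        simp only [MvPolynomial.eval₂_mul, MvPolynomial.eval₂_C, MvPolynomial.eval₂_pow,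
          MvPolynomial.eval₂_X, Matrix.cons_val_one, Matrix.cons_val_zero]
        rw [zero_pow (by omega : D - i ≠ 0)]
        ring
      · intro hn
        exact absurd (Finset.self_mem_range_succ D) hn
    · apply MvPolynomial.IsHomogeneous.sum
      intro i hi
      have hle : i ≤ D := Nat.lt_succ_iff.mp (Finset.mem_range.mp hi)
      have h1 := (MvPolynomial.isHomogeneous_C (Fin 2) (q.coeff i * c ^ i)).mul
        (((MvPolynomial.isHomogeneous_X K[X] (1 : Fin 2)).pow i).mul
          ((MvPolynomial.isHomogeneous_X K[X] (0 : Fin 2)).pow (D - i)))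
      have h2 : 0 + (1 * i + 1 * (D - i)) = D := by omega
      rwa [h2] at h1
    · rw [MvPolynomial.eval₂_sum]
      have h1 : ∀ i ∈ Finset.range (D + 1), MvPolynomial.eval₂ pk.j ![a, b]
          (MvPolynomial.C (q.coeff i * c ^ i) *
            (MvPolynomial.X 1 ^ i * MvPolynomial.X 0 ^ (D - i))) =
          a ^ D * (pk.j (q.coeff i) * (a' * b) ^ i) := by
        intro i hi
        have hle : i ≤ D := Nat.lt_succ_iff.mp (Finset.mem_range.mp hi)
        simp only [MvPolynomial.eval₂_mul, MvPolynomial.eval₂_C, MvPolynomial.eval₂_pow,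
          MvPolynomial.eval₂_X, Matrix.cons_val_one, Matrix.cons_val_zero, map_mul, map_pow,
          ← hac]
        have h2 : a ^ D = a ^ i * a ^ (D - i) := by
          rw [← pow_add]
          congr 1
          omega
        rw [h2]
        ring
      rw [Finset.sum_congr rfl h1, ← Finset.mul_sum]
      rw [eval₂_eq_sum_range] at h0
      rw [h0, mul_zero]

/-- a polynomial vanishes at few of the points `x₀ + n` -/
theorem card_zeros [CharZero K] (x₀ : K) (c : K[X]) (hc : c ≠ 0) (s : Finset ℕ)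
    [DecidablePred fun n : ℕ => c.eval (x₀ + (n : K)) = 0] :
    (s.filter fun n : ℕ => c.eval (x₀ + (n : K)) = 0).card ≤ c.natDegree := by
  classical
  have hinj : Set.InjOn (fun n : ℕ => x₀ + (n : K))
      (s.filter fun n : ℕ => c.eval (x₀ + (n : K)) = 0) := by
    intro n _ n' _ h
    exact Nat.cast_injective (R := K) (add_left_cancel h)
  rw [← Finset.card_image_of_injOn hinj]
  refine le_trans (Finset.card_le_card (t := c.roots.toFinset) ?_) ?_
  · intro z hz
    obtain ⟨n, hn, rfl⟩ := Finset.mem_image.mp hz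
    rw [Multiset.mem_toFinset, mem_roots hc]
    exact (Finset.mem_filter.mp hn).2
  · exact (Multiset.toFinset_card_le _).trans (card_roots' c)

/-- a long interval without bad numbers -/
theorem exists_block (N z b : ℕ) (Bad : Finset ℕ) (hb : Bad.card ≤ b)
    (h : (b + 1) * (z + 1) ≤ N) :
    ∃ n₁, N ≤ n₁ ∧ n₁ + z < 2 * N ∧ ∀ m, n₁ ≤ m → m ≤ n₁ + z → m ∉ Bad := by
  by_contra hcon
  push Not at hcon
  have h1 : ∀ t : Fin (b + 1), ∃ m, N + t * (z + 1) ≤ m ∧ m ≤ N + t * (z + 1) + z ∧ m ∈ Bad := by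
    intro t
    apply hcon
    · omega
    · have h2 : (t : ℕ) * (z + 1) + (z + 1) ≤ (b + 1) * (z + 1) := by
        have := t.2
        nlinarith
      omega
  choose f hf1 hf2 hf3 using h1
  have hinj : Function.Injective f := by
    intro t t' htt
    have h3 := hf1 t
    have h4 := hf2 t
    have h5 := hf1 t'
    have h6 := hf2 t'
    rw [← htt] at h5 h6
    apply Fin.ext
    by_contra hne
    rcases Nat.lt_or_gt_of_ne hne with h7 | h7
    · have h8 : ((t : ℕ) + 1) * (z + 1) ≤ t' * (z + 1) := Nat.mul_le_mul_right _ h7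
      have h9 : ((t : ℕ) + 1) * (z + 1) = t * (z + 1) + (z + 1) := by ring
      omega
    · have h8 : ((t' : ℕ) + 1) * (z + 1) ≤ t * (z + 1) := Nat.mul_le_mul_right _ h7
      have h9 : ((t' : ℕ) + 1) * (z + 1) = t' * (z + 1) + (z + 1) := by ring
      omega
  have h3 : (Finset.univ.image f).card ≤ Bad.card := by
    apply Finset.card_le_card
    intro m hm
    obtain ⟨t, _, rfl⟩ := Finset.mem_image.mp hm
    exact hf3 t
  rw [Finset.card_image_of_injective _ hinj, Finset.card_univ, Fintype.card_fin] at h3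
  omega

end Pool.Agent.KST
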