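import Pool.Agent.KST.EndA
import Pool.Agent.KST.EndB
import Pool.Agent.KST.Bounded
import Pool.Agent.KST.Cover

/-!
A periodic vector of integral functions carrying the orbit.
-/

set_option autoImplicit false

open Polynomial

namespace Pool.Agent.KST

theorem block_numeric (C p q r : ℕ) : ∃ N₂ : ℕ, ∀ N, N₂ ≤ N → ∀ L : ℕ, L ^ 4 ≤ C * N →
    (L * p + (L * q) ^ 2 * r + 1) * (L * q + 1) ≤ N := by
  set D := (p + q ^ 2 * r + 1) * (q + 1) with hD
  refine ⟨D ^ 4 * 16 ^ 3 * (C + 1) ^ 3 + 1, fun N hN L hL => ?_⟩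
  have h1 : (L * p + (L * q) ^ 2 * r + 1) * (L * q + 1) ≤ D * (L + 1) ^ 3 := by
    have h2 : L * p + (L * q) ^ 2 * r + 1 ≤ (p + q ^ 2 * r + 1) * (L + 1) ^ 2 := by
      have h3 : L * p ≤ p * (L + 1) ^ 2 := by nlinarith [Nat.zero_le (p * L ^ 2), Nat.zero_le p]
      have h4 : (L * q) ^ 2 * r ≤ q ^ 2 * r * (L + 1) ^ 2 := by
        have : (L * q) ^ 2 * r = q ^ 2 * r * L ^ 2 := by ring
        rw [this]
        exact Nat.mul_le_mul_left _ (Nat.pow_le_pow_left (Nat.le_succ L) 2)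
      have h5 : 1 ≤ (L + 1) ^ 2 := Nat.one_le_pow _ _ (Nat.succ_pos L)
      have h6 : (p + q ^ 2 * r + 1) * (L + 1) ^ 2 =
          p * (L + 1) ^ 2 + q ^ 2 * r * (L + 1) ^ 2 + (L + 1) ^ 2 := by ring
      omega
    have h3 : L * q + 1 ≤ (q + 1) * (L + 1) := by nlinarith
    calc (L * p + (L * q) ^ 2 * r + 1) * (L * q + 1)
        ≤ ((p + q ^ 2 * r + 1) * (L + 1) ^ 2) * ((q + 1) * (L + 1)) := Nat.mul_le_mul h2 h3
      _ = D * (L + 1) ^ 3 := by rw [hD]; ring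
  refine h1.trans ?_
  by_contra hlt
  rw [not_le] at hlt
  have hN1 : 1 ≤ N := by omega
  have h2 : (L + 1) ^ 4 ≤ 16 * ((C + 1) * N) := by
    rcases Nat.eq_zero_or_pos L with h0 | hpos
    · subst h0
      have : 1 ≤ (C + 1) * N := Nat.one_le_iff_ne_zero.mpr (by positivity)
      simpa using by omega
    · have h3 : (L + 1) ^ 4 ≤ (2 * L) ^ 4 := Nat.pow_le_pow_left (by omega) 4
      have h4 : (2 * L) ^ 4 = 16 * L ^ 4 := by ring
      have h5 : C * N ≤ (C + 1) * N := Nat.mul_le_mul_right _ (Nat.le_succ C)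
      omega
  have h3 : N ^ 4 < (D * (L + 1) ^ 3) ^ 4 := Nat.pow_lt_pow_left hlt (by norm_num)
  have h4 : (D * (L + 1) ^ 3) ^ 4 = D ^ 4 * ((L + 1) ^ 4) ^ 3 := by ring
  have h5 : ((L + 1) ^ 4) ^ 3 ≤ (16 * ((C + 1) * N)) ^ 3 := Nat.pow_le_pow_left h2 3
  have h6 : N ^ 4 < (D ^ 4 * 16 ^ 3 * (C + 1) ^ 3) * N ^ 3 := by
    calc N ^ 4 < D ^ 4 * ((L + 1) ^ 4) ^ 3 := by rw [← h4]; exact h3
      _ ≤ D ^ 4 * (16 * ((C + 1) * N)) ^ 3 := Nat.mul_le_mul_left _ h5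
      _ = (D ^ 4 * 16 ^ 3 * (C + 1) ^ 3) * N ^ 3 := by ring
  have h7 : N ^ 4 = N * N ^ 3 := by ring
  rw [h7] at h6
  have h8 := lt_of_mul_lt_mul_right h6 (Nat.zero_le _)
  omega

/-- the obstruction to `σ Υ'` being proportional to `P(X; Υ)` -/
noncomputable def dlt {K ι : Type} [Field K] {x₀ : K} (pk : Pkg K x₀)
    (P : ι → MvPolynomial ι K[X]) (i j : ι) (Υ Υ' : ι → pk.R) : pk.R :=
  MvPolynomial.eval₂ pk.j Υ (P i) * pk.σ (Υ' j) - MvPolynomial.eval₂ pk.j Υ (P j) * pk.σ (Υ' i)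

theorem bInt_shift {K : Type} [Field K] {x₀ : K} (pk : Pkg K x₀) (T E : ℕ) (a : pk.R)
    (ha : BInt pk.j T E a) : BInt pk.j T E (pk.σ a) := by
  obtain ⟨g, hg, hT, hE, h0⟩ := ha
  refine ⟨g.map (Polynomial.compRingHom (X + 1)), hg.map _, ?_, ?_, ?_⟩
  · exact (natDegree_map_le).trans hT
  · intro i
    rw [coeff_map, coe_compRingHom]
    refine natDegree_comp_le.trans ?_
    have h1 : (X + 1 : K[X]).natDegree ≤ 1 := by
      rw [← C_1]
      exact (natDegree_X_add_C 1).le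
    calc (g.coeff i).natDegree * (X + 1 : K[X]).natDegree ≤ E * 1 :=
          Nat.mul_le_mul (hE i) h1
      _ = E := mul_one E
  · rw [eval₂_map]
    have h1 : pk.j.comp (Polynomial.compRingHom (X + 1)) = pk.σ.comp pk.j := by
      ext f
      · simp [pk.σ_j]
      · simp [pk.σ_j]
    rw [h1, ← hom_eval₂, h0, map_zero]

/-- the zeros of a nonzero obstruction are few -/
theorem dlt_zeros {K ι : Type} [Field K] [Fintype ι] {x₀ : K} (pk : Pkg K x₀)
    (P : ι → MvPolynomial ι K[X]) (T E : ℕ) : ∃ B : ℕ, ∀ (i j : ι) (Υ Υ' : ι → pk.R),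
      (∀ l, BInt pk.j T E (Υ l)) → (∀ l, BInt pk.j T E (Υ' l)) → dlt pk P i j Υ Υ' ≠ 0 →
      ∃ c : K[X], c ≠ 0 ∧ c.natDegree ≤ B ∧ ∀ n : ℕ, pk.φ n (dlt pk P i j Υ Υ') = 0 →
        c.eval (x₀ + (n : K)) = 0 := by
  classical
  set F : ι × ι → MvPolynomial (ι ⊕ ι) K[X] := fun r =>
    MvPolynomial.rename Sum.inl (P r.1) * MvPolynomial.X (Sum.inr r.2) -
      MvPolynomial.rename Sum.inl (P r.2) * MvPolynomial.X (Sum.inr r.1) with hF
  have hB := fun r : ι × ι => bounded_zero pk.j pk.j_inj (F r) T E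
  choose B hB using hB
  refine ⟨Finset.univ.sup B, fun i j Υ Υ' hΥ hΥ' hne => ?_⟩
  have h1 : MvPolynomial.eval₂ pk.j (Sum.elim Υ (fun l => pk.σ (Υ' l))) (F (i, j)) =
      dlt pk P i j Υ Υ' := by
    simp only [hF, dlt, MvPolynomial.eval₂_sub, MvPolynomial.eval₂_mul,
      MvPolynomial.eval₂_rename, MvPolynomial.eval₂_X, Sum.elim_inr, Sum.elim_comp_inl]
  obtain ⟨c, hc, hcB, hc0⟩ := hB (i, j) (Sum.elim Υ (fun l => pk.σ (Υ' l))) (by
    rintro (l | l)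
    · exact hΥ l
    · exact bInt_shift pk T E _ (hΥ' l)) (by rw [h1]; exact hne)
  refine ⟨c, hc, hcB.trans (Finset.le_sup (Finset.mem_univ _)), fun n hn => ?_⟩
  rw [← h1] at hn
  exact hc0 pk.L pk.e (x₀ + (n : K)) (pk.φ n) (fun f => pk.φ_j n f) hn

/-- a periodic sequence of vectors of integral functions carrying the orbit -/
theorem exists_periodic {K ι : Type} [Field K] [CharZero K] [Fintype ι] (d : ℕ)
    (P : ι → MvPolynomial ι K[X]) (hP : ∀ i, (P i).IsHomogeneous d) (x₀ : K) (y : ℕ → ι → K)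
    (hy : IsOrbit P x₀ y) (hc : Covered x₀ y) (pk : Pkg K x₀) :
    ∃ (n h : ℕ) (Ω : ℕ → ι → pk.R), 0 < h ∧ Ω h = Ω 0 ∧ (∀ l ≤ h, Ω l ≠ 0) ∧
      OnPt pk y n (Ω 0) ∧ ∀ l < h, ∀ i j, dlt pk P i j (Ω l) (Ω (l + 1)) = 0 := by
  classical
  obtain ⟨T, E, C, N₀, hcov⟩ := hc
  set E₂ := E + T * E + T * (Fintype.card ι * E) with hE₂
  obtain ⟨B, hB⟩ := dlt_zeros pk P T E₂
  obtain ⟨N₂, hN₂⟩ := block_numeric C (Fintype.card ι * E) (T ^ Fintype.card ι)
    (Fintype.card ι * Fintype.card ι * B)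
  obtain ⟨L, S, i₀, g, hL, hcv, hne, hg, hroot⟩ := hcov (max N₀ N₂) (le_max_left _ _)
  set N := max N₀ N₂ with hN
  have hnum := hN₂ N (le_max_right _ _) L hL
  have hvec := fun κ : Fin L => exists_vectors pk T E (g κ) (fun i => (hg κ i).1)
    (fun i => (hg κ i).2.1) (fun i => (hg κ i).2.2)
  choose lam Z hlam0 hlamd hZc hZb hZs using hvec
  set ZZ := Finset.univ.biUnion Z with hZZ
  have hZZc : ZZ.card ≤ L * T ^ Fintype.card ι := by
    have := Finset.card_biUnion_le_card_mul (Finset.univ : Finset (Fin L)) Z _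
      (fun κ _ => hZc κ)
    simpa using this
  have hZZb : ∀ Υ ∈ ZZ, ∀ i, BInt pk.j T E₂ (Υ i) := by
    intro Υ hΥ i
    obtain ⟨κ, _, hκ⟩ := Finset.mem_biUnion.mp hΥ
    exact hZb κ Υ hκ i
  set Bad1 : Finset ℕ := Finset.univ.biUnion fun κ : Fin L =>
    (Finset.Ico N (2 * N)).filter fun n : ℕ => (lam κ).eval (x₀ + (n : K)) = 0 with hBad1
  have hBad1c : Bad1.card ≤ L * (Fintype.card ι * E) := by
    have := Finset.card_biUnion_le_card_mul (Finset.univ : Finset (Fin L))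
      (fun κ : Fin L => (Finset.Ico N (2 * N)).filter fun n : ℕ =>
        (lam κ).eval (x₀ + (n : K)) = 0) (Fintype.card ι * E)
      (fun κ _ => (card_zeros x₀ (lam κ) (hlam0 κ) _).trans (hlamd κ))
    simpa using this
  have hΥ : ∀ m : ℕ, ∃ Υ : ι → pk.R, N ≤ m → m < 2 * N → m ∉ Bad1 →
      Υ ∈ ZZ ∧ Υ ≠ 0 ∧ ∃ u : K, u ≠ 0 ∧ ∀ i, pk.φ m (Υ i) = pk.e (u * y m i) := by
    intro m
    by_cases hm : N ≤ m ∧ m < 2 * N ∧ m ∉ Bad1
    · obtain ⟨hm1, hm2, hm3⟩ := hm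
      obtain ⟨κ, hκ⟩ := hcv m hm1 hm2
      have hlam : (lam κ).eval (x₀ + (m : K)) ≠ 0 := by
        intro h0
        apply hm3
        rw [hBad1, Finset.mem_biUnion]
        exact ⟨κ, Finset.mem_univ _,
          Finset.mem_filter.mpr ⟨Finset.mem_Ico.mpr ⟨hm1, hm2⟩, h0⟩⟩
      obtain ⟨Υ, hΥZ, hΥ⟩ := hZs κ m (fun i => y m i / y m (i₀ κ))
        (fun i => hroot κ i m hκ) hlam
      have hu : (lam κ).eval (x₀ + (m : K)) / y m (i₀ κ) ≠ 0 := div_ne_zero hlam (hne κ m hκ)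
      have hΥ' : ∀ i, pk.φ m (Υ i) =
          pk.e ((lam κ).eval (x₀ + (m : K)) / y m (i₀ κ) * y m i) := by
        intro i
        rw [hΥ i]
        congr 1
        ring
      refine ⟨Υ, fun _ _ _ => ⟨Finset.mem_biUnion.mpr ⟨κ, Finset.mem_univ _, hΥZ⟩, ?_,
        _, hu, hΥ'⟩⟩
      intro h0
      apply hy.ne m
      funext i
      have h1 := hΥ' i
      rw [h0, Pi.zero_apply, map_zero] at h1
      have h2 := (map_eq_zero pk.e).mp h1.symm
      exact (mul_eq_zero.mp h2).resolve_left hu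
    · exact ⟨0, fun h1 h2 h3 => absurd ⟨h1, h2, h3⟩ hm⟩
  choose Υ hΥ using hΥ
  set Bad2 : Finset ℕ := (Finset.Ico N (2 * N)).filter fun m =>
    Υ m ∈ ZZ ∧ Υ (m + 1) ∈ ZZ ∧ ∃ i j, dlt pk P i j (Υ m) (Υ (m + 1)) ≠ 0 ∧
      pk.φ m (dlt pk P i j (Υ m) (Υ (m + 1))) = 0 with hBad2
  have hBad2c : Bad2.card ≤ (L * T ^ Fintype.card ι) ^ 2 *
      (Fintype.card ι * Fintype.card ι * B) := by
    have h1 : Bad2 ⊆ (ZZ ×ˢ ZZ).biUnion fun q => (Finset.univ : Finset (ι × ι)).biUnion fun r =>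
        (Finset.Ico N (2 * N)).filter fun m => dlt pk P r.1 r.2 q.1 q.2 ≠ 0 ∧
          pk.φ m (dlt pk P r.1 r.2 q.1 q.2) = 0 := by
      intro m hm
      obtain ⟨hm1, hm2, hm3, i, j, hm4, hm5⟩ := Finset.mem_filter.mp hm
      rw [Finset.mem_biUnion]
      refine ⟨(Υ m, Υ (m + 1)), Finset.mem_product.mpr ⟨hm2, hm3⟩, ?_⟩
      rw [Finset.mem_biUnion]
      exact ⟨(i, j), Finset.mem_univ _, Finset.mem_filter.mpr ⟨hm1, hm4, hm5⟩⟩
    have h2 : ∀ q ∈ ZZ ×ˢ ZZ, ((Finset.univ : Finset (ι × ι)).biUnion fun r =>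
        (Finset.Ico N (2 * N)).filter fun m => dlt pk P r.1 r.2 q.1 q.2 ≠ 0 ∧
          pk.φ m (dlt pk P r.1 r.2 q.1 q.2) = 0).card ≤
            Fintype.card ι * Fintype.card ι * B := by
      intro q hq
      obtain ⟨hq1, hq2⟩ := Finset.mem_product.mp hq
      refine (Finset.card_biUnion_le_card_mul _ _ B ?_).trans (by simp)
      intro r _
      by_cases h0 : dlt pk P r.1 r.2 q.1 q.2 = 0
      · rw [Finset.filter_eq_empty_iff.mpr]
        · simp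
        · intro m _ hm
          exact hm.1 h0
      · obtain ⟨c, hc, hcB, hc0⟩ := hB r.1 r.2 q.1 q.2 (hZZb _ hq1) (hZZb _ hq2) h0
        refine le_trans (Finset.card_le_card (t := (Finset.Ico N (2 * N)).filter fun n : ℕ =>
          c.eval (x₀ + (n : K)) = 0) ?_) ((card_zeros x₀ c hc _).trans hcB)
        intro m hm
        obtain ⟨hm1, _, hm3⟩ := Finset.mem_filter.mp hm
        exact Finset.mem_filter.mpr ⟨hm1, hc0 m hm3⟩
    refine (Finset.card_le_card h1).trans ((Finset.card_biUnion_le_card_mul _ _ _ h2).trans ?_)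
    rw [Finset.card_product]
    refine Nat.mul_le_mul_right _ ?_
    rw [pow_two]
    exact Nat.mul_le_mul hZZc hZZc
  obtain ⟨n₁, hn1, hn2, hn3⟩ := exists_block N (L * T ^ Fintype.card ι)
    (L * (Fintype.card ι * E) + (L * T ^ Fintype.card ι) ^ 2 *
      (Fintype.card ι * Fintype.card ι * B)) (Bad1 ∪ Bad2)
    ((Finset.card_union_le _ _).trans (add_le_add hBad1c hBad2c)) hnum
  set z := L * T ^ Fintype.card ι with hz
  have hgood : ∀ m, n₁ ≤ m → m ≤ n₁ + z → Υ m ∈ ZZ ∧ Υ m ≠ 0 ∧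
      ∃ u : K, u ≠ 0 ∧ ∀ i, pk.φ m (Υ m i) = pk.e (u * y m i) := by
    intro m h1 h2
    have h3 := hn3 m h1 h2
    rw [Finset.mem_union, not_or] at h3
    exact hΥ m (by omega) (by omega) h3.1
  obtain ⟨a, ha, b, hb, hab, hΥab⟩ : ∃ a ∈ Finset.Icc n₁ (n₁ + z), ∃ b ∈ Finset.Icc n₁ (n₁ + z),
      a ≠ b ∧ Υ a = Υ b := by
    apply Finset.exists_ne_map_eq_of_card_lt_of_maps_to (t := ZZ)
    · rw [Nat.card_Icc]
      omega
    · intro m hm
      have hm' := Finset.mem_Icc.mp hm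
      exact (hgood m hm'.1 hm'.2).1
  wlog hlt : a < b generalizing a b
  · exact this b hb a ha hab.symm hΥab.symm (by omega)
  rw [Finset.mem_Icc] at ha hb
  refine ⟨a, b - a, fun l => Υ (a + l), by omega, ?_, ?_, ?_, ?_⟩
  · show Υ (a + (b - a)) = Υ (a + 0)
    rw [Nat.add_sub_cancel' hlt.le, add_zero, hΥab]
  · intro l hl
    exact (hgood (a + l) (by omega) (by omega)).2.1
  · obtain ⟨u, hu, h1⟩ := (hgood a ha.1 ha.2).2.2
    exact onPt_of_spec pk y a (Υ a) u hu h1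
  · intro l hl i j
    show dlt pk P i j (Υ (a + l)) (Υ (a + (l + 1))) = 0
    rw [← add_assoc]
    set m := a + l with hm
    obtain ⟨hm1, -, u, hu, hmu⟩ := hgood m (by omega) (by omega)
    obtain ⟨hm1', -, u', hu', hmu'⟩ := hgood (m + 1) (by omega) (by omega)
    by_contra hne0
    have h3 := hn3 m (by omega) (by omega)
    apply h3
    rw [Finset.mem_union]
    right
    rw [hBad2, Finset.mem_filter]
    refine ⟨Finset.mem_Ico.mpr ⟨by omega, by omega⟩, hm1, hm1', i, j, hne0, ?_⟩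
    obtain ⟨c, hc, hstep⟩ := hy.step m
    have h4 : ∀ i, pk.φ m (MvPolynomial.eval₂ pk.j (Υ m) (P i)) =
        pk.e (u ^ d * (c * y (m + 1) i)) := by
      intro i
      rw [MvPolynomial.hom_eval₂, ← hstep i, ← evx_smul d (P i) (hP i), evx,
        MvPolynomial.coe_eval₂Hom, MvPolynomial.hom_eval₂]
      congr 1
      · ext f
        · simp [pk.φ_j]
        · simp [pk.φ_j]
      · funext i
        exact hmu i
    have h5 : ∀ i, pk.φ m (pk.σ (Υ (m + 1) i)) = pk.e (u' * y (m + 1) i) := by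
      intro i
      rw [← hmu' i, pk.φ_succ]
      rfl
    rw [dlt, map_sub, map_mul, map_mul, h4, h4, h5, h5]
    rw [← map_mul, ← map_mul, ← map_sub]
    rw [map_eq_zero]
    ring

end Pool.Agent.KST
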