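import Pool.Agent.KST.Defs

/-!
Existence of the package: integral algebraic functions of `x` with the shift and the
specialisations `x ↦ x₀ + n`.
-/

set_option autoImplicit false

open Polynomial

namespace Pool.Agent.KST

/-- extension of an injective ring homomorphism to an algebraic extension of domains -/
private theorem pkg_lift {A B M : Type} [CommRing A] [IsDomain A] [CommRing B] [IsDomain B]
    [Algebra A B] (hAB : Function.Injective (algebraMap A B)) [Algebra.IsAlgebraic A B]
    [Field M] [IsAlgClosed M] (f : A →+* M) (hf : Function.Injective f) :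
    ∃ g : B →+* M, ∀ a, g (algebraMap A B a) = f a := by
  letI : Algebra A M := f.toAlgebra
  haveI : Module.IsTorsionFree A B := Module.isTorsionFree_iff_algebraMap_injective.2 hAB
  haveI : Module.IsTorsionFree A M := Module.isTorsionFree_iff_algebraMap_injective.2 hf
  exact ⟨(IsAlgClosed.lift : B →ₐ[A] M).toRingHom,
    fun a => AlgHom.commutes (IsAlgClosed.lift : B →ₐ[A] M) a⟩

/-- extension of a ring homomorphism with prime kernel to an integral extension -/
private theorem pkg_ext {A B M : Type} [CommRing A] [CommRing B] [IsDomain B]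
    [Algebra A B] (hAB : Function.Injective (algebraMap A B)) [Algebra.IsIntegral A B]
    [Field M] [IsAlgClosed M] (f : A →+* M) :
    ∃ g : B →+* M, ∀ a, g (algebraMap A B a) = f a := by
  haveI : (RingHom.ker f).IsPrime := RingHom.ker_isPrime f
  obtain ⟨Q, hQ, hQP⟩ := Ideal.exists_ideal_over_prime_of_isIntegral_of_isDomain (S := B)
    (RingHom.ker f) (by rw [(RingHom.injective_iff_ker_eq_bot _).1 hAB]; exact bot_le)
  haveI : IsDomain (B ⧸ Q) := Ideal.Quotient.isDomain Q
  haveI : IsDomain (A ⧸ RingHom.ker f) := Ideal.Quotient.isDomain _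
  let q : A ⧸ RingHom.ker f →+* B ⧸ Q := Ideal.quotientMap Q (algebraMap A B) (le_of_eq hQP.symm)
  have hq : Function.Injective q := Ideal.quotientMap_injective' (le_of_eq hQP)
  letI : Algebra (A ⧸ RingHom.ker f) (B ⧸ Q) := q.toAlgebra
  have hqm : ∀ a : A, q (Ideal.Quotient.mk _ a) = Ideal.Quotient.mk Q (algebraMap A B a) := by
    intro a
    exact Ideal.quotientMap_mk
  have hint : Algebra.IsIntegral (A ⧸ RingHom.ker f) (B ⧸ Q) := by
    constructor
    intro b
    obtain ⟨b, rfl⟩ := Ideal.Quotient.mk_surjective b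
    obtain ⟨p, hp, hpb⟩ := Algebra.IsIntegral.isIntegral (R := A) b
    refine ⟨p.map (Ideal.Quotient.mk (RingHom.ker f)), hp.map _, ?_⟩
    rw [Polynomial.eval₂_map]
    have h1 : (algebraMap (A ⧸ RingHom.ker f) (B ⧸ Q)).comp (Ideal.Quotient.mk (RingHom.ker f)) =
        (Ideal.Quotient.mk Q).comp (algebraMap A B) := by
      ext a
      exact hqm a
    rw [h1, ← Polynomial.hom_eval₂, hpb, map_zero]
  haveI := hint
  obtain ⟨g, hg⟩ := pkg_lift (A := A ⧸ RingHom.ker f) (B := B ⧸ Q) (M := M) hq
    (RingHom.kerLift f) (RingHom.kerLift_injective f)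
  refine ⟨g.comp (Ideal.Quotient.mk Q), fun a => ?_⟩
  have := hg (Ideal.Quotient.mk _ a)
  rw [RingHom.comp_apply, ← hqm a]
  exact this.trans (RingHom.kerLift_mk f a)

theorem exists_pkg (K : Type) [Field K] (x₀ : K) : Nonempty (Pkg K x₀) := by
  classical
  let F := FractionRing K[X]
  let Ω := AlgebraicClosure F
  have hinj : Function.Injective (algebraMap K[X] Ω) := by
    rw [IsScalarTower.algebraMap_eq K[X] F Ω]
    exact (algebraMap F Ω).injective.comp (IsFractionRing.injective K[X] F)
  let R := integralClosure K[X] Ω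
  have hRinj : Function.Injective (algebraMap K[X] R) := by
    intro a b hab
    exact hinj (congrArg (fun r : R => (r : Ω)) hab)
  -- the shift
  let τ : K[X] →+* K[X] := Polynomial.compRingHom (X + 1)
  have hτ : Function.Injective τ := by
    intro a b hab
    have h1 : (a.comp (X + 1)).comp (X - 1) = (b.comp (X + 1)).comp (X - 1) := by
      have : a.comp (X + 1) = b.comp (X + 1) := hab
      rw [this]
    simpa [Polynomial.comp_assoc] using h1
  have htm : ∃ g : Ω →+* Ω, ∀ f : K[X], g (algebraMap K[X] Ω f) = algebraMap K[X] Ω (τ f) := by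
    haveI : Algebra.IsAlgebraic K[X] Ω :=
      (IsFractionRing.comap_isAlgebraic_iff (A := K[X]) (K := F) (C := Ω)).2 inferInstance
    exact pkg_lift hinj ((algebraMap K[X] Ω).comp τ) (hinj.comp hτ)
  obtain ⟨g, hg⟩ := htm
  have hgR : ∀ a : R, g (a : Ω) ∈ R := by
    intro a
    obtain ⟨p, hp, hpa⟩ := a.2
    refine ⟨p.map τ, hp.map _, ?_⟩
    rw [Polynomial.eval₂_map]
    have h1 : (algebraMap K[X] Ω).comp τ = g.comp (algebraMap K[X] Ω) :=
      RingHom.ext fun f => (hg f).symm
    rw [h1, ← Polynomial.hom_eval₂, hpa, map_zero]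
  let σ : R →+* R := RingHom.codRestrict (g.comp (algebraMap R Ω)) R hgR
  have hσ : ∀ a : R, ((σ a : R) : Ω) = g a := fun a => rfl
  have hRint : Algebra.IsIntegral K[X] R := inferInstance
  -- the specialisation
  let L := AlgebraicClosure K
  obtain ⟨φ₀, hφ₀⟩ := pkg_ext (A := K[X]) (B := R) (M := L) hRinj
    ((algebraMap K L).comp (Polynomial.evalRingHom x₀))
  let φ : ℕ → R →+* L := fun n => Nat.rec φ₀ (fun _ f => f.comp σ) n
  have hσj : ∀ f : K[X], σ (algebraMap K[X] R f) = algebraMap K[X] R (f.comp (X + 1)) := by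
    intro f
    apply Subtype.ext
    rw [hσ]
    exact hg f
  refine ⟨{ R := R, L := L, j := algebraMap K[X] R, j_inj := hRinj, σ := σ, σ_inj := ?_,
            σ_j := hσj, roots := ?_, integral := ?_, e := algebraMap K L, φ := φ, φ_j := ?_,
            φ_succ := fun n => rfl }⟩
  · intro a b hab
    apply Subtype.ext
    exact g.injective (congrArg (fun r : R => (r : Ω)) hab)
  · intro p hp
    have hroot : ∀ a ∈ (p.map (algebraMap K[X] Ω)).roots, a ∈ R := by
      intro a ha
      refine ⟨p, hp, ?_⟩
      have := (Polynomial.mem_roots'.1 ha).2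
      rwa [Polynomial.IsRoot.def, Polynomial.eval_map] at this
    refine ⟨(p.map (algebraMap K[X] Ω)).roots.pmap (fun a h => (⟨a, h⟩ : R)) hroot, ?_⟩
    apply Polynomial.map_injective (algebraMap R Ω) Subtype.val_injective
    rw [Polynomial.map_map, ← IsScalarTower.algebraMap_eq, Polynomial.map_multiset_prod,
      Multiset.map_map]
    have h1 := (IsAlgClosed.splits (p.map (algebraMap K[X] Ω))).eq_prod_roots_of_monic
      (hp.map _)
    conv_lhs => rw [h1]
    congr 1
    rw [Multiset.map_pmap]
    have h2 : ∀ (s : Multiset Ω) (hs : ∀ a ∈ s, a ∈ R),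
        Multiset.pmap (fun a h => (Polynomial.map (algebraMap R Ω) ∘ fun a : R => X - C a)
          (⟨a, h⟩ : R)) s hs = s.map (fun a => X - C a) := by
      intro s hs
      refine (Multiset.pmap_congr (g := fun a _ => X - C a) s (H₂ := hs) ?_).trans
        (Multiset.pmap_eq_map _ _ _ _)
      intro a _ h _
      simp only [Function.comp_apply, Polynomial.map_sub, Polynomial.map_X, Polynomial.map_C]
      rfl
    exact (h2 _ _).symm
  · intro a
    exact Algebra.IsIntegral.isIntegral (R := K[X]) a
  · intro n
    induction n with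
    | zero =>
      intro f
      have h0 : φ 0 = φ₀ := rfl
      rw [h0, hφ₀]
      simp
    | succ n ih =>
      intro f
      have h1 : φ (n + 1) (algebraMap K[X] R f) = φ n (σ (algebraMap K[X] R f)) := rfl
      rw [h1, hσj, ih]
      congr 1
      rw [Polynomial.eval_comp]
      congr 1
      simp
      ring

end Pool.Agent.KST
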