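import Pool.Agent.KST.EndC
import Pool.Agent.KST.Pkg

/-!
An orbit covered by few curves of bounded degree lies in a proper closed subset: every two
coordinates satisfy a nonzero homogeneous relation over `K[X]`.
-/

set_option autoImplicit false

open Polynomial

namespace Pool.Agent.KST

theorem endgame {K ι : Type} [Field K] [CharZero K] [Fintype ι] (d : ℕ)
    (P : ι → MvPolynomial ι K[X]) (hP : ∀ i, (P i).IsHomogeneous d) (x₀ : K) (y : ℕ → ι → K)
    (hy : IsOrbit P x₀ y) (hc : Covered x₀ y) (i j : ι) :
    ∃ (e : ℕ) (G : MvPolynomial (Fin 2) K[X]), G ≠ 0 ∧ G.IsHomogeneous e ∧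
      ∀ n : ℕ, evx (x₀ + n) ![y n i, y n j] G = 0 := by
  classical
  obtain ⟨pk⟩ := exists_pkg K x₀
  obtain ⟨n, h, Ω, hh, hper, hne, hon, hδ⟩ := exists_periodic d P hP x₀ y hy hc pk
  have hall : ∀ l : ℕ, OnPt pk y (n + l) (Ω (l % h)) := by
    intro l
    induction l with
    | zero =>
      rw [Nat.zero_mod, add_zero]
      exact hon
    | succ l ih =>
      have hlt : l % h < h := Nat.mod_lt l hh
      have h1 : OnPt pk y (n + l + 1) (Ω (l % h + 1)) := by
        refine onPt_succ pk d P hP y hy (n + l) (Ω (l % h)) (Ω (l % h + 1)) (hne _ (by omega))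
          (fun i j => ?_) ih
        have h2 := hδ (l % h) hlt i j
        rw [dlt, sub_eq_zero] at h2
        exact h2
      have h2 : Ω ((l + 1) % h) = Ω (l % h + 1) := by
        rcases Nat.lt_or_ge (l % h + 1) h with h3 | h3
        · have h4 : (l + 1) % h = l % h + 1 := by
            rw [Nat.add_mod, Nat.mod_eq_of_lt (a := 1) (by omega), Nat.mod_eq_of_lt h3]
          rw [h4]
        · have h4 : l % h + 1 = h := by omega
          have h5 : (l + 1) % h = 0 := by
            have h6 : l + 1 = h * (l / h) + (l % h + 1) := by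
              have := Nat.div_add_mod l h
              omega
            rw [h6, h4, Nat.mul_add_mod, Nat.mod_self]
          rw [h5, h4, hper]
      rw [h2]
      exact h1
  have hrel := fun l : ℕ => exists_relation pk (Ω l i) (Ω l j)
  choose e G hG0 hGh hGv using hrel
  refine ⟨∑ l ∈ Finset.range h, e l + 0,
    (∏ l ∈ Finset.range h, G l) * MvPolynomial.C (∏ l ∈ Finset.range n, (X - C (x₀ + (l : K)))),
    ?_, ?_, ?_⟩
  · refine mul_ne_zero (Finset.prod_ne_zero_iff.mpr fun l _ => hG0 l) ?_
    rw [Ne, MvPolynomial.C_eq_zero, Finset.prod_eq_zero_iff]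
    rintro ⟨l, _, hl⟩
    exact X_sub_C_ne_zero _ hl
  · exact (MvPolynomial.IsHomogeneous.prod _ _ _ fun l _ => hGh l).mul
      (MvPolynomial.isHomogeneous_C _ _)
  · intro m
    rw [map_mul, map_prod, evx_C]
    rcases Nat.lt_or_ge m n with hlt | hge
    · have h1 : (∏ l ∈ Finset.range n, (X - C (x₀ + (l : K)))).eval (x₀ + (m : K)) = 0 := by
        rw [eval_prod]
        apply Finset.prod_eq_zero (Finset.mem_range.mpr hlt)
        simp
      rw [h1, mul_zero]
    · obtain ⟨l, rfl⟩ := Nat.exists_eq_add_of_le hge
      have h1 : evx (x₀ + ((n + l : ℕ) : K)) ![y (n + l) i, y (n + l) j] (G (l % h)) = 0 := by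
        have h2 := hall l (e (l % h))
          (MvPolynomial.rename ![i, j] (MvPolynomial.map pk.j (G (l % h))))
          ((hGh (l % h)).map _).rename_isHomogeneous (by
            rw [MvPolynomial.eval_rename, MvPolynomial.eval_map]
            have h3 : (Ω (l % h) ∘ ![i, j]) = ![Ω (l % h) i, Ω (l % h) j] := by
              funext t
              fin_cases t <;> rfl
            rw [h3]
            exact hGv (l % h))
        rw [MvPolynomial.eval₂_rename, MvPolynomial.eval₂_map] at h2
        have h4 : MvPolynomial.eval₂ ((pk.φ (n + l)).comp pk.j)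
            ((fun i => pk.e (y (n + l) i)) ∘ ![i, j]) (G (l % h)) =
            pk.e (evx (x₀ + ((n + l : ℕ) : K)) ![y (n + l) i, y (n + l) j] (G (l % h))) := by
          rw [evx, MvPolynomial.coe_eval₂Hom, MvPolynomial.hom_eval₂]
          congr 1
          · ext f
            · simp [pk.φ_j]
            · simp [pk.φ_j]
          · funext t
            fin_cases t <;> rfl
        rw [h4] at h2
        exact (map_eq_zero pk.e).mp h2
      rw [Finset.prod_eq_zero (Finset.mem_range.mpr (Nat.mod_lt l hh)) h1, zero_mul]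

end Pool.Agent.KST
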