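import Pool.Agent.KST.Defs

/-!
Evaluation of the products of iterates: `evx_smul`, `zit_shift`, `evx_gfam`, `gfam_map`,
`gfam_height`, `gfam_sup`, `zit_orbit`.
-/

set_option autoImplicit false

open Polynomial Height Height.AdmissibleAbsValues

namespace Pool.Agent.KST

theorem evx_smul {R ι : Type} [CommRing R] (n : ℕ) (F : MvPolynomial ι R[X])
    (hF : F.IsHomogeneous n) (x : R) (y : ι → R) (a : R) :
    evx x (fun i => a * y i) F = a ^ n * evx x y F := by
  have h : ∀ z : ι → R, evx x z F =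
      ∑ m ∈ F.support, (F.coeff m).eval x * ∏ i ∈ m.support, z i ^ m i := by
    intro z
    rw [evx, MvPolynomial.coe_eval₂Hom, MvPolynomial.eval₂_eq]
    rfl
  rw [h, h, Finset.mul_sum]
  refine Finset.sum_congr rfl fun m hm => ?_
  have hdeg : ∑ i ∈ m.support, m i = n := by
    have h1 := hF (MvPolynomial.mem_support_iff.1 hm)
    rw [← h1, Finsupp.weight_apply, Finsupp.sum]
    simp
  simp only [mul_pow, Finset.prod_mul_distrib]
  rw [Finset.prod_pow_eq_pow_sum, hdeg]
  ring

theorem zit_shift {R ι : Type} [CommRing R] (P : ι → MvPolynomial ι R[X]) (x : R) (y : ι → R)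
    (l : ℕ) : zit P x y (l + 1) = zit P (x + 1) (fun i => evx x y (P i)) l := by
  induction l with
  | zero =>
    funext i
    simp [zit]
  | succ l ih =>
    funext i
    have h : x + ((l + 1 : ℕ) : R) = x + 1 + (l : R) := by
      push_cast
      ring
    rw [zit, ih, zit, h]

theorem evx_iterate {R ι : Type} [CommRing R] (P : ι → MvPolynomial ι R[X]) (l : ℕ) :
    ∀ (x : R) (y : ι → R) (F : MvPolynomial ι R[X]),
      evx x y ((pull P)^[l] F) = evx (x + l) (zit P x y l) F := by
  induction l with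
  | zero =>
    intro x y F
    simp [zit]
  | succ l ih =>
    intro x y F
    have h : x + ((l + 1 : ℕ) : R) = x + 1 + (l : R) := by
      push_cast
      ring
    rw [Function.iterate_succ_apply', evx_pull, ih, zit_shift, h]

theorem evx_gfam {R ι : Type} [CommRing R] (P : ι → MvPolynomial ι R[X]) (c k : ℕ)
    (φ : Fin (k + 1) → Fin c → ι) (x : R) (y : ι → R) :
    evx x y (Gfam P c k φ) = ∏ l : Fin (k + 1), ∏ t : Fin c, zit P x y l (φ l t) := by
  rw [Gfam, map_prod]
  refine Finset.prod_congr rfl fun l _ => ?_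
  rw [evx_iterate, map_prod]
  refine Finset.prod_congr rfl fun t _ => ?_
  rw [evx_X]

theorem pull_map {R S ι : Type} [CommRing R] [CommRing S] (f : R →+* S)
    (P : ι → MvPolynomial ι R[X]) (G : MvPolynomial ι R[X]) :
    MvPolynomial.map (Polynomial.mapRingHom f) (pull P G) =
      pull (fun i => MvPolynomial.map (Polynomial.mapRingHom f) (P i))
        (MvPolynomial.map (Polynomial.mapRingHom f) G) := by
  have h : (MvPolynomial.map (Polynomial.mapRingHom f)).comp (pull P) =
      (pull (fun i => MvPolynomial.map (Polynomial.mapRingHom f) (P i))).comp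
        (MvPolynomial.map (Polynomial.mapRingHom f)) := by
    apply MvPolynomial.ringHom_ext
    · intro g
      simp [pull, Polynomial.map_comp]
    · intro i
      simp [pull]
  exact congrArg (fun φ => φ G) h

theorem gfam_map {R S ι : Type} [CommRing R] [CommRing S] (f : R →+* S)
    (P : ι → MvPolynomial ι R[X]) (c k : ℕ) (φ : Fin (k + 1) → Fin c → ι) :
    MvPolynomial.map (Polynomial.mapRingHom f) (Gfam P c k φ) =
      Gfam (fun i => MvPolynomial.map (Polynomial.mapRingHom f) (P i)) c k φ := by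
  have hit : ∀ (l : ℕ) (F : MvPolynomial ι R[X]),
      MvPolynomial.map (Polynomial.mapRingHom f) ((pull P)^[l] F) =
        (pull (fun i => MvPolynomial.map (Polynomial.mapRingHom f) (P i)))^[l]
          (MvPolynomial.map (Polynomial.mapRingHom f) F) := by
    intro l
    induction l with
    | zero =>
      intro F
      rfl
    | succ l ih =>
      intro F
      rw [Function.iterate_succ_apply', pull_map, ih, Function.iterate_succ_apply']
  rw [Gfam, Gfam, map_prod]
  refine Finset.prod_congr rfl fun l _ => ?_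
  rw [hit, map_prod]
  congr 1
  refine Finset.prod_congr rfl fun t _ => ?_
  rw [MvPolynomial.map_X]

theorem gfam_height {K ι : Type} [Field K] [AdmissibleAbsValues K] [Finite ι]
    (P : ι → MvPolynomial ι K[X]) (c k : ℕ) (x : K) (y : ι → K)
    (hz : ∀ l, l ≤ k → zit P x y l ≠ 0) :
    mulHeight (fun φ : Fin (k + 1) → Fin c → ι => evx x y (Gfam P c k φ)) =
      ∏ l ∈ Finset.range (k + 1), mulHeight (zit P x y l) ^ c := by
  simp only [evx_gfam]
  have hne : ∀ l : Fin (k + 1), (fun ψ : Fin c → ι => ∏ t : Fin c, zit P x y l (ψ t)) ≠ 0 := by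
    intro l
    obtain ⟨i, hi⟩ := Function.ne_iff.1 (hz l (Nat.lt_succ_iff.1 l.2))
    refine Function.ne_iff.2 ⟨fun _ => i, ?_⟩
    exact Finset.prod_ne_zero_iff.2 fun _ _ => hi
  have h1 := mulHeight_fun_prod_eq (K := K) (α := Fin (k + 1)) (ι := fun _ => Fin c → ι)
    (x := fun l ψ => ∏ t : Fin c, zit P x y l (ψ t)) hne
  rw [h1, Finset.prod_range (fun l => mulHeight (zit P x y l) ^ c)]
  refine Finset.prod_congr rfl fun l _ => ?_
  have h2 := mulHeight_fun_prod_eq (K := K) (α := Fin c) (ι := fun _ => ι)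
    (x := fun _ => zit P x y l) (fun _ => hz l (Nat.lt_succ_iff.1 l.2))
  rw [h2, Finset.prod_const, Finset.card_univ, Fintype.card_fin]

theorem gfam_sup {K ι : Type} [Field K] [Finite ι] (v : AbsoluteValue K ℝ)
    (P : ι → MvPolynomial ι K[X]) (c k : ℕ) (x : K) (y : ι → K) :
    ⨆ φ : Fin (k + 1) → Fin c → ι, v (evx x y (Gfam P c k φ)) =
      ∏ l ∈ Finset.range (k + 1), (⨆ i, v (zit P x y l i)) ^ c := by
  simp only [evx_gfam, map_prod]
  have h1 := Real.iSup_prod_eq_prod_iSup_of_nonneg (α := Fin (k + 1))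
    (ι := fun _ => Fin c → ι) (f := fun l ψ => ∏ t : Fin c, v (zit P x y l (ψ t)))
    (fun _ _ => Finset.prod_nonneg fun _ _ => v.nonneg _)
  rw [h1, Finset.prod_range (fun l => (⨆ i, v (zit P x y l i)) ^ c)]
  refine Finset.prod_congr rfl fun l _ => ?_
  have h2 := Real.iSup_prod_eq_prod_iSup_of_nonneg (α := Fin c)
    (ι := fun _ => ι) (f := fun _ i => v (zit P x y l i)) (fun _ _ => v.nonneg _)
  rw [h2, Finset.prod_const, Finset.card_univ, Fintype.card_fin]

theorem zit_orbit {K ι : Type} [Field K] (d : ℕ) (P : ι → MvPolynomial ι K[X])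
    (hP : ∀ i, (P i).IsHomogeneous d) (x₀ : K) (y : ℕ → ι → K) (hy : IsOrbit P x₀ y) (n l : ℕ) :
    ∃ a : K, a ≠ 0 ∧ zit P (x₀ + n) (y n) l = a • y (n + l) := by
  induction l with
  | zero => exact ⟨1, one_ne_zero, by simp [zit]⟩
  | succ l ih =>
    obtain ⟨a, ha, h⟩ := ih
    obtain ⟨b, hb, hs⟩ := hy.step (n + l)
    refine ⟨a ^ d * b, mul_ne_zero (pow_ne_zero _ ha) hb, ?_⟩
    funext i
    have h1 : zit P (x₀ + n) (y n) (l + 1) i =
        evx (x₀ + n + l) (zit P (x₀ + n) (y n) l) (P i) := rfl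
    have h2 : (a • y (n + l) : ι → K) = fun i => a * y (n + l) i := rfl
    have h3 : x₀ + (n : K) + (l : K) = x₀ + ((n + l : ℕ) : K) := by
      push_cast
      ring
    rw [h1, h, h2, evx_smul d (P i) (hP i), h3, hs i]
    simp only [Pi.smul_apply, smul_eq_mul, ← add_assoc]
    ring

end Pool.Agent.KST
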