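import Pool.Agent.KST.Defs

/-!
Growth of real sequences with `h (n + 1) = d h n + O(log n)` (KST-3).
-/

set_option autoImplicit false

open Filter Topology

namespace Pool.Agent.KST

theorem growth_aux_log (n : ℕ) :
    Real.log (((n + 1 : ℕ) : ℝ) + 2) ≤ Real.log ((n : ℝ) + 2) + 1 / 2 := by
  have h0 : (0 : ℝ) < (n : ℝ) + 2 := by positivity
  have h1 : ((n + 1 : ℕ) : ℝ) + 2 = ((n : ℝ) + 2) * (1 + 1 / ((n : ℝ) + 2)) := by
    field_simp
    push_cast
    ring
  have h2 : (0 : ℝ) < 1 + 1 / ((n : ℝ) + 2) := by positivity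
  rw [h1, Real.log_mul h0.ne' h2.ne']
  have h3 := Real.log_le_sub_one_of_pos h2
  have h4 : 1 / ((n : ℝ) + 2) ≤ 1 / 2 := by
    apply one_div_le_one_div_of_le (by norm_num)
    have : (0 : ℝ) ≤ n := Nat.cast_nonneg n
    linarith
  linarith

theorem growth_aux_log_two (n : ℕ) : 1 / 2 ≤ Real.log ((n : ℝ) + 2) := by
  have h1 : Real.log 2 ≤ Real.log ((n : ℝ) + 2) := by
    apply Real.log_le_log (by norm_num)
    have : (0 : ℝ) ≤ n := Nat.cast_nonneg n
    linarith
  have h2 := Real.log_two_gt_d9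
  linarith

theorem growth (d : ℝ) (hd : 1 < d) (h : ℕ → ℝ) (h0 : ∀ n, 0 ≤ h n) (C : ℝ) (n₁ : ℕ)
    (hC : ∀ n, n₁ ≤ n → |h (n + 1) - d * h n| ≤ C * Real.log ((n : ℝ) + 2)) :
    (∃ C' : ℝ, ∀ n, h n ≤ C' * Real.log ((n : ℝ) + 2)) ∨
    ∃ (a b : ℝ) (n₂ : ℕ), 0 < a ∧ ∀ n, n₂ ≤ n → a * d ^ n ≤ h n ∧ h n ≤ b * d ^ n := by
  have hd0 : (0 : ℝ) < d - 1 := by linarith
  have hdp : (0 : ℝ) < d := by linarith
  obtain ⟨α, hα⟩ : ∃ α : ℝ, α = |C| / (d - 1) := ⟨_, rfl⟩
  obtain ⟨β, hβ⟩ : ∃ β : ℝ, β = α / (2 * (d - 1)) := ⟨_, rfl⟩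
  have hα0 : 0 ≤ α := by rw [hα]; positivity
  have hβ0 : 0 ≤ β := by rw [hβ]; positivity
  have hα1 : α * (d - 1) = |C| := by rw [hα]; field_simp
  have hβ1 : β * (d - 1) = α / 2 := by rw [hβ]; field_simp
  -- the barrier
  obtain ⟨ψ, hψ⟩ : ∃ ψ : ℕ → ℝ, ψ = fun n : ℕ => α * Real.log ((n : ℝ) + 2) + β := ⟨_, rfl⟩
  have hψ0 : ∀ n, 0 ≤ ψ n := by
    intro n
    rw [hψ]
    have := growth_aux_log_two n
    have h2 : 0 ≤ Real.log ((n : ℝ) + 2) := by linarith
    positivity
  have hψ1 : ∀ n, ψ (n + 1) + C * Real.log ((n : ℝ) + 2) ≤ d * ψ n := by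
    intro n
    have h1 := growth_aux_log n
    have h2 := growth_aux_log_two n
    have h3 : C * Real.log ((n : ℝ) + 2) ≤ |C| * Real.log ((n : ℝ) + 2) :=
      mul_le_mul_of_nonneg_right (le_abs_self C) (by linarith)
    have h4 : α * Real.log (((n + 1 : ℕ) : ℝ) + 2) ≤ α * (Real.log ((n : ℝ) + 2) + 1 / 2) :=
      mul_le_mul_of_nonneg_left h1 hα0
    rw [← hα1] at h3
    rw [hψ]
    simp only
    nlinarith
  have hlow : ∀ n, n₁ ≤ n → d * (h n - ψ n) ≤ h (n + 1) - ψ (n + 1) := by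
    intro n hn
    have h1 := (abs_le.1 (hC n hn)).1
    have h2 := hψ1 n
    linarith
  have hupp : ∀ n, n₁ ≤ n → h (n + 1) + ψ (n + 1) ≤ d * (h n + ψ n) := by
    intro n hn
    have h1 := (abs_le.1 (hC n hn)).2
    have h2 := hψ1 n
    linarith
  by_cases hcase : ∀ n, n₁ ≤ n → h n ≤ ψ n
  · left
    have hS : 0 ≤ ∑ k ∈ Finset.range n₁, h k := Finset.sum_nonneg fun k _ => h0 k
    refine ⟨2 * (∑ k ∈ Finset.range n₁, h k) + (α + 2 * β), fun n => ?_⟩
    have hl := growth_aux_log_two n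
    rcases lt_or_ge n n₁ with hn | hn
    · have h1 : h n ≤ ∑ k ∈ Finset.range n₁, h k :=
        Finset.single_le_sum (fun k _ => h0 k) (Finset.mem_range.2 hn)
      have h2 : (∑ k ∈ Finset.range n₁, h k) * (1 / 2) ≤
          (∑ k ∈ Finset.range n₁, h k) * Real.log ((n : ℝ) + 2) :=
        mul_le_mul_of_nonneg_left hl hS
      have h3 : 0 ≤ (α + 2 * β) * Real.log ((n : ℝ) + 2) := by
        apply mul_nonneg <;> linarith
      nlinarith
    · have h1 := hcase n hn
      rw [hψ] at h1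
      simp only at h1
      have h2 : β * (1 / 2) ≤ β * Real.log ((n : ℝ) + 2) := mul_le_mul_of_nonneg_left hl hβ0
      have h3 : 0 ≤ (∑ k ∈ Finset.range n₁, h k) * Real.log ((n : ℝ) + 2) := by
        apply mul_nonneg hS; linarith
      nlinarith
  · right
    push Not at hcase
    obtain ⟨m, hm, hlt⟩ := hcase
    have hdm : 0 < d ^ m := pow_pos hdp m
    refine ⟨(h m - ψ m) / d ^ m, (h m + ψ m) / d ^ m, m, div_pos (by linarith) hdm, ?_⟩
    intro n hn
    obtain ⟨k, rfl⟩ := Nat.exists_eq_add_of_le hn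
    have e1 : ∀ c : ℝ, c / d ^ m * d ^ (m + k) = c * d ^ k := by
      intro c
      rw [pow_add]
      field_simp
    rw [e1, e1]
    have key : (h m - ψ m) * d ^ k ≤ h (m + k) - ψ (m + k) ∧
        h (m + k) + ψ (m + k) ≤ (h m + ψ m) * d ^ k := by
      clear hn e1
      induction k with
      | zero => simp
      | succ k ih =>
        have i1 := hlow (m + k) (by omega)
        have i2 := hupp (m + k) (by omega)
        have i3 : d * ((h m - ψ m) * d ^ k) ≤ d * (h (m + k) - ψ (m + k)) :=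
          mul_le_mul_of_nonneg_left ih.1 hdp.le
        have i4 : d * (h (m + k) + ψ (m + k)) ≤ d * ((h m + ψ m) * d ^ k) :=
          mul_le_mul_of_nonneg_left ih.2 hdp.le
        have e2 : m + (k + 1) = m + k + 1 := by ring
        rw [e2, pow_succ]
        constructor
        · calc (h m - ψ m) * (d ^ k * d) = d * ((h m - ψ m) * d ^ k) := by ring
            _ ≤ _ := i3.trans i1
        · calc h (m + k + 1) + ψ (m + k + 1) ≤ d * ((h m + ψ m) * d ^ k) := i2.trans i4
            _ = _ := by ring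
    have p1 := hψ0 (m + k)
    constructor <;> linarith [key.1, key.2]

theorem growth_aux_lin (d : ℝ) (hd : 1 < d) (n : ℕ) :
    (n : ℝ) + 1 ≤ (1 + 1 / (d - 1)) * d ^ n := by
  have hd0 : (0 : ℝ) < d - 1 := by linarith
  have h1 : 1 + (n : ℝ) * (d - 1) ≤ d ^ n := by
    have := one_add_mul_le_pow (a := d - 1) (by linarith) n
    have e : 1 + (d - 1) = d := by ring
    rw [e] at this
    exact this
  have h2 : (1 + 1 / (d - 1)) * (1 + (n : ℝ) * (d - 1)) ≤ (1 + 1 / (d - 1)) * d ^ n :=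
    mul_le_mul_of_nonneg_left h1 (by positivity)
  have h3 : (1 + 1 / (d - 1)) * (1 + (n : ℝ) * (d - 1)) =
      (n : ℝ) + 1 + (n : ℝ) * (d - 1) + 1 / (d - 1) := by
    field_simp
    ring
  have h4 : (0 : ℝ) ≤ (n : ℝ) * (d - 1) := by positivity
  have h5 : (0 : ℝ) ≤ 1 / (d - 1) := by positivity
  linarith

theorem growth_two (d : ℝ) (hd : 1 < d) (h g : ℕ → ℝ) (h0 : ∀ n, 0 ≤ h n) (g0 : ∀ n, 0 ≤ g n)
    (b C : ℝ) (n₁ : ℕ) (hb : ∀ n, n₁ ≤ n → h n ≤ b * d ^ n)
    (hg : ∀ n, g (n + 1) ≤ d * g n + C * (1 + Real.log ((n : ℝ) + 2) + h n)) :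
    ∃ B : ℝ, ∀ n, g n ≤ B * ((n : ℝ) + 1) * d ^ n := by
  have hdp : (0 : ℝ) < d := by linarith
  have hpow : ∀ n : ℕ, 1 ≤ d ^ n := fun n => one_le_pow₀ hd.le
  have hS : 0 ≤ ∑ k ∈ Finset.range n₁, h k := Finset.sum_nonneg fun k _ => h0 k
  obtain ⟨D, hD⟩ : ∃ D : ℝ, D = 1 + 2 * (1 + 1 / (d - 1)) + |b| +
    ∑ k ∈ Finset.range n₁, h k := ⟨_, rfl⟩
  have hD0 : 0 ≤ D := by
    rw [hD]
    have h1 : (0 : ℝ) < d - 1 := by linarith
    positivity
  have hDn : ∀ n : ℕ, 1 + Real.log ((n : ℝ) + 2) + h n ≤ D * d ^ n := by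
    intro n
    have h1 := hpow n
    have h2 := growth_aux_lin d hd n
    have h3 : Real.log ((n : ℝ) + 2) ≤ (n : ℝ) + 2 - 1 :=
      Real.log_le_sub_one_of_pos (by positivity)
    have h4 : h n ≤ (|b| + ∑ k ∈ Finset.range n₁, h k) * d ^ n := by
      rcases lt_or_ge n n₁ with hn | hn
      · have h5 : h n ≤ ∑ k ∈ Finset.range n₁, h k :=
          Finset.single_le_sum (fun k _ => h0 k) (Finset.mem_range.2 hn)
        have h6 : (∑ k ∈ Finset.range n₁, h k) * 1 ≤ (∑ k ∈ Finset.range n₁, h k) * d ^ n :=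
          mul_le_mul_of_nonneg_left h1 hS
        have h7 : 0 ≤ |b| * d ^ n := by positivity
        linarith
      · have h5 := hb n hn
        have h6 : b * d ^ n ≤ |b| * d ^ n :=
          mul_le_mul_of_nonneg_right (le_abs_self b) (by positivity)
        have h7 : 0 ≤ (∑ k ∈ Finset.range n₁, h k) * d ^ n := mul_nonneg hS (by positivity)
        linarith
    have h8 : 0 ≤ (1 + 1 / (d - 1)) * d ^ n := by
      have h1 : (0 : ℝ) < d - 1 := by linarith
      positivity
    rw [hD]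
    nlinarith
  obtain ⟨E, hE⟩ : ∃ E : ℝ, E = |C| * D := ⟨_, rfl⟩
  have hE0 : 0 ≤ E := by rw [hE]; positivity
  have hstep : ∀ n : ℕ, g (n + 1) ≤ d * g n + E * d ^ n := by
    intro n
    have h1 := hg n
    have h2 := hDn n
    have h3 : 0 ≤ 1 + Real.log ((n : ℝ) + 2) + h n := by
      have := growth_aux_log_two n
      have := h0 n
      linarith
    have h4 : C * (1 + Real.log ((n : ℝ) + 2) + h n) ≤
        |C| * (1 + Real.log ((n : ℝ) + 2) + h n) :=
      mul_le_mul_of_nonneg_right (le_abs_self C) h3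
    have h5 : |C| * (1 + Real.log ((n : ℝ) + 2) + h n) ≤ |C| * (D * d ^ n) :=
      mul_le_mul_of_nonneg_left h2 (abs_nonneg C)
    have h6 : |C| * (D * d ^ n) = E * d ^ n := by rw [hE]; ring
    linarith
  have hind : ∀ n : ℕ, g n ≤ (g 0 + n * E) * d ^ n := by
    intro n
    induction n with
    | zero => simp
    | succ n ih =>
      have h1 := hstep n
      have h2 : d * g n ≤ d * ((g 0 + n * E) * d ^ n) := mul_le_mul_of_nonneg_left ih hdp.le
      have h3 : E * d ^ n ≤ E * d ^ (n + 1) :=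
        mul_le_mul_of_nonneg_left (pow_le_pow_right₀ hd.le (Nat.le_succ n)) hE0
      push_cast
      calc g (n + 1) ≤ d * ((g 0 + n * E) * d ^ n) + E * d ^ (n + 1) := by linarith
        _ = _ := by ring
  refine ⟨g 0 + E, fun n => (hind n).trans ?_⟩
  apply mul_le_mul_of_nonneg_right _ (by positivity)
  have h1 : (0 : ℝ) ≤ n := Nat.cast_nonneg n
  nlinarith [g0 0, mul_nonneg h1 (g0 0)]

theorem root_aux (M : ℕ → ℝ) (hM : ∀ n, 1 ≤ M n) (L A : ℝ) (n₁ : ℕ)
    (h1 : ∀ n, n₁ ≤ n → (n : ℝ) * L - A ≤ Real.log (M n))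
    (h2 : ∀ n, n₁ ≤ n → Real.log (M n) ≤ (n : ℝ) * L + A + Real.log ((n : ℝ) + 2)) :
    Tendsto (fun n : ℕ => M n ^ ((1 : ℝ) / n)) atTop (nhds (Real.exp L)) := by
  have hl : Tendsto (fun n : ℕ => Real.log ((n : ℝ) + 2) / n) atTop (nhds 0) := by
    have h3 := Real.tendsto_pow_log_div_mul_add_atTop 1 (-2) 1 one_ne_zero
    have h4 : Tendsto (fun n : ℕ => (n : ℝ) + 2) atTop atTop :=
      tendsto_atTop_add_const_right _ _ tendsto_natCast_atTop_atTop
    have h5 := h3.comp h4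
    refine h5.congr fun n => ?_
    simp only [Function.comp, pow_one]
    congr 1
    ring
  have hA : Tendsto (fun n : ℕ => A / (n : ℝ)) atTop (nhds 0) :=
    tendsto_const_div_atTop_nhds_zero_nat A
  have hlog : Tendsto (fun n : ℕ => Real.log (M n) * (1 / (n : ℝ))) atTop (nhds L) := by
    have hlo : Tendsto (fun n : ℕ => L - A / (n : ℝ)) atTop (nhds L) := by
      have := (tendsto_const_nhds (x := L)).sub hA
      rwa [sub_zero] at this
    have hup : Tendsto (fun n : ℕ => L + A / (n : ℝ) + Real.log ((n : ℝ) + 2) / n) atTop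
        (nhds L) := by
      have := ((tendsto_const_nhds (x := L)).add hA).add hl
      rwa [add_zero, add_zero] at this
    refine tendsto_of_tendsto_of_tendsto_of_le_of_le' hlo hup ?_ ?_
    · filter_upwards [eventually_ge_atTop (max n₁ 1)] with n hn
      have hn0 : (0 : ℝ) < n := by
        have : 0 < n := lt_of_lt_of_le Nat.one_pos ((le_max_right _ _).trans hn)
        exact_mod_cast this
      have h3 := h1 n ((le_max_left _ _).trans hn)
      have h4 : L - A / (n : ℝ) = ((n : ℝ) * L - A) * (1 / (n : ℝ)) := by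
        field_simp
      rw [h4]
      exact mul_le_mul_of_nonneg_right h3 (by positivity)
    · filter_upwards [eventually_ge_atTop (max n₁ 1)] with n hn
      have hn0 : (0 : ℝ) < n := by
        have : 0 < n := lt_of_lt_of_le Nat.one_pos ((le_max_right _ _).trans hn)
        exact_mod_cast this
      have h3 := h2 n ((le_max_left _ _).trans hn)
      have h4 : L + A / (n : ℝ) + Real.log ((n : ℝ) + 2) / n =
          ((n : ℝ) * L + A + Real.log ((n : ℝ) + 2)) * (1 / (n : ℝ)) := by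
        field_simp
      rw [h4]
      exact mul_le_mul_of_nonneg_right h3 (by positivity)
  have h6 := (Real.continuous_exp.tendsto L).comp hlog
  refine h6.congr fun n => ?_
  simp only [Function.comp]
  rw [Real.rpow_def_of_pos (lt_of_lt_of_le one_pos (hM n))]

theorem root_fast (d : ℝ) (hd : 1 < d) (H : ℕ → ℝ) (a b : ℝ) (ha : 0 < a) (n₁ : ℕ)
    (h1 : ∀ n, n₁ ≤ n → a * d ^ n ≤ H n) (h2 : ∀ n, n₁ ≤ n → H n ≤ b * ((n : ℝ) + 1) * d ^ n) :
    Filter.Tendsto (fun n : ℕ => (max 1 (H n)) ^ ((1 : ℝ) / n)) Filter.atTop (nhds d) := by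
  have hdp : (0 : ℝ) < d := by linarith
  have hexp : Real.exp (Real.log d) = d := Real.exp_log hdp
  rw [← hexp]
  obtain ⟨B, hB⟩ : ∃ B : ℝ, B = max 1 b := ⟨_, rfl⟩
  have hB1 : 1 ≤ B := by rw [hB]; exact le_max_left _ _
  have hBb : b ≤ B := by rw [hB]; exact le_max_right _ _
  have hB0 : 0 < B := by linarith
  refine root_aux _ (fun n => le_max_left _ _) (Real.log d) (|Real.log a| + Real.log B) n₁ ?_ ?_
  · intro n hn
    have h3 : Real.log (a * d ^ n) ≤ Real.log (max 1 (H n)) :=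
      Real.log_le_log (by positivity) ((h1 n hn).trans (le_max_right _ _))
    rw [Real.log_mul ha.ne' (pow_pos hdp n).ne', Real.log_pow] at h3
    have h4 := neg_abs_le (Real.log a)
    have h5 := Real.log_nonneg hB1
    linarith
  · intro n hn
    have hpow : 1 ≤ d ^ n := one_le_pow₀ hd.le
    have hn0 : (0 : ℝ) ≤ n := Nat.cast_nonneg n
    have h3 : max 1 (H n) ≤ B * ((n : ℝ) + 2) * d ^ n := by
      apply max_le
      · have h4 : 1 ≤ B * ((n : ℝ) + 2) := by nlinarith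
        calc (1 : ℝ) = 1 * 1 := by ring
          _ ≤ B * ((n : ℝ) + 2) * d ^ n := mul_le_mul h4 hpow zero_le_one (by positivity)
      · refine (h2 n hn).trans ?_
        apply mul_le_mul_of_nonneg_right _ (by positivity)
        have h4 : b * ((n : ℝ) + 1) ≤ B * ((n : ℝ) + 1) :=
          mul_le_mul_of_nonneg_right hBb (by positivity)
        nlinarith
    have h4 := Real.log_le_log (lt_of_lt_of_le one_pos (le_max_left 1 (H n))) h3
    rw [Real.log_mul (by positivity) (pow_pos hdp n).ne', Real.log_mul hB0.ne' (by positivity),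
      Real.log_pow] at h4
    have h5 := abs_nonneg (Real.log a)
    linarith

theorem root_slow (H : ℕ → ℝ) (C : ℝ) (h : ∀ n, H n ≤ C * Real.log ((n : ℝ) + 2)) :
    Filter.Tendsto (fun n : ℕ => (max 1 (H n)) ^ ((1 : ℝ) / n)) Filter.atTop (nhds 1) := by
  have hexp : nhds (1 : ℝ) = nhds (Real.exp 0) := by rw [Real.exp_zero]
  rw [hexp]
  obtain ⟨B, hB⟩ : ∃ B : ℝ, B = max 1 C := ⟨_, rfl⟩
  have hB1 : 1 ≤ B := by rw [hB]; exact le_max_left _ _
  have hBb : C ≤ B := by rw [hB]; exact le_max_right _ _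
  have hB0 : 0 < B := by linarith
  refine root_aux _ (fun n => le_max_left _ _) 0 (Real.log B) 0 ?_ ?_
  · intro n _
    have h3 := Real.log_nonneg (le_max_left 1 (H n))
    have h5 := Real.log_nonneg hB1
    linarith
  · intro n _
    have hn0 : (0 : ℝ) ≤ n := Nat.cast_nonneg n
    have h3 : max 1 (H n) ≤ B * ((n : ℝ) + 2) := by
      apply max_le
      · nlinarith
      · have h4 := growth_aux_log_two n
        have h5 : Real.log ((n : ℝ) + 2) ≤ (n : ℝ) + 2 - 1 :=
          Real.log_le_sub_one_of_pos (by positivity)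
        have h6 : C * Real.log ((n : ℝ) + 2) ≤ B * Real.log ((n : ℝ) + 2) :=
          mul_le_mul_of_nonneg_right hBb (by linarith)
        have h7 : B * Real.log ((n : ℝ) + 2) ≤ B * ((n : ℝ) + 2) :=
          mul_le_mul_of_nonneg_left (by linarith) hB0.le
        exact (h n).trans (h6.trans h7)
    have h4 := Real.log_le_log (lt_of_lt_of_le one_pos (le_max_left 1 (H n))) h3
    rw [Real.log_mul hB0.ne' (by positivity)] at h4
    linarith

end Pool.Agent.KST
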