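import Pool.Agent.KST.Defs
import Pool.Agent.H85.HG.Bihom

/-!
# Project KST, row KST-1b: the lower bound for the height of the image
-/

set_option autoImplicit false

open Polynomial Height Height.AdmissibleAbsValues

namespace Pool.Agent.KST

private theorem kst1b_comp {R σ : Type} [CommRing R] (a b : MvPolynomial σ R) (n d : ℕ)
    (hb : b.IsHomogeneous d) :
    MvPolynomial.homogeneousComponent (n + d) (a * b) =
      MvPolynomial.homogeneousComponent n a * b := by
  have key : ∀ k : ℕ, MvPolynomial.homogeneousComponent (n + d)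
      (MvPolynomial.homogeneousComponent k a * b) =
      if k = n then MvPolynomial.homogeneousComponent k a * b else 0 := by
    intro k
    have hk : (MvPolynomial.homogeneousComponent k a * b) ∈
        MvPolynomial.homogeneousSubmodule σ R (k + d) :=
      (MvPolynomial.homogeneousComponent_isHomogeneous k a).mul hb
    rw [MvPolynomial.homogeneousComponent_of_mem hk]
    by_cases h : k = n
    · subst h; simp
    · rw [if_neg h, if_neg (by omega)]
  conv_lhs => rw [← MvPolynomial.sum_homogeneousComponent a, Finset.sum_mul, map_sum]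
  rw [Finset.sum_congr rfl fun k _ => key k, Finset.sum_ite_eq']
  split_ifs with h
  · rfl
  · have : a.totalDegree < n := by
      by_contra hc
      exact h (Finset.mem_range.mpr (by omega))
    rw [MvPolynomial.homogeneousComponent_eq_zero _ _ this, zero_mul]

/-- the lower bound -/
theorem height_ge {K : Type} [Field K] [AdmissibleAbsValues K] {ι : Type} [Fintype ι]
    [Nonempty ι] (d : ℕ) (hd : 1 ≤ d)
    (P : ι → MvPolynomial ι K[X])
    (hP : IsSkew d P) (M : ℕ) (ρ : K[X]) (hρ : ρ ≠ 0)
    (hreg : ∀ i, MvPolynomial.C ρ * MvPolynomial.X i ^ M ∈ Ideal.span (Set.range P)) :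
    ∃ (C : ℝ) (E : ℕ), 1 ≤ C ∧ ∀ (x : K) (y : ι → K), ρ.eval x ≠ 0 →
      mulHeight y ^ d ≤ C * mulHeight₁ x ^ E * mulHeight (fun i => evx x y (P i)) := by
  classical
  have hreg' : ∀ j, MvPolynomial.C ρ * MvPolynomial.X j ^ (M + d) ∈ Ideal.span (Set.range P) := by
    intro j
    rw [pow_add, ← mul_assoc]
    exact Ideal.mul_mem_right _ _ (hreg j)
  choose A hA using fun j => (Ideal.mem_span_range_iff_exists_fun).mp (hreg' j)
  let Q : ι × ι → MvPolynomial ι K[X] := fun a => MvPolynomial.homogeneousComponent M (A a.1 a.2)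
  have hQ : ∀ a, (Q a).IsHomogeneous M := fun a =>
    MvPolynomial.homogeneousComponent_isHomogeneous _ _
  have hQP : ∀ j, ∑ i, Q (j, i) * P i = MvPolynomial.C ρ * MvPolynomial.X j ^ (M + d) := by
    intro j
    have e1 := congrArg (MvPolynomial.homogeneousComponent (M + d)) (hA j)
    rw [map_sum, MvPolynomial.homogeneousComponent_C_mul] at e1
    have e2 : MvPolynomial.homogeneousComponent (M + d)
        (MvPolynomial.X j ^ (M + d) : MvPolynomial ι K[X]) = MvPolynomial.X j ^ (M + d) := by
      refine MvPolynomial.homogeneousComponent_eq_self ?_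
      exact MvPolynomial.isHomogeneous_X_pow j (M + d)
    rw [e2] at e1
    rw [← e1]
    exact Finset.sum_congr rfl fun i _ => (kst1b_comp _ _ _ _ (hP.hom i)).symm
  let φ : K[X] →+* MvPolynomial Unit K :=
    ((MvPolynomial.pUnitAlgEquiv K).symm : K[X] →+* MvPolynomial Unit K)
  have hφ : ∀ (x : K), (MvPolynomial.eval (fun _ : Unit => x)).comp φ =
      Polynomial.evalRingHom x := by
    intro x
    apply Polynomial.ringHom_ext
    · intro a
      simp [φ]
    · simp [φ]
  have hev : ∀ (F : MvPolynomial ι K[X]) (x : K) (y : ι → K),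
      Pool.Agent.H85.HG.ev (MvPolynomial.map φ F) (fun _ : Unit => x) y = evx x y F := by
    intro F x y
    rw [Pool.Agent.H85.HG.ev, MvPolynomial.map_map, hφ, evx, MvPolynomial.eval_map]
    rfl
  obtain ⟨C, E, hC, hE, hmain⟩ := Pool.Agent.H85.HG.logHeight_ev_ge (K := K) (κ := Unit) (τ := ι)
    (ι := ι) d M (fun i => MvPolynomial.map φ (P i)) (φ ρ)
    (fun a => MvPolynomial.map φ (Q a)) (fun a => (hQ a).map φ) (by
      intro j
      have := congrArg (MvPolynomial.map φ) (hQP j)
      simpa only [map_sum, map_mul, map_pow, MvPolynomial.map_C, MvPolynomial.map_X] using this)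
  refine ⟨Real.exp C, ⌈E⌉₊, Real.one_le_exp hC, ?_⟩
  intro x y hx
  have h1 := hmain (fun _ => x) y (by
    have := congrArg (fun f => f ρ) (hφ x)
    simp only [RingHom.comp_apply] at this
    rw [this]
    exact hx)
  simp only [hev] at h1
  have h2 : Pool.Agent.H85.HG.affHeight (fun _ : Unit => x) ≤ logHeight₁ x := by
    rw [Pool.Agent.H85.HG.affHeight, logHeight₁_eq_logHeight]
    have : (fun o : Option Unit => o.elim (1 : K) (fun _ => x)) =
        ![x, 1] ∘ (fun o : Option Unit => o.elim (1 : Fin 2) (fun _ => 0)) := by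
      funext o
      rcases o with _ | o <;> simp
    rw [this]
    exact logHeight_comp_le _ _
  have h3 : E * Pool.Agent.H85.HG.affHeight (fun _ : Unit => x) ≤ (⌈E⌉₊ : ℝ) * logHeight₁ x :=
    mul_le_mul (Nat.le_ceil E) h2 (Pool.Agent.H85.HG.affHeight_nonneg _) (Nat.cast_nonneg _)
  have h4 : (d : ℝ) * logHeight y ≤ C + (⌈E⌉₊ : ℝ) * logHeight₁ x +
      logHeight (fun i => evx x y (P i)) := by linarith
  have p1 : 0 < mulHeight y := mulHeight_pos y
  have p2 : 0 < mulHeight₁ x := mulHeight₁_pos x
  have p3 : 0 < mulHeight (fun i => evx x y (P i)) := mulHeight_pos _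
  rw [logHeight_eq_log_mulHeight, logHeight_eq_log_mulHeight, logHeight₁_eq_log_mulHeight₁,
    ← Real.log_pow, ← Real.log_pow] at h4
  have h5 := Real.exp_le_exp.mpr h4
  rwa [Real.exp_add, Real.exp_add, Real.exp_log (pow_pos p1 _), Real.exp_log (pow_pos p2 _),
    Real.exp_log p3] at h5

end Pool.Agent.KST
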