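import Pool.Agent.KST.Defs

/-!
Upper bounds for the height of the values of forms whose coefficients are polynomials in `x`.
-/

set_option autoImplicit false

open Polynomial Height Height.AdmissibleAbsValues

namespace Pool.Agent.KST

section

variable {K : Type} [Field K] [AdmissibleAbsValues K]

/-- The height of the image of a vector under a fixed linear map. -/
theorem hu_lin {τ μ : Type} [Finite τ] [Fintype μ] (A : τ × μ → K) :
    ∃ C : ℝ, 1 ≤ C ∧ ∀ w : μ → K,
      mulHeight (fun j => ∑ i, A (j, i) * w i) ≤ C * mulHeight w := by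
  rcases isEmpty_or_nonempty μ with h | h
  · refine ⟨1, le_rfl, fun w => ?_⟩
    have : (fun j : τ => ∑ i, A (j, i) * w i) = 0 := by
      funext j
      simp
    rw [this, mulHeight_zero, one_mul]
    exact one_le_mulHeight w
  · refine ⟨Nat.card μ ^ totalWeight K * mulHeight A, ?_, fun w =>
      mulHeight_linearMap_apply_le A w⟩
    have h1 : (1 : ℝ) ≤ (Nat.card μ : ℝ) ^ totalWeight K := by
      exact_mod_cast Nat.one_le_pow _ _ Nat.card_pos
    have h2 := one_le_mulHeight A
    nlinarith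

/-- The height of a vector of products. -/
theorem hu_mul {μ ν : Type} [Finite μ] [Finite ν] (u : μ → K) (v : ν → K) :
    mulHeight (fun a : μ × ν => u a.1 * v a.2) ≤ mulHeight u * mulHeight v := by
  have hu := one_le_mulHeight u
  have hv := one_le_mulHeight v
  rcases eq_or_ne u 0 with rfl | hu0
  · have : (fun a : μ × ν => (0 : μ → K) a.1 * v a.2) = 0 := by
      funext a
      simp
    rw [this, mulHeight_zero]
    nlinarith
  rcases eq_or_ne v 0 with rfl | hv0
  · have : (fun a : μ × ν => u a.1 * (0 : ν → K) a.2) = 0 := by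
      funext a
      simp
    rw [this, mulHeight_zero]
    nlinarith
  exact (mulHeight_fun_mul_eq hu0 hv0).le

/-- The height of a vector of monomials of the same degree. -/
theorem hu_mon {ι μ : Type} [Finite ι] [Finite μ] (e : ℕ) (m : μ → ι →₀ ℕ)
    (hm : ∀ a, (m a).degree = e) : ∃ C : ℝ, 1 ≤ C ∧ ∀ y : ι → K,
      mulHeight (fun a => (m a).prod fun i b => y i ^ b) ≤ C * mulHeight y ^ e := by
  have hp : ∀ a, (MvPolynomial.monomial (m a) (1 : K)).IsHomogeneous e := fun a =>
    MvPolynomial.isHomogeneous_monomial _ (hm a)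
  obtain ⟨C, -, hC⟩ := mulHeight_eval_le' hp
  refine ⟨max C 1, le_max_right _ _, fun y => ?_⟩
  have h1 := hC y
  have h2 : (fun a => (m a).prod fun i b => y i ^ b) =
      fun a => MvPolynomial.eval y (MvPolynomial.monomial (m a) (1 : K)) := by
    funext a
    simp [MvPolynomial.eval_monomial]
  rw [h2]
  refine h1.trans ?_
  gcongr
  exact le_max_left _ _

/-- The height of the vector of powers. -/
theorem hu_pow (E : ℕ) : ∃ C : ℝ, 1 ≤ C ∧ ∀ x : K,
    mulHeight (fun a : Fin (E + 1) => x ^ (a : ℕ)) ≤ C * mulHeight₁ x ^ E := by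
  obtain ⟨C, h1, hC⟩ := hu_mon (K := K) (ι := Fin 2) (μ := Fin (E + 1)) E
    (fun a => Finsupp.single 0 (a : ℕ) + Finsupp.single 1 (E - (a : ℕ))) (by
      intro a
      have := a.isLt
      rw [map_add, Finsupp.degree_single, Finsupp.degree_single]
      omega)
  refine ⟨C, h1, fun x => ?_⟩
  have h2 := hC ![x, 1]
  rw [mulHeight₁_eq_mulHeight]
  refine Eq.trans_le ?_ h2
  congr 1
  funext a
  rw [Finsupp.prod_add_index' (by simp) (by intros; rw [pow_add])]
  simp

/-- The values of a family of forms of bidegree `(e, d)`. -/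
theorem height_le_two {ι κ τ : Type} [Finite ι] [Finite κ] [Finite τ] (e d : ℕ)
    (S : τ → MvPolynomial (ι ⊕ κ) K[X])
    (hS : ∀ i, (S i).IsWeightedHomogeneous
      (Sum.elim (fun _ => ((1 : ℕ), (0 : ℕ))) (fun _ => ((0 : ℕ), (1 : ℕ)))) (e, d)) :
    ∃ (C : ℝ) (E : ℕ), 1 ≤ C ∧ ∀ (x : K) (y : ι → K) (z : κ → K),
      mulHeight (fun i => evx x (Sum.elim y z) (S i)) ≤
        C * mulHeight₁ x ^ E * mulHeight y ^ e * mulHeight z ^ d := by
  classical
  have := Fintype.ofFinite ι
  have := Fintype.ofFinite κ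
  have := Fintype.ofFinite τ
  -- the monomials that occur
  set s : Finset ((ι ⊕ κ) →₀ ℕ) := Finset.univ.biUnion fun i => (S i).support with hs
  have hSs : ∀ i, (S i).support ⊆ s := fun i =>
    Finset.subset_biUnion_of_mem (fun i => (S i).support) (Finset.mem_univ i)
  set m₁ : s → ι →₀ ℕ := fun m => (Finsupp.sumFinsuppEquivProdFinsupp m.1).1 with hm₁
  set m₂ : s → κ →₀ ℕ := fun m => (Finsupp.sumFinsuppEquivProdFinsupp m.1).2 with hm₂
  have hdeg : ∀ m : s, (m₁ m).degree = e ∧ (m₂ m).degree = d := by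
    rintro ⟨m, hm⟩
    obtain ⟨i, -, hi⟩ := Finset.mem_biUnion.1 hm
    rw [MvPolynomial.mem_support_iff] at hi
    have h1 := hS i hi
    rw [Finsupp.weight_apply, Finsupp.sum_fintype _ _ (by simp), Fintype.sum_sum_type] at h1
    simp only [Sum.elim_inl, Sum.elim_inr, Prod.smul_mk, smul_eq_mul, mul_one, mul_zero] at h1
    have h2 := congrArg Prod.fst h1
    have h3 := congrArg Prod.snd h1
    simp only [Prod.fst_add, Prod.snd_add, Prod.fst_sum, Prod.snd_sum, Finset.sum_const_zero,
      add_zero, zero_add] at h2 h3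
    constructor
    · rw [Finsupp.degree_eq_sum]
      simpa [hm₁] using h2
    · rw [Finsupp.degree_eq_sum]
      simpa [hm₂] using h3
  -- the degree of the coefficients
  set E : ℕ := Finset.univ.sup fun i : τ => s.sup fun m => ((S i).coeff m).natDegree with hE
  have hEd : ∀ i, ∀ m ∈ s, ((S i).coeff m).natDegree < E + 1 := by
    intro i m hm
    have h1 : ((S i).coeff m).natDegree ≤ s.sup fun m => ((S i).coeff m).natDegree :=
      Finset.le_sup (f := fun m => ((S i).coeff m).natDegree) hm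
    have h2 : (s.sup fun m => ((S i).coeff m).natDegree) ≤ E :=
      Finset.le_sup (f := fun i : τ => s.sup fun m => ((S i).coeff m).natDegree)
        (Finset.mem_univ i)
    omega
  obtain ⟨C₀, hC₀, h0⟩ := hu_lin (K := K) (τ := τ) (μ := Fin (E + 1) × s)
    (fun t => ((S t.1).coeff t.2.2.1).coeff t.2.1)
  obtain ⟨C₁, hC₁, h1⟩ := hu_pow (K := K) E
  obtain ⟨C₂, hC₂, h2⟩ := hu_mon (K := K) e m₁ fun a => (hdeg a).1
  obtain ⟨C₃, hC₃, h3⟩ := hu_mon (K := K) d m₂ fun a => (hdeg a).2
  refine ⟨C₀ * (C₁ * (C₂ * C₃)), E, ?_, fun x y z => ?_⟩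
  · have h4 : 1 ≤ C₂ * C₃ := one_le_mul_of_one_le_of_one_le hC₂ hC₃
    exact one_le_mul_of_one_le_of_one_le hC₀ (one_le_mul_of_one_le_of_one_le hC₁ h4)
  have key : (fun i => evx x (Sum.elim y z) (S i)) = fun i => ∑ a : Fin (E + 1) × s,
      ((S i).coeff a.2.1).coeff a.1 * (x ^ (a.1 : ℕ) *
        (((m₁ a.2).prod fun i b => y i ^ b) * ((m₂ a.2).prod fun i b => z i ^ b))) := by
    funext i
    have e1 : evx x (Sum.elim y z) (S i) = ∑ m ∈ s, ((S i).coeff m).eval x *
        ∏ l, Sum.elim y z l ^ m l := by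
      change MvPolynomial.eval₂ (Polynomial.evalRingHom x) (Sum.elim y z) (S i) = _
      rw [MvPolynomial.eval₂_eq']
      refine Finset.sum_subset (hSs i) fun m _ hm => ?_
      rw [MvPolynomial.notMem_support_iff] at hm
      rw [hm, map_zero, zero_mul]
    rw [e1, Fintype.sum_prod_type_right,
      ← Finset.sum_coe_sort s (fun m => ((S i).coeff m).eval x * ∏ l, Sum.elim y z l ^ m l)]
    refine Finset.sum_congr rfl fun m _ => ?_
    rw [Polynomial.eval_eq_sum_range' (hEd i m.1 m.2), Finset.sum_range, Finset.sum_mul]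
    refine Finset.sum_congr rfl fun a _ => ?_
    rw [mul_assoc]
    congr 2
    rw [Fintype.prod_sum_type, Finsupp.prod_fintype _ _ (by simp),
      Finsupp.prod_fintype _ _ (by simp)]
    simp [hm₁, hm₂]
  rw [key]
  refine (h0 _).trans ?_
  have h4 : mulHeight (fun a : Fin (E + 1) × s => x ^ (a.1 : ℕ) *
        (((m₁ a.2).prod fun i b => y i ^ b) * ((m₂ a.2).prod fun i b => z i ^ b))) ≤
      mulHeight (fun a : Fin (E + 1) => x ^ (a : ℕ)) *
        (mulHeight (fun a => (m₁ a).prod fun i b => y i ^ b) *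
          mulHeight (fun a => (m₂ a).prod fun i b => z i ^ b)) := by
    have h5 := mulHeight_comp_le (fun a : Fin (E + 1) × s => (a.1, (a.2, a.2)))
      (fun c : Fin (E + 1) × (s × s) => x ^ (c.1 : ℕ) *
        (((m₁ c.2.1).prod fun i b => y i ^ b) * ((m₂ c.2.2).prod fun i b => z i ^ b)))
    refine (Eq.trans_le ?_ h5).trans ?_
    · rfl
    refine (hu_mul (fun a : Fin (E + 1) => x ^ (a : ℕ)) (fun c : s × s =>
      ((m₁ c.1).prod fun i b => y i ^ b) * ((m₂ c.2).prod fun i b => z i ^ b))).trans ?_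
    have h6 := hu_mul (fun a : s => (m₁ a).prod fun i b => y i ^ b)
      (fun a : s => (m₂ a).prod fun i b => z i ^ b)
    have h7 := one_le_mulHeight (fun a : Fin (E + 1) => x ^ (a : ℕ))
    gcongr
  refine (mul_le_mul_of_nonneg_left h4 (by linarith)).trans ?_
  have e1 : C₀ * (C₁ * (C₂ * C₃)) * mulHeight₁ x ^ E * mulHeight y ^ e * mulHeight z ^ d =
      C₀ * (C₁ * mulHeight₁ x ^ E * (C₂ * mulHeight y ^ e * (C₃ * mulHeight z ^ d))) := by ring
  rw [e1]
  have p1 := one_le_mulHeight (fun a : Fin (E + 1) => x ^ (a : ℕ))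
  have p2 := one_le_mulHeight (fun a => (m₁ a).prod fun i b => y i ^ b)
  have p3 := one_le_mulHeight (fun a => (m₂ a).prod fun i b => z i ^ b)
  have p4 := one_le_mulHeight y
  have p5 := one_le_mulHeight z
  have p6 := one_le_mulHeight₁ x
  have q1 := h1 x
  have q2 := h2 y
  have q3 := h3 z
  gcongr

/-- The values of a family of forms of degree `d`. -/
theorem height_le {ι τ : Type} [Finite ι] [Finite τ] (d : ℕ)
    (S : τ → MvPolynomial ι K[X]) (hS : ∀ i, (S i).IsHomogeneous d) :
    ∃ (C : ℝ) (E : ℕ), 1 ≤ C ∧ ∀ (x : K) (y : ι → K),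
      mulHeight (fun i => evx x y (S i)) ≤ C * mulHeight₁ x ^ E * mulHeight y ^ d := by
  obtain ⟨C, E, hC, h⟩ := height_le_two (K := K) (ι := ι) (κ := Empty) d 0
    (fun i => MvPolynomial.rename Sum.inl (S i)) (by
      classical
      have := Fintype.ofFinite ι
      intro i m hm
      obtain ⟨m', rfl, hm'⟩ := MvPolynomial.coeff_rename_ne_zero _ _ _ hm
      have h1 : m'.degree = d := by
        have h2 := hS i hm'
        rw [← h2, Finsupp.degree_eq_sum, Finsupp.weight_apply,
          Finsupp.sum_fintype _ _ (by simp)]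
        simp
      rw [Finsupp.weight_apply, Finsupp.sum_mapDomain_index (by simp)
        (by intros; rw [add_smul])]
      simp only [Sum.elim_inl, Prod.smul_mk, smul_eq_mul, mul_one, mul_zero]
      rw [Finsupp.sum_fintype _ _ (by simp), ← h1, Finsupp.degree_eq_sum]
      ext <;> simp [Prod.fst_sum, Prod.snd_sum])
  refine ⟨C, E, hC, fun x y => ?_⟩
  have h1 := h x y (fun a => a.elim)
  rw [pow_zero, mul_one] at h1
  refine Eq.trans_le ?_ h1
  congr 1
  funext i
  simp only [evx, MvPolynomial.coe_eval₂Hom, MvPolynomial.eval₂_rename]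
  rfl

end

end Pool.Agent.KST
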