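import Pool.Agent.KST.Endgame
import Pool.Agent.KST.Growth
import Pool.Agent.KST.HeightUp
import Pool.Agent.KST.HeightLow

/-!
Arithmetic degrees for skew products over a translation.
-/

set_option autoImplicit false

open Polynomial Height Height.AdmissibleAbsValues Filter

namespace Pool.Agent.KST

/-- Forms `S i` of degree `e` in `y` and `d'` in `z`, and the points `z n` above the orbit
`(x₀ + n; y n)`: `z (n + 1) = S(x₀ + n; y n; z n)`. -/
structure IsTower {K ι κ : Type} [Field K] (e d' : ℕ) (S : κ → MvPolynomial (ι ⊕ κ) K[X])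
    (x₀ : K) (y : ℕ → ι → K) (z : ℕ → κ → K) : Prop where
  hom : ∀ i, (S i).IsWeightedHomogeneous
    (Sum.elim (fun _ => ((1 : ℕ), (0 : ℕ))) (fun _ => ((0 : ℕ), (1 : ℕ)))) (e, d')
  ne : ∀ n, z n ≠ 0
  step : ∀ n : ℕ, ∃ c : K, c ≠ 0 ∧ ∀ i, evx (x₀ + n) (Sum.elim (y n) (z n)) (S i) =
    c * z (n + 1) i

section
variable {K : Type} [Field K] [NumberField K]

/-- `log` of a bound `C * H(x₀ + n) ^ E` -/
theorem log_base (x₀ : K) (C : ℝ) (hC : 1 ≤ C) (E : ℕ) : ∃ A : ℝ, 0 ≤ A ∧ ∀ n : ℕ,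
    Real.log (C * mulHeight₁ (x₀ + (n : K)) ^ E) ≤ A * Real.log ((n : ℝ) + 2) := by
  obtain ⟨C₂, hC₂, h2⟩ := height_nat (K := K) x₀
  have hl2 : 0 < Real.log 2 := Real.log_pos (by norm_num)
  refine ⟨(Real.log C + E * Real.log C₂) / Real.log 2 + E * totalWeight K, ?_, fun n => ?_⟩
  · have := Real.log_nonneg hC
    have := Real.log_nonneg hC₂
    positivity
  · have hn : Real.log 2 ≤ Real.log ((n : ℝ) + 2) :=
      Real.log_le_log (by norm_num) (by have : (0 : ℝ) ≤ n := n.cast_nonneg; linarith)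
    have h3 : Real.log (C * mulHeight₁ (x₀ + (n : K)) ^ E) ≤
        Real.log C + E * (Real.log C₂ + totalWeight K * Real.log ((n : ℝ) + 2)) := by
      rw [Real.log_mul (by positivity) (pow_ne_zero _ (mulHeight₁_ne_zero _)), Real.log_pow]
      refine add_le_add le_rfl (mul_le_mul_of_nonneg_left ?_ (Nat.cast_nonneg E))
      calc Real.log (mulHeight₁ (x₀ + (n : K)))
          ≤ Real.log (C₂ * ((n : ℝ) + 1) ^ totalWeight K) :=
            Real.log_le_log (mulHeight₁_pos _) (h2 n)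
        _ = Real.log C₂ + totalWeight K * Real.log ((n : ℝ) + 1) := by
            rw [Real.log_mul (by positivity) (by positivity), Real.log_pow]
        _ ≤ Real.log C₂ + totalWeight K * Real.log ((n : ℝ) + 2) := by
            refine add_le_add le_rfl (mul_le_mul_of_nonneg_left ?_ (Nat.cast_nonneg _))
            exact Real.log_le_log (by positivity) (by linarith)
    have h4 : 0 ≤ Real.log C + E * Real.log C₂ := by
      have := Real.log_nonneg hC
      have := Real.log_nonneg hC₂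
      positivity
    have h5 : Real.log C + E * Real.log C₂ ≤
        (Real.log C + E * Real.log C₂) / Real.log 2 * Real.log ((n : ℝ) + 2) := by
      rw [div_mul_eq_mul_div, le_div_iff₀ hl2]
      exact mul_le_mul_of_nonneg_left hn h4
    calc Real.log (C * mulHeight₁ (x₀ + (n : K)) ^ E)
        ≤ (Real.log C + E * Real.log C₂) + E * totalWeight K * Real.log ((n : ℝ) + 2) := by
          refine h3.trans (le_of_eq ?_)
          ring
      _ ≤ _ := by
          rw [add_mul]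
          exact add_le_add h5 le_rfl

theorem log_two_le (n : ℕ) : Real.log 2 ≤ Real.log ((n : ℝ) + 2) :=
  Real.log_le_log (by norm_num) (by have : (0 : ℝ) ≤ n := n.cast_nonneg; linarith)

/-- the heights in the first fibre coordinate -/
theorem height_step {ι : Type} [Fintype ι] [Nonempty ι] (d : ℕ) (hd : 2 ≤ d)
    (P : ι → MvPolynomial ι K[X]) (hP : IsSkew d P) (x₀ : K) (y : ℕ → ι → K)
    (hy : IsOrbit P x₀ y) : ∃ (A : ℝ) (n₁ : ℕ), ∀ n, n₁ ≤ n →
      |logHeight (y (n + 1)) - (d : ℝ) * logHeight (y n)| ≤ A * Real.log ((n : ℝ) + 2) := by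
  classical
  obtain ⟨M, ρ, hρ, hreg⟩ := hP.reg
  obtain ⟨C₁, E₁, hC₁, h1⟩ := height_le (K := K) d P hP.hom
  obtain ⟨C₂, E₂, hC₂, h2⟩ := height_ge (K := K) d (by omega) P hP M ρ hρ hreg
  obtain ⟨A₁, hA₁, h3⟩ := log_base x₀ C₁ hC₁ E₁
  obtain ⟨A₂, hA₂, h4⟩ := log_base x₀ C₂ hC₂ E₂
  obtain ⟨N₁, hN₁⟩ := exists_no_root x₀ ρ hρ
  refine ⟨A₁ + A₂, N₁, fun n hn => ?_⟩
  have hlog : 0 ≤ Real.log ((n : ℝ) + 2) := (Real.log_nonneg (by norm_num)).trans (log_two_le n)
  have hstep : mulHeight (fun i => evx (x₀ + (n : K)) (y n) (P i)) = mulHeight (y (n + 1)) := by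
    obtain ⟨c, hc, hs⟩ := hy.step n
    have : (fun i => evx (x₀ + (n : K)) (y n) (P i)) = c • y (n + 1) := by
      funext i
      rw [hs i]
      rfl
    rw [this, mulHeight_smul_eq_mulHeight _ hc]
  have hup : logHeight (y (n + 1)) ≤
      A₁ * Real.log ((n : ℝ) + 2) + (d : ℝ) * logHeight (y n) := by
    rw [logHeight_eq_log_mulHeight, logHeight_eq_log_mulHeight, ← hstep]
    calc Real.log (mulHeight (fun i => evx (x₀ + (n : K)) (y n) (P i)))
        ≤ Real.log (C₁ * mulHeight₁ (x₀ + (n : K)) ^ E₁ * mulHeight (y n) ^ d) :=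
          Real.log_le_log (mulHeight_pos _) (h1 _ _)
      _ = Real.log (C₁ * mulHeight₁ (x₀ + (n : K)) ^ E₁) + d * Real.log (mulHeight (y n)) := by
          have hb : C₁ * mulHeight₁ (x₀ + (n : K)) ^ E₁ ≠ 0 :=
            mul_ne_zero (by positivity) (pow_ne_zero _ (mulHeight₁_ne_zero _))
          rw [Real.log_mul hb (pow_ne_zero _ (mulHeight_ne_zero _)), Real.log_pow]
      _ ≤ _ := add_le_add (h3 n) le_rfl
  have hlow : (d : ℝ) * logHeight (y n) ≤
      A₂ * Real.log ((n : ℝ) + 2) + logHeight (y (n + 1)) := by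
    rw [logHeight_eq_log_mulHeight, logHeight_eq_log_mulHeight, ← hstep]
    calc (d : ℝ) * Real.log (mulHeight (y n)) = Real.log (mulHeight (y n) ^ d) := by
          rw [Real.log_pow]
      _ ≤ Real.log (C₂ * mulHeight₁ (x₀ + (n : K)) ^ E₂ *
          mulHeight (fun i => evx (x₀ + (n : K)) (y n) (P i))) :=
          Real.log_le_log (pow_pos (mulHeight_pos _) _) (h2 _ _ (hN₁ n hn))
      _ = Real.log (C₂ * mulHeight₁ (x₀ + (n : K)) ^ E₂) +
          Real.log (mulHeight (fun i => evx (x₀ + (n : K)) (y n) (P i))) := by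
          have hb : C₂ * mulHeight₁ (x₀ + (n : K)) ^ E₂ ≠ 0 :=
            mul_ne_zero (by positivity) (pow_ne_zero _ (mulHeight₁_ne_zero _))
          rw [Real.log_mul hb (mulHeight_ne_zero _)]
      _ ≤ _ := add_le_add (h4 n) le_rfl
  rw [abs_le]
  constructor
  · nlinarith
  · nlinarith

/-- the heights in the second fibre coordinate -/
theorem height_step_two {ι κ : Type} [Fintype ι] [Finite κ] (e d' : ℕ)
    (S : κ → MvPolynomial (ι ⊕ κ) K[X]) (x₀ : K) (y : ℕ → ι → K) (z : ℕ → κ → K)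
    (hz : IsTower e d' S x₀ y z) : ∃ A : ℝ, 0 ≤ A ∧ ∀ n, logHeight (z (n + 1)) ≤
      (d' : ℝ) * logHeight (z n) + (e * logHeight (y n) + A * Real.log ((n : ℝ) + 2)) := by
  obtain ⟨C₁, E₁, hC₁, h1⟩ := height_le_two (K := K) e d' S hz.hom
  obtain ⟨A₁, hA₁, h3⟩ := log_base x₀ C₁ hC₁ E₁
  refine ⟨A₁, hA₁, fun n => ?_⟩
  have hstep : mulHeight (fun i => evx (x₀ + (n : K)) (Sum.elim (y n) (z n)) (S i)) =
      mulHeight (z (n + 1)) := by
    obtain ⟨c, hc, hs⟩ := hz.step n
    have : (fun i => evx (x₀ + (n : K)) (Sum.elim (y n) (z n)) (S i)) = c • z (n + 1) := by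
      funext i
      rw [hs i]
      rfl
    rw [this, mulHeight_smul_eq_mulHeight _ hc]
  simp only [logHeight_eq_log_mulHeight]
  rw [← hstep]
  have hb : C₁ * mulHeight₁ (x₀ + (n : K)) ^ E₁ ≠ 0 :=
    mul_ne_zero (by positivity) (pow_ne_zero _ (mulHeight₁_ne_zero _))
  calc Real.log (mulHeight (fun i => evx (x₀ + (n : K)) (Sum.elim (y n) (z n)) (S i)))
      ≤ Real.log (C₁ * mulHeight₁ (x₀ + (n : K)) ^ E₁ * mulHeight (y n) ^ e *
        mulHeight (z n) ^ d') := Real.log_le_log (mulHeight_pos _) (h1 _ _ _)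
    _ = Real.log (C₁ * mulHeight₁ (x₀ + (n : K)) ^ E₁) + e * Real.log (mulHeight (y n)) +
        d' * Real.log (mulHeight (z n)) := by
        rw [Real.log_mul (mul_ne_zero hb (pow_ne_zero _ (mulHeight_ne_zero _)))
          (pow_ne_zero _ (mulHeight_ne_zero _)),
          Real.log_mul hb (pow_ne_zero _ (mulHeight_ne_zero _)), Real.log_pow, Real.log_pow]
    _ ≤ _ := by
        have := h3 n
        linarith

/-- **The dichotomy.** -/
theorem dichotomy {ι κ : Type} [Fintype ι] [Nonempty ι] [Finite κ] (d e d' : ℕ) (hd : 2 ≤ d)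
    (hd' : d' ≤ d) (P : ι → MvPolynomial ι K[X]) (hP : IsSkew d P)
    (S : κ → MvPolynomial (ι ⊕ κ) K[X]) (x₀ : K) (y : ℕ → ι → K) (z : ℕ → κ → K)
    (hy : IsOrbit P x₀ y) (hz : IsTower e d' S x₀ y z) :
    (Tendsto (fun n : ℕ => (max 1 (logHeight₁ (x₀ + (n : K)) + logHeight (y n))) ^
        ((1 : ℝ) / n)) atTop (nhds (d : ℝ)) ∧
      Tendsto (fun n : ℕ => (max 1 (logHeight₁ (x₀ + (n : K)) + logHeight (y n) +
        logHeight (z n))) ^ ((1 : ℝ) / n)) atTop (nhds (d : ℝ))) ∨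
    ((∃ C : ℝ, ∀ n : ℕ, logHeight₁ (x₀ + (n : K)) + logHeight (y n) ≤
        C * Real.log ((n : ℝ) + 2)) ∧
      Tendsto (fun n : ℕ => (max 1 (logHeight₁ (x₀ + (n : K)) + logHeight (y n))) ^
        ((1 : ℝ) / n)) atTop (nhds (1 : ℝ)) ∧
      ∀ i j, ∃ (m : ℕ) (G : MvPolynomial (Fin 2) K[X]), G ≠ 0 ∧ G.IsHomogeneous m ∧
        ∀ n : ℕ, evx (x₀ + n) ![y n i, y n j] G = 0) := by
  classical
  obtain ⟨Ax, hAx, hx⟩ := log_base x₀ 1 le_rfl 1
  have hx' : ∀ n : ℕ, logHeight₁ (x₀ + (n : K)) ≤ Ax * Real.log ((n : ℝ) + 2) := by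
    intro n
    have := hx n
    rwa [one_mul, pow_one] at this
  have hlog : ∀ n : ℕ, 0 ≤ Real.log ((n : ℝ) + 2) := fun n =>
    (Real.log_nonneg (by norm_num)).trans (log_two_le n)
  have hd1 : (1 : ℝ) < d := by exact_mod_cast (by omega : 1 < d)
  obtain ⟨A, n₁, hA⟩ := height_step d hd P hP x₀ y hy
  rcases growth (d : ℝ) hd1 (fun n => logHeight (y n)) (fun n => logHeight_nonneg _) A n₁ hA with
    ⟨C, hC⟩ | ⟨a, b, n₂, ha, hab⟩
  · right
    have hsum : ∀ n : ℕ, logHeight₁ (x₀ + (n : K)) + logHeight (y n) ≤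
        (Ax + C) * Real.log ((n : ℝ) + 2) := by
      intro n
      rw [add_mul]
      exact add_le_add (hx' n) (hC n)
    refine ⟨⟨Ax + C, hsum⟩, root_slow _ (Ax + C) hsum, ?_⟩
    have hcov : Covered x₀ y := by
      refine covered d hd P hP x₀ y hy ⌈C⌉₊ fun n => ?_
      have h1 : Real.log (mulHeight (y n)) ≤ Real.log (((n : ℝ) + 2) ^ ⌈C⌉₊) := by
        rw [Real.log_pow]
        exact (hC n).trans (mul_le_mul_of_nonneg_right (Nat.le_ceil C) (hlog n))
      exact (Real.log_le_log_iff (mulHeight_pos _) (by positivity)).mp h1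
    exact fun i j => endgame d P hP.hom x₀ y hy hcov i j
  · left
    obtain ⟨A', hA', hz'⟩ := height_step_two e d' S x₀ y z hz
    have hpow : ∀ n : ℕ, (1 : ℝ) ≤ (d : ℝ) ^ n := fun n => one_le_pow₀ hd1.le
    have hb0 : 0 ≤ b := by
      have h1 := (hab n₂ le_rfl).1
      have h2 := (hab n₂ le_rfl).2
      have h3 := hpow n₂
      by_contra hneg
      rw [not_le] at hneg
      have h4 : b * (d : ℝ) ^ n₂ ≤ 0 := mul_nonpos_of_nonpos_of_nonneg hneg.le (by linarith)
      have h5 : 0 < a * (d : ℝ) ^ n₂ := by positivity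
      linarith
    obtain ⟨B, hB⟩ := growth_two (d : ℝ) hd1 (fun n => logHeight (y n))
      (fun n => logHeight (z n)) (fun n => logHeight_nonneg _) (fun n => logHeight_nonneg _)
      b (e + A') n₂ (fun n hn => (hab n hn).2) (by
        intro n
        have h1 := hz' n
        have h2 : (d' : ℝ) * logHeight (z n) ≤ (d : ℝ) * logHeight (z n) :=
          mul_le_mul_of_nonneg_right (by exact_mod_cast hd') (logHeight_nonneg _)
        have h3 : 0 ≤ (e : ℝ) := Nat.cast_nonneg e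
        have h4 := hlog n
        have h5 : 0 ≤ logHeight (y n) := logHeight_nonneg _
        have h6 : (e : ℝ) * logHeight (y n) + A' * Real.log ((n : ℝ) + 2) ≤
            (e + A') * (1 + Real.log ((n : ℝ) + 2) + logHeight (y n)) := by
          nlinarith [mul_nonneg h3 h4, mul_nonneg hA' h5]
        show logHeight (z (n + 1)) ≤ (d : ℝ) * logHeight (z n) +
          (e + A') * (1 + Real.log ((n : ℝ) + 2) + logHeight (y n))
        linarith)
    have hlogd : ∀ n : ℕ, Real.log ((n : ℝ) + 2) ≤ 2 * (((n : ℝ) + 1) * (d : ℝ) ^ n) := by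
      intro n
      have h1 : Real.log ((n : ℝ) + 2) ≤ (n : ℝ) + 2 :=
        (Real.log_le_sub_one_of_pos (by positivity)).trans (by linarith)
      have h2 : ((n : ℝ) + 1) * 1 ≤ ((n : ℝ) + 1) * (d : ℝ) ^ n :=
        mul_le_mul_of_nonneg_left (hpow n) (by positivity)
      have h3 : (0 : ℝ) ≤ n := n.cast_nonneg
      linarith
    constructor
    · apply root_fast (d : ℝ) hd1 _ a (2 * Ax + b) ha n₂
      · intro n hn
        have h1 := (hab n hn).1
        have h2 : 0 ≤ logHeight₁ (x₀ + (n : K)) := zero_le_logHeight₁ _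
        linarith
      · intro n hn
        have h1 := (hab n hn).2
        have h2 := hx' n
        have h3 : Ax * Real.log ((n : ℝ) + 2) ≤ Ax * (2 * (((n : ℝ) + 1) * (d : ℝ) ^ n)) :=
          mul_le_mul_of_nonneg_left (hlogd n) hAx
        have h4 : b * (1 * (d : ℝ) ^ n) ≤ b * (((n : ℝ) + 1) * (d : ℝ) ^ n) :=
          mul_le_mul_of_nonneg_left (mul_le_mul_of_nonneg_right
            (by have : (0 : ℝ) ≤ n := n.cast_nonneg; linarith) (by positivity)) hb0
        have h5 : (2 * Ax + b) * ((n : ℝ) + 1) * (d : ℝ) ^ n =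
            Ax * (2 * (((n : ℝ) + 1) * (d : ℝ) ^ n)) + b * (((n : ℝ) + 1) * (d : ℝ) ^ n) := by
          ring
        rw [h5]
        have h6 : logHeight (y n) ≤ b * (d : ℝ) ^ n := h1
        linarith
    · apply root_fast (d : ℝ) hd1 _ a (2 * Ax + b + B) ha n₂
      · intro n hn
        have h1 := (hab n hn).1
        have h2 : 0 ≤ logHeight₁ (x₀ + (n : K)) := zero_le_logHeight₁ _
        have h3 : 0 ≤ logHeight (z n) := logHeight_nonneg _
        linarith
      · intro n hn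
        have h1 := (hab n hn).2
        have h2 := hx' n
        have h3 : Ax * Real.log ((n : ℝ) + 2) ≤ Ax * (2 * (((n : ℝ) + 1) * (d : ℝ) ^ n)) :=
          mul_le_mul_of_nonneg_left (hlogd n) hAx
        have h4 : b * (1 * (d : ℝ) ^ n) ≤ b * (((n : ℝ) + 1) * (d : ℝ) ^ n) :=
          mul_le_mul_of_nonneg_left (mul_le_mul_of_nonneg_right
            (by have : (0 : ℝ) ≤ n := n.cast_nonneg; linarith) (by positivity)) hb0
        have h5 : (2 * Ax + b + B) * ((n : ℝ) + 1) * (d : ℝ) ^ n =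
            Ax * (2 * (((n : ℝ) + 1) * (d : ℝ) ^ n)) + b * (((n : ℝ) + 1) * (d : ℝ) ^ n) +
              B * ((n : ℝ) + 1) * (d : ℝ) ^ n := by
          ring
        rw [h5]
        have h6 : logHeight (y n) ≤ b * (d : ℝ) ^ n := h1
        have h7 : logHeight (z n) ≤ B * ((n : ℝ) + 1) * (d : ℝ) ^ n := hB n
        linarith

end

end Pool.Agent.KST
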